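import Pool.Agent.L0h5.TH.FinZ
import Pool.Agent.L0h5.TF.Twist

/-!
# The theorems for integers in short intervals and for primes
-/

set_option autoImplicit false
set_option linter.unusedSectionVars false

namespace Pool.Agent.L0h5.TH

open Finset Polynomial Pool.Agent.W262.RK Pool.Agent.L0h5.TF Pool.Agent.L0h5.MR
  UniqueFactorizationMonoid

open Classical in
/-- the distinct irreducible factors -/
noncomputable def fcs (D : ℚ[X]) (G : Fin 3 → ℚ[X]) : Finset ℚ[X] :=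
  (normalizedFactors (D * G 0 * G 1 * G 2)).toFinset

section

variable {D : ℚ[X]} {G : Fin 3 → ℚ[X]}

lemma fcs_spec {f : ℚ[X]} (h : f ∈ fcs D G) : Irreducible f ∧ normalize f = f ∧
    f ∣ D * G 0 * G 1 * G 2 := by
  unfold fcs at h
  rw [Multiset.mem_toFinset] at h
  exact ⟨irreducible_of_normalized_factor f h, normalize_normalized_factor f h,
    dvd_of_mem_normalizedFactors h⟩

lemma fcs_cases {f : ℚ[X]} (h : f ∈ fcs D G) : f ∣ D ∨ ∃ k, f ∣ G k := by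
  obtain ⟨h1, -, h2⟩ := fcs_spec h
  rcases h1.prime.dvd_or_dvd h2 with h3 | h3
  · rcases h1.prime.dvd_or_dvd h3 with h4 | h4
    · rcases h1.prime.dvd_or_dvd h4 with h5 | h5
      · exact Or.inl h5
      · exact Or.inr ⟨0, h5⟩
    · exact Or.inr ⟨1, h4⟩
  · exact Or.inr ⟨2, h3⟩

lemma mem_fcs (hD : D ≠ 0) (hG : ∀ k, G k ≠ 0) {f : ℚ[X]} (h1 : Irreducible f)
    (h2 : normalize f = f) (h3 : f ∣ D * G 0 * G 1 * G 2) : f ∈ fcs D G := by
  unfold fcs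
  rw [Multiset.mem_toFinset]
  have hne : D * G 0 * G 1 * G 2 ≠ 0 :=
    mul_ne_zero (mul_ne_zero (mul_ne_zero hD (hG 0)) (hG 1)) (hG 2)
  obtain ⟨g, hg, hfg⟩ := exists_mem_normalizedFactors_of_dvd hne h1 h3
  have h13 : f = g := by
    rw [← h2, ← normalize_normalized_factor g hg]
    exact normalize_eq_normalize_iff_associated.2 hfg
  rwa [h13]

lemma dvd_all (k : Fin 3) : G k ∣ D * G 0 * G 1 * G 2 := by
  have h3 : k = 0 ∨ k = 1 ∨ k = 2 := by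
    revert k
    decide
  rcases h3 with rfl | rfl | rfl
  · exact ⟨D * G 1 * G 2, by ring⟩
  · exact ⟨D * G 0 * G 2, by ring⟩
  · exact ⟨D * G 0 * G 1, by ring⟩

/-- no factors: the family is constant -/
lemma const_fam (hD : D ≠ 0) (hG : ∀ k, G k ≠ 0) (h : fcs D G = ∅) (t : ℚ) :
    rkE D G t = rkE D G 0 := by
  have hne : D * G 0 * G 1 * G 2 ≠ 0 :=
    mul_ne_zero (mul_ne_zero (mul_ne_zero hD (hG 0)) (hG 1)) (hG 2)
  have h1 : IsUnit (D * G 0 * G 1 * G 2) := by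
    by_contra hcon
    obtain ⟨f, hf, hfd⟩ := WfDvdMonoid.exists_irreducible_factor hcon hne
    have h2 : normalize f ∈ fcs D G := mem_fcs hD hG
      ((normalize_associated f).symm.irreducible hf) (normalize_idem f)
      ((normalize_associated f).dvd.trans hfd)
    rw [h] at h2
    exact notMem_empty _ h2
  have hc : ∀ Q : ℚ[X], Q ∣ D * G 0 * G 1 * G 2 → Q.eval t = Q.eval 0 := by
    intro Q hQ
    have h2 := natDegree_eq_zero_of_isUnit (isUnit_of_dvd_unit hQ h1)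
    rw [eq_C_of_natDegree_eq_zero h2, eval_C, eval_C]
  unfold rkE
  rw [hc (D * G 0) ⟨G 1 * G 2, by ring⟩, hc (D * G 1) ⟨G 0 * G 2, by ring⟩]

lemma factor_ne {f : ℚ[X]} (h : f ∣ D * G 0 * G 1 * G 2) {t : ℚ}
    (ht : (D * G 0 * G 1 * G 2).eval t ≠ 0) : f.eval t ≠ 0 := by
  obtain ⟨g, hg⟩ := h
  intro h0
  apply ht
  rw [hg, eval_mul, h0, zero_mul]

lemma FF_ne {S : Finset ℚ[X]} {P : {f // f ∈ S} → ℤ[X]}
    (hP : ∀ f : {f // f ∈ S}, ∃ d : ℤ, d ≠ 0 ∧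
        (P f).map (Int.castRingHom ℚ) = C (d : ℚ) * f.1) {t : ℤ}
    (h : ∀ f ∈ S, f.eval (t : ℚ) ≠ 0) : (FF P).eval t ≠ 0 := by
  classical
  rw [eval_FF, prod_ne_zero_iff]
  intro j _ h0
  obtain ⟨d, hd, hPd⟩ := hP j
  have h1 := congrArg (fun f : ℚ[X] => f.eval (t : ℚ)) hPd
  simp only [eval_mul, eval_C] at h1
  rw [eval_intCast_map, Int.cast_id, h0, map_zero] at h1
  rcases mul_eq_zero.1 h1.symm with h2 | h2
  · exact hd (by exact_mod_cast h2)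
  · exact h j.1 j.2 h2

lemma card_Ioc_le (x : ℤ) (X : ℕ) (Q : ℤ → Prop) [DecidablePred Q] :
    (((Ioc x (x + X)).filter Q).card : ℝ) ≤ X := by
  have h1 : ((Ioc x (x + X)).filter Q).card ≤ X := by
    refine (card_filter_le _ _).trans (le_of_eq ?_)
    rw [Int.card_Ioc]
    omega
  exact_mod_cast h1

/-- **Integers in short intervals** -/
theorem gZ (hrel : G 0 - G 1 = G 2) (hD : Squarefree D) (hG : ∀ k, G k ≠ 0)
    (h01 : IsCoprime (G 0) (G 1)) (k : ℕ)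
    (hyp : (k = 1 ∧ CritT ∅ D G) ∨ (∀ l, IsUnit (G l))) (M : ℕ) :
    ∃ C : ℝ, ∀ X : ℕ, 1 ≤ X → ∀ x : ℤ, x.natAbs ≤ X ^ M →
      ∑ t ∈ (Ioc x (x + X)).filter (fun t : ℤ => (D * G 0 * G 1 * G 2).eval (t : ℚ) ≠ 0),
        ((2 : ℝ) ^ rkE D G t) ^ k ≤ C * X := by
  classical
  rcases (fcs D G).eq_empty_or_nonempty with hE | hE
  · refine ⟨((2 : ℝ) ^ rkE D G 0) ^ k, fun X _ x _ => ?_⟩
    have h1 : ∀ t ∈ (Ioc x (x + X)).filter (fun t : ℤ => (D * G 0 * G 1 * G 2).eval (t : ℚ) ≠ 0),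
        ((2 : ℝ) ^ rkE D G t) ^ k = ((2 : ℝ) ^ rkE D G 0) ^ k := fun t _ => by
      rw [const_fam hD.ne_zero hG hE]
    rw [sum_congr rfl h1, sum_const, nsmul_eq_mul, mul_comm]
    exact mul_le_mul_of_nonneg_left (card_Ioc_le x X _) (by positivity)
  · obtain ⟨P, z, C, hP, hC⟩ := gcore hrel hD hG h01 (fcs D G) hE
      (fun f hf => ⟨(fcs_spec hf).1, (fcs_spec hf).2.1⟩)
      (fun f h1 h2 h3 => mem_fcs hD.ne_zero hG h1 h2
        (((h3.mul_right _).mul_right _).mul_right _))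
      (fun l f h1 h2 h3 => mem_fcs hD.ne_zero hG h1 h2 (h3.trans (dvd_all l)))
      ∅ (fun f hf _ => fcs_cases hf) k (by
        rcases hyp with h1 | h1
        · exact Or.inl h1
        · refine Or.inr fun f hf _ => ?_
          rcases fcs_cases hf with h2 | ⟨l, h2⟩
          · exact h2
          · exact absurd (isUnit_of_dvd_unit h2 (h1 l)) (fcs_spec hf).1.not_isUnit) M 0
      (by rw [filter_false_of_mem (fun f _ => notMem_empty f), card_empty])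
      (fun X => (X : ℝ)) (fun X hX => by exact_mod_cast hX) 1 le_rfl
      (fun X y k' _ _ _ => by rw [pow_zero, div_one, one_pow, one_mul])
    refine ⟨C, fun X hX x hx => hC X hX _ ⟨x, hx, fun t ht => ?_⟩⟩
    rw [mem_filter, mem_Ioc] at ht
    refine ⟨ht.1.1, ht.1.2, FF_ne (fun f => by
      obtain ⟨d, hd, hPd, -⟩ := hP f
      exact ⟨d, hd, hPd⟩) (fun f hf => factor_ne (fcs_spec hf).2.2 ht.2), fun j hj => ?_⟩
    simp at hj

end

lemma unit_cop {a b : ℚ[X]} (h : IsUnit a) : IsCoprime a b := by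
  obtain ⟨u, rfl⟩ := h
  exact ⟨↑u⁻¹, 0, by simp⟩

/-- the twists -/
lemma twist_data {A B : ℚ} (hA : A ≠ 0) (hB : B ≠ 0) (hAB : A ≠ B) :
    (∀ l : Fin 3, IsUnit ((![C A, C B, C (A - B)] : Fin 3 → ℚ[X]) l)) ∧
      (![C A, C B, C (A - B)] : Fin 3 → ℚ[X]) 0 - (![C A, C B, C (A - B)] : Fin 3 → ℚ[X]) 1 =
        (![C A, C B, C (A - B)] : Fin 3 → ℚ[X]) 2 := by
  have h1 : ∀ c : ℚ, c ≠ 0 → IsUnit (C c : ℚ[X]) := fun c hc =>
    Polynomial.isUnit_C.2 (isUnit_iff_ne_zero.2 hc)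
  refine ⟨fun l => ?_, ?_⟩
  · have h3 : l = 0 ∨ l = 1 ∨ l = 2 := by
      revert l
      decide
    rcases h3 with rfl | rfl | rfl
    · exact h1 A hA
    · exact h1 B hB
    · exact h1 (A - B) (sub_ne_zero.2 hAB)
  · show C A - C B = C (A - B)
    rw [C_sub]

/-- the rank of a twist -/
lemma rk_twist {A B : ℚ} {D s q : ℚ[X]} (hDs : D = s * q ^ 2) {t : ℚ} (ht : D.eval t ≠ 0) :
    Module.finrank ℤ (EQ (A * D.eval t) (B * D.eval t)).toAffine.Point =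
      rkE s ![C A, C B, C (A - B)] t := by
  have hq : q.eval t ≠ 0 := by
    intro h0
    apply ht
    rw [hDs, eval_mul, eval_pow, h0]
    ring
  have h1 : A * D.eval t = (q.eval t) ^ 2 * (s * C A).eval t := by
    rw [hDs]
    simp only [eval_mul, eval_pow, eval_C]
    ring
  have h2 : B * D.eval t = (q.eval t) ^ 2 * (s * C B).eval t := by
    rw [hDs]
    simp only [eval_mul, eval_pow, eval_C]
    ring
  rw [h1, h2, rank_scaleQ _ _ hq]
  rfl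

lemma s_ne {A B : ℚ} (hA : A ≠ 0) (hB : B ≠ 0) (hAB : A ≠ B) {D s q : ℚ[X]}
    (hDs : D = s * q ^ 2) {t : ℚ} (ht : D.eval t ≠ 0) :
    (s * (![C A, C B, C (A - B)] : Fin 3 → ℚ[X]) 0 * (![C A, C B, C (A - B)] : Fin 3 → ℚ[X]) 1 *
      (![C A, C B, C (A - B)] : Fin 3 → ℚ[X]) 2).eval t ≠ 0 := by
  show (s * C A * C B * C (A - B)).eval t ≠ 0
  have hs : s.eval t ≠ 0 := by
    intro h0
    apply ht
    rw [hDs, eval_mul, h0, zero_mul]
  simp only [eval_mul, eval_C]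
  exact mul_ne_zero (mul_ne_zero (mul_ne_zero hs hA) hB) (sub_ne_zero.2 hAB)

/-- **Twists, integers in short intervals** -/
theorem twistZ (A B : ℚ) (hA : A ≠ 0) (hB : B ≠ 0) (hAB : A ≠ B) (D : ℚ[X]) (hD : D ≠ 0)
    (k M : ℕ) : ∃ C : ℝ, ∀ X : ℕ, 1 ≤ X → ∀ x : ℤ, x.natAbs ≤ X ^ M →
      ∑ t ∈ (Ioc x (x + X)).filter (fun t : ℤ => D.eval (t : ℚ) ≠ 0),
        ((2 : ℝ) ^ Module.finrank ℤ (EQ (A * D.eval (t : ℚ))
          (B * D.eval (t : ℚ))).toAffine.Point) ^ k ≤ C * X := by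
  obtain ⟨s, q, hs, hDs⟩ := exists_sqfree _ D hD le_rfl
  obtain ⟨h1, h2⟩ := twist_data hA hB hAB
  obtain ⟨K, hK⟩ := gZ (D := s) (G := ![C A, C B, C (A - B)]) h2 hs (fun l => (h1 l).ne_zero)
    (unit_cop (h1 0)) k (Or.inr h1) M
  refine ⟨K, fun X hX x hx => le_trans ?_ (hK X hX x hx)⟩
  have h3 : ∀ t ∈ (Ioc x (x + X)).filter (fun t : ℤ => D.eval (t : ℚ) ≠ 0),
      ((2 : ℝ) ^ Module.finrank ℤ (EQ (A * D.eval (t : ℚ))
          (B * D.eval (t : ℚ))).toAffine.Point) ^ k =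
      ((2 : ℝ) ^ rkE s ![C A, C B, C (A - B)] t) ^ k := by
    intro t ht
    rw [rk_twist hDs (mem_filter.1 ht).2]
  rw [sum_congr rfl h3]
  refine sum_le_sum_of_subset_of_nonneg ?_ (fun t _ _ => by positivity)
  intro t ht
  rw [mem_filter] at ht ⊢
  exact ⟨ht.1, s_ne hA hB hAB hDs ht.2⟩

end Pool.Agent.L0h5.TH
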