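import Pool.Agent.L0h5.TH.LocG2

/-!
# The local conditions with multiplicities hold for the points of the curve, third part
-/

set_option autoImplicit false
set_option linter.unusedSectionVars false

namespace Pool.Agent.L0h5.TH

open Pool.Agent.W262.RK Pool.Agent.W22.RK Pool.Agent.W342.RK2 Pool.Agent.W571.RT
open Pool.Agent.W307.RT (LocM)

section loc

variable {p : ℕ} [hp : Fact p.Prime]

/-- nonsplit multiplicative reduction, even multiplicity: the valuations are even -/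
lemma ev0 (hp2 : p ≠ 2) {A B : ℚ} (hA0 : A ≠ 0) (hB0 : B ≠ 0) {a : ℤ}
    (vA : padicValRat p A = a) (vB : padicValRat p B = 0) (ha : 0 < a) (hae : Even a)
    (hns : ¬ Sq p (-B)) {x y : ℚ} (hy : y ≠ 0)
    (hxy : y ^ 2 = x * (x - A) * (x - B)) :
    Even (padicValRat p x) ∧ Even (padicValRat p (x - A)) := by
  have hy2 : y ^ 2 ≠ 0 := pow_ne_zero 2 hy
  rw [hxy] at hy2
  have hx : x ≠ 0 := left_ne_zero_of_mul (left_ne_zero_of_mul hy2)
  have hxA : x - A ≠ 0 := right_ne_zero_of_mul (left_ne_zero_of_mul hy2)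
  have hxB : x - B ≠ 0 := right_ne_zero_of_mul hy2
  have hyy : y * y = x * (x - A) * (x - B) := by rw [← pow_two, hxy]
  have key1 : padicValRat p x < a → Sq p ((x - A) * x) := by
    intro h
    apply near hp2 hx
    right
    have e : x - A - x = -A := by ring
    rw [e, v_neg, vA]
    exact h
  have key2 : 0 < padicValRat p x → Sq p ((x - B) * -B) := by
    intro h
    apply near hp2 (neg_ne_zero.2 hB0)
    right
    have e : x - B - -B = x := by ring
    rw [e, v_neg, vB]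
    exact h
  have vxB : 0 < padicValRat p x → padicValRat p (x - B) = 0 := by
    intro h
    have := v_add (p := p) (a := -B) (b := x) (neg_ne_zero.2 hB0) hx
      (by rw [neg_add_eq_sub]; exact hxB) (by rw [v_neg, vB]; exact h)
    rw [neg_add_eq_sub, v_neg, vB] at this
    exact this
  have hsum := v_mul3 (p := p) hx hxA hxB hxy
  rcases lt_trichotomy (padicValRat p x) 0 with h | h | h
  · have h1 := key1 (by omega)
    have h2 : Sq p ((x - B) * x) := by
      apply near hp2 hx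
      right
      have e : x - B - x = -B := by ring
      rw [e, v_neg, vB]
      exact h
    have h3 : Sq p x := sqd (w := y * x) (mul_ne_zero (mul_ne_zero hxA hx) (mul_ne_zero hxB hx))
      (by linear_combination (-(x * x)) * hyy) (h1.mul h2)
    have h4 : Sq p (x - A) :=
      sqd (w := x * (x - A)) (mul_ne_zero (mul_ne_zero hxA hx) hx) (by ring) (h1.mul h3)
    exact ⟨val_sq hx h3, val_sq hxA h4⟩
  · have h1 : padicValRat p (x - A) = 0 := by
      have := v_add (p := p) (a := x) (b := -A) hx (neg_ne_zero.2 hA0)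
        (by rw [← sub_eq_add_neg]; exact hxA) (by rw [v_neg, vA, h]; exact ha)
      rw [← sub_eq_add_neg, h] at this
      exact this
    rw [h, h1]
    exact ⟨Even.zero, Even.zero⟩
  · have h2 := vxB h
    rcases lt_trichotomy (padicValRat p x) a with h3 | h3 | h3
    · exfalso
      apply hns
      have h4 : Sq p (x - B) := sqd (w := y) (mul_ne_zero hxA hx)
        (by linear_combination (-1 : ℚ) * hyy) (key1 h3)
      exact sqd (w := (x - B) * B) (mul_ne_zero (mul_ne_zero hxB (neg_ne_zero.2 hB0)) hxB)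
        (by ring) ((key2 h).mul h4)
    · rw [h3]
      refine ⟨hae, ?_⟩
      rw [h3, h2] at hsum
      obtain ⟨k, hk⟩ := hae
      exact ⟨padicValRat p y - k, by omega⟩
    · have e1 : padicValRat p (x - A) = a := by
        have := v_add (p := p) (a := -A) (b := x) (neg_ne_zero.2 hA0) hx
          (by rw [neg_add_eq_sub]; exact hxA) (by rw [v_neg, vA]; exact h3)
        rw [neg_add_eq_sub, v_neg, vA] at this
        exact this
      rw [e1]
      refine ⟨?_, hae⟩
      rw [e1, h2] at hsum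
      obtain ⟨k, hk⟩ := hae
      exact ⟨padicValRat p y - k, by omega⟩

lemma ev1 (hp2 : p ≠ 2) {A B : ℚ} (hA0 : A ≠ 0) (hB0 : B ≠ 0) {b : ℤ}
    (vA : padicValRat p A = 0) (vB : padicValRat p B = b) (hb : 0 < b) (hbe : Even b)
    (hns : ¬ Sq p (-A)) {x y : ℚ} (hy : y ≠ 0)
    (hxy : y ^ 2 = x * (x - A) * (x - B)) :
    Even (padicValRat p x) ∧ Even (padicValRat p (x - A)) := by
  have hy2 : y ^ 2 ≠ 0 := pow_ne_zero 2 hy
  rw [hxy] at hy2
  have hx : x ≠ 0 := left_ne_zero_of_mul (left_ne_zero_of_mul hy2)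
  have hxA : x - A ≠ 0 := right_ne_zero_of_mul (left_ne_zero_of_mul hy2)
  have hxB : x - B ≠ 0 := right_ne_zero_of_mul hy2
  obtain ⟨h1, h2⟩ := ev0 hp2 hB0 hA0 vB vA hb hbe hns (x := x) (y := y) hy (by rw [hxy]; ring)
  have hsum := v_mul3 (p := p) hx hxA hxB hxy
  refine ⟨h1, ?_⟩
  obtain ⟨k, hk⟩ := h1
  obtain ⟨l, hl⟩ := h2
  exact ⟨padicValRat p y - k - l, by omega⟩

lemma ev2 (hp2 : p ≠ 2) {A B : ℚ} (hA0 : A ≠ 0) {g : ℤ}
    (vA : padicValRat p A = 0) (vC : padicValRat p (A - B) = g) (hg : 0 < g) (hge : Even g)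
    (hns : ¬ Sq p A) {x y : ℚ} (hy : y ≠ 0)
    (hxy : y ^ 2 = x * (x - A) * (x - B)) :
    Even (padicValRat p x) ∧ Even (padicValRat p (x - A)) := by
  have hABn : B - A ≠ 0 := by
    intro h
    have : A - B = 0 := by linarith
    rw [this, padicValRat.zero] at vC
    omega
  obtain ⟨h1, h2⟩ := ev1 (A := -A) (B := B - A) hp2 (neg_ne_zero.2 hA0) hABn
    (by rw [v_neg]; exact vA) (by rw [← vC, ← v_neg (p := p) (A - B), neg_sub]) hg hge
    (by rw [neg_neg]; exact hns) (x := x - A) (y := y) hy (by rw [hxy]; ring)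
  have e : x - A - -A = x := by ring
  rw [e] at h2
  exact ⟨h2, h1⟩

/-- the local hypotheses -/
def LocE (c : Fin 4) (ev : Bool) (κ : Fin 3 → ℤ) (neg : Bool) (p : ℕ) (A B : ℤ) : Prop :=
  if c = 3 then ∃ (q : Fin 3) (m : ℕ) (α β γ : ℤ), ¬ (p : ℤ) ∣ α ∧ ¬ (p : ℤ) ∣ β ∧ ¬ (p : ℤ) ∣ γ ∧
    A = p ^ (1 + if q = 0 then m else 0) * α ∧ B = p ^ (1 + if q = 1 then m else 0) * β ∧
    A - B = p ^ (1 + if q = 2 then m else 0) * γ ∧
    sg0 p (κ 0) = xor neg (xor (sg0 p α) (decide (q = 0) && (decide (Odd m) && sg0 p β))) ∧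
    sg0 p (κ 1) = xor neg (xor (sg0 p β) (decide (q = 1) && (decide (Odd m) && sg0 p α))) ∧
    sg0 p (κ 2) = xor neg (xor (sg0 p γ)
      (decide (q = 2) && (decide (Odd m) && xor (sg0 p (-1)) (sg0 p α))))
  else if c = 0 then (p : ℤ) ∣ A ∧ ¬ (p : ℤ) ∣ B ∧ jacobiSym (κ 0 * (-B)) p = 1 ∧
    decide (Even (padicValInt p A)) = ev
  else if c = 1 then (p : ℤ) ∣ B ∧ ¬ (p : ℤ) ∣ A ∧ jacobiSym (κ 0 * (-A)) p = 1 ∧
    decide (Even (padicValInt p B)) = ev
  else (p : ℤ) ∣ A - B ∧ ¬ (p : ℤ) ∣ A ∧ jacobiSym (κ 0 * A) p = 1 ∧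
    decide (Even (padicValInt p (A - B))) = ev

lemma LL_congr {c : Fin 4} (hc : c ≠ 3) (κ : Fin 3 → ℤ) (neg : Bool) (v w h g : Bool) :
    LL c (fun _ => κ 0) false p v w h g ↔ LL c κ neg p v w h g := by
  have h3 : c = 0 ∨ c = 1 ∨ c = 2 := by
    revert c; decide
  unfold LL
  rcases h3 with rfl | rfl | rfl <;> simp

lemma not_sq_of {n k : ℤ} (hn : ¬ (p : ℤ) ∣ n) (hk : sg0 p k = true)
    (h : jacobiSym (k * n) p = 1) : ¬ Sq p ((n : ℤ) : ℚ) := by
  intro hs
  have h1 := jac_of_sq hn hs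
  rw [jacobiSym.mul_left, h1, mul_one] at h
  unfold sg0 at hk
  rw [decide_eq_true_iff, h] at hk
  revert hk
  decide

/-- **The local condition** -/
theorem locE (hp2 : p ≠ 2) (c : Fin 4) (ev : Bool) (κ : Fin 3 → ℤ) (neg : Bool)
    (hκ : ∀ k, ¬ (p : ℤ) ∣ κ k) {A B : ℤ} (hA0 : A ≠ 0) (hB0 : B ≠ 0) (hAB : A ≠ B)
    (hL : LocE c ev κ neg p A B) (x y : ℚ) (hy : y ≠ 0) (hxy : y ^ 2 = x * (x - A) * (x - B))
    (e1 e2 : ℤ) (he1 : Squarefree e1) (he2 : Squarefree e2)
    (hs1 : IsSquare ((x * e1 : ℚ) : ℚ_[p])) (hs2 : IsSquare (((x - A) * e2 : ℚ) : ℚ_[p])) :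
    LE c ev κ neg p (dv p e1) (dv p e2) (sgn p e1) (sgn p e2) := by
  by_cases h3 : c = 3
  · subst h3
    rw [LE_three]
    unfold LocE at hL
    rw [if_pos rfl] at hL
    obtain ⟨q, m, α, β, γ, h1, h2, h3, h4, h5, h6, h7, h8, h9⟩ := hL
    exact loc3 hp2 q κ neg hκ h1 h2 h3 h4 h5 h6 h7 h8 h9 x y hy hxy e1 e2 he1 he2 hs1 hs2
  unfold LocE at hL
  rw [if_neg h3] at hL
  have hM : (ev = false ∨ jacobiSym (κ 0) p = 1) → LocM c (κ 0) p A B := by
    intro hor
    have hor' : ∀ n : ℕ, decide (Even n) = ev → (Odd n ∨ jacobiSym (κ 0) p = 1) := by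
      intro n hn
      rcases hor with h | h
      · left
        rw [h, decide_eq_false_iff_not, Nat.not_even_iff_odd] at hn
        exact hn
      · exact Or.inr h
    unfold LocM
    split_ifs at hL ⊢ with k0 k1
    · exact ⟨hL.1, hL.2.1, hL.2.2.1, hor' _ hL.2.2.2⟩
    · exact ⟨hL.1, hL.2.1, hL.2.2.1, hor' _ hL.2.2.2⟩
    · exact ⟨hL.1, hL.2.1, hL.2.2.1, hor' _ hL.2.2.2⟩
  by_cases hn : nsE c ev κ p = true
  · rw [LE_ns hn]
    unfold nsE at hn
    simp only [Bool.and_eq_true] at hn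
    obtain ⟨hev, -, hk⟩ := hn
    have hy2 : y ^ 2 ≠ 0 := pow_ne_zero 2 hy
    rw [hxy] at hy2
    have hx : x ≠ 0 := left_ne_zero_of_mul (left_ne_zero_of_mul hy2)
    have hxA : x - A ≠ 0 := right_ne_zero_of_mul (left_ne_zero_of_mul hy2)
    have hq1 := not_sq_of_squarefree (p := p) he1
    have hq2 := not_sq_of_squarefree (p := p) he2
    have hAq : (A : ℚ) ≠ 0 := by exact_mod_cast hA0
    have hBq : (B : ℚ) ≠ 0 := by exact_mod_cast hB0
    have hpos : ∀ n : ℤ, n ≠ 0 → (p : ℤ) ∣ n → (0 : ℤ) < (padicValInt p n : ℤ) := by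
      intro n hn hd
      have := (padicValInt_dvd_iff (p := p) 1 n).1 (by simpa using hd)
      rcases this with h12 | h12
      · exact absurd h12 hn
      · exact_mod_cast h12
    have heven : ∀ n : ℕ, decide (Even n) = ev → Even ((n : ℕ) : ℤ) := by
      intro n hn
      rw [hev, decide_eq_true_iff] at hn
      exact_mod_cast hn
    have key : Even (padicValRat p x) ∧ Even (padicValRat p (x - A)) := by
      split_ifs at hL with k0 k1
      · obtain ⟨l1, l2, l3, l4⟩ := hL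
        refine ev0 hp2 hAq hBq padicValRat.of_int (v_int l2) (hpos A hA0 l1) (heven _ l4) ?_ hy hxy
        have := not_sq_of (not_dvd_neg l2) hk l3
        push_cast at this
        exact this
      · obtain ⟨l1, l2, l3, l4⟩ := hL
        refine ev1 hp2 hAq hBq (v_int l2) padicValRat.of_int (hpos B hB0 l1) (heven _ l4) ?_ hy hxy
        have := not_sq_of (not_dvd_neg l2) hk l3
        push_cast at this
        exact this
      · obtain ⟨l1, l2, l3, l4⟩ := hL
        refine ev2 hp2 hAq (g := (padicValInt p (A - B) : ℤ)) (v_int l2) ?_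
          (hpos (A - B) (sub_ne_zero.2 hAB) l1) (heven _ l4) (not_sq_of l2 hk l3) hy hxy
        have e : (A : ℚ) - B = ((A - B : ℤ) : ℚ) := by push_cast; ring
        rw [e]
        exact padicValRat.of_int
    exact ⟨(par hx hq1 hs1).1 key.1, (par hxA hq2 hs2).1 key.2⟩
  · rw [LE_or hn]
    have hor : ev = false ∨ jacobiSym (κ 0) p = 1 := by
      by_cases hev : ev = false
      · exact Or.inl hev
      · right
        have hev' : ev = true := by simpa using hev
        unfold nsE at hn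
        rw [hev'] at hn
        have hk : sg0 p (κ 0) = false := by simpa [h3] using hn
        unfold sg0 at hk
        rw [decide_eq_false_iff_not] at hk
        exact (jac_ne (hκ 0)).resolve_right hk
    rw [← LL_congr h3]
    exact locm c (κ 0) p A B h3 hp2 (hκ 0) hA0 hB0 hAB (hM hor) x y hy hxy e1 e2 he1 he2 hs1 hs2

end loc

end Pool.Agent.L0h5.TH
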