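import Pool.Agent.L0h5.TH.Core
import Pool.Agent.L0h5.TH.LocG3
import Pool.Agent.W214.RK2.Desc4

/-!
# The bound for the rank, abstract form
-/

set_option autoImplicit false
set_option linter.unusedSectionVars false

namespace Pool.Agent.L0h5.TH

open Finset Pool.Agent.W262.RK Pool.Agent.L0h5.TF

lemma badA {A B f F : ℤ} {z y X K E : ℕ} (hz2 : 2 ≤ z)
    (hF0 : F ≠ 0) (hb : F.natAbs ≤ X ^ E) (hE : 1 ≤ E) (hK : X < (y + 1) ^ K)
    (h1 : ∀ q : ℕ, q.Prime → z < q → (q : ℤ) ∣ A * B * (A - B) → (q : ℤ) ∣ F)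
    (h2 : ∀ q : ℕ, q.Prime → z < q → q ≤ y → (q : ℤ) ∣ F → (q : ℤ) ∣ f) :
    ((2 * A * B * (A - B)).natAbs.primeFactors.filter (fun q => ¬ q ∣ s1 z y f)).card ≤
      z + E * K + (s2 z y f).primeFactors.card := by
  have hsub : ((2 * A * B * (A - B)).natAbs.primeFactors.filter (fun q => ¬ q ∣ s1 z y f)) ⊆
      ((Icc 1 z) ∪ F.natAbs.primeFactors.filter (y < ·)) ∪ (s2 z y f).primeFactors := by
    intro q hq
    rw [mem_filter] at hq
    have hp := Nat.prime_of_mem_primeFactors hq.1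
    have hdv := Nat.dvd_of_mem_primeFactors hq.1
    rw [mem_union, mem_union, mem_Icc]
    rcases Nat.lt_or_ge z q with hzq | hzq
    swap
    · exact Or.inl (Or.inl ⟨hp.one_lt.le, hzq⟩)
    · have hqi : Prime (q : ℤ) := Nat.prime_iff_prime_int.1 hp
      have hdv2 : (q : ℤ) ∣ 2 * (A * B * (A - B)) := by
        have := Int.natCast_dvd.2 hdv
        have e : 2 * A * B * (A - B) = 2 * (A * B * (A - B)) := by ring
        rwa [e] at this
      have hlF : (q : ℤ) ∣ F := by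
        rcases hqi.dvd_or_dvd hdv2 with h3 | h3
        · exfalso
          have h4 : q ∣ 2 := by exact_mod_cast h3
          have h5 := Nat.le_of_dvd (by norm_num) h4
          omega
        · exact h1 q hp hzq h3
      rcases Nat.lt_or_ge y q with hyq | hyq
      · left; right
        rw [mem_filter, Nat.mem_primeFactors]
        exact ⟨⟨hp, Int.natCast_dvd.1 hlF, Int.natAbs_ne_zero.2 hF0⟩, hyq⟩
      · right
        have hPS : q ∈ PS z y := mem_PS.2 ⟨⟨hzq, hyq⟩, hp⟩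
        have hsq : (q : ℤ) ^ 2 ∣ f := by
          by_contra hcon
          exact hq.2 ((dvd_s1 hp).2 ⟨hPS, h2 q hp hzq hyq hlF, hcon⟩)
        rw [Nat.mem_primeFactors]
        refine ⟨hp, (dvd_s2 hp).2 ⟨hPS, hsq⟩, ?_⟩
        unfold s2 Pool.Agent.W307.RT.S2
        exact prod_ne_zero_iff.2 fun p hp => (mem_PS.1 (mem_filter.1 hp).1).2.ne_zero
  have hone : (F.natAbs.primeFactors.filter (y < ·)).card ≤ E * K := by
    set S := F.natAbs.primeFactors.filter (y < ·) with hS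
    have h1 : (y + 1) ^ S.card ≤ ∏ q ∈ S, q :=
      Finset.pow_card_le_prod _ _ _ (fun q hq => by
        have := (mem_filter.1 hq).2
        omega)
    have h2 : ∏ q ∈ S, q ∣ F.natAbs :=
      (prod_dvd_prod_of_subset _ _ _ (filter_subset _ _)).trans (Nat.prod_primeFactors_dvd _)
    have h3 : ∏ q ∈ S, q ≤ F.natAbs :=
      Nat.le_of_dvd (Nat.pos_of_ne_zero (Int.natAbs_ne_zero.2 hF0)) h2
    have h4 : (y + 1) ^ S.card < (y + 1) ^ (E * K) := by
      calc (y + 1) ^ S.card ≤ X ^ E := h1.trans (h3.trans hb)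
        _ < ((y + 1) ^ K) ^ E := Nat.pow_lt_pow_left hK (by omega)
        _ = (y + 1) ^ (E * K) := by rw [← pow_mul, mul_comm]
    rcases Nat.eq_zero_or_pos y with hy | hy
    · subst hy
      simp only [zero_add, one_pow] at h4
      omega
    · exact ((Nat.pow_lt_pow_iff_right (by omega)).1 h4).le
  refine (card_le_card hsub).trans ((card_union_le _ _).trans (add_le_add
    ((card_union_le _ _).trans (add_le_add ?_ hone)) le_rfl))
  simp

/-- the rank is bounded by the local count -/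
lemma rankA {A B f F : ℤ} {z y X k E : ℕ} (hz2 : 2 ≤ z) (hA : A ≠ 0) (hB : B ≠ 0) (hAB : A ≠ B)
    (hF0 : F ≠ 0) (hb : F.natAbs ≤ X ^ E) (hE : 1 ≤ E) (hk : X < (y + 1) ^ k)
    (h1 : ∀ q : ℕ, q.Prime → z < q → (q : ℤ) ∣ A * B * (A - B) → (q : ℤ) ∣ F)
    (h2 : ∀ q : ℕ, q.Prime → z < q → q ≤ y → (q : ℤ) ∣ F → (q : ℤ) ∣ f)
    (L : ℕ → Bool → Bool → Bool → Bool → Prop)
    (hXC : ∀ p : ℕ, p.Prime → z < p → (p : ℤ) ∣ f → ¬ (p : ℤ) ^ 2 ∣ f → XC (L p))
    (hloc : ∀ (p : ℕ) [Fact p.Prime], z < p → (p : ℤ) ∣ f → ¬ (p : ℤ) ^ 2 ∣ f →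
      ∀ x y : ℚ, y ≠ 0 → y ^ 2 = x * (x - A) * (x - B) →
      ∀ e1 e2 : ℤ, Squarefree e1 → Squarefree e2 → IsSquare ((x * e1 : ℚ) : ℚ_[p]) →
      IsSquare (((x - A) * e2 : ℚ) : ℚ_[p]) → L p (dv p e1) (dv p e2) (sgn p e1) (sgn p e2)) :
    (2 : ℝ) ^ Module.finrank ℤ (EAB A B).toAffine.Point ≤
      4 ^ (z + 2) * (4 ^ E) ^ k * 4 ^ (s2 z y f).primeFactors.card * (NL (s1 z y f) L : ℝ) := by
  have hmd := s1_dvd_PP z y f
  have hPSof : ∀ p : ℕ, p.Prime → p ∣ s1 z y f → p ∈ PS z y := fun p hp h =>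
    (prime_dvd_PP hp).1 (h.trans hmd)
  have hd := Pool.Agent.W214.RK2.desc4 (s1 z y f) L A B hA hB hAB
    (by
      rw [← Nat.not_even_iff_odd, even_iff_two_dvd]
      intro h
      have := (mem_PS.1 (hPSof 2 Nat.prime_two h)).1.1
      omega)
    ((PP_squarefree z y).squarefree_of_dvd hmd)
    (fun p hp hpd => by
      obtain ⟨h3, h4, h5⟩ := (dvd_s1 hp).1 hpd
      exact hXC p hp (mem_PS.1 h3).1.1 h4 h5)
    (fun p hp hpd x x' hx' hcurve e1 e2 he1 he2 hsq1 hsq2 => by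
      have hpp : p.Prime := Fact.out
      obtain ⟨h3, h4, h5⟩ := (dvd_s1 hpp).1 hpd
      exact hloc p (mem_PS.1 h3).1.1 h4 h5 x x' hx' hcurve e1 e2 he1 he2 hsq1 hsq2)
  have hc := badA (A := A) (B := B) (y := y) (f := f) hz2 hF0 hb hE hk h1 h2
  have hd2 : 2 ^ Module.finrank ℤ (EAB A B).toAffine.Point ≤
      4 ^ (z + 2) * (4 ^ E) ^ k * 4 ^ (s2 z y f).primeFactors.card * NL (s1 z y f) L := by
    refine hd.trans (Nat.mul_le_mul_right _ ?_)
    calc _ ≤ 4 ^ ((z + 2) + E * k + (s2 z y f).primeFactors.card) :=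
          Nat.pow_le_pow_right (by norm_num) (by omega)
      _ = _ := by
          rw [pow_add, pow_add, pow_mul]
  exact_mod_cast hd2

end Pool.Agent.L0h5.TH
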