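import Pool.Agent.L0h5.TH.Sv
import Pool.Agent.L0h5.TF.Crt
import Pool.Agent.L0h5.TF.Cnt

/-!
# The Chinese remainder theorem and the sieve, uniform in the conditions
-/

set_option autoImplicit false
set_option linter.unusedSectionVars false

namespace Pool.Agent.L0h5.TH

open Finset Pool.Agent.W262.RK Pool.Agent.L0h5.TF

/-- the residue -/
def rs (t : ℤ) (n : ℕ) : ℕ := (t % (n : ℤ)).toNat

lemma rs_dvd (t : ℤ) {n : ℕ} (hn : n ≠ 0) : (n : ℤ) ∣ t - (rs t n : ℤ) := by
  unfold rs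
  have h1 : (0 : ℤ) ≤ t % (n : ℤ) := Int.emod_nonneg _ (by exact_mod_cast hn)
  rw [Int.toNat_of_nonneg h1]
  exact Int.dvd_self_sub_emod

lemma rs_lt (t : ℤ) {n : ℕ} (hn : n ≠ 0) : rs t n < n := by
  unfold rs
  have h1 : t % (n : ℤ) < n := Int.emod_lt_of_pos _ (by
    have := Nat.pos_of_ne_zero hn
    exact_mod_cast this)
  have h2 : (0 : ℤ) ≤ t % (n : ℤ) := Int.emod_nonneg _ (by exact_mod_cast hn)
  omega

lemma rs_mod (t : ℤ) {n m : ℕ} (hn : n ≠ 0) (hm : m ∣ n) : rs t n % m = rs t m := by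
  have hm0 : m ≠ 0 := by
    rintro rfl
    exact hn (Nat.eq_zero_of_zero_dvd hm)
  have h1 := rs_dvd t hn
  have h2 := rs_dvd t hm0
  have h3 : (m : ℤ) ∣ (rs t n : ℤ) - (rs t m : ℤ) := by
    have e : (rs t n : ℤ) - (rs t m : ℤ) = (t - rs t m) - (t - rs t n) := by ring
    rw [e]
    exact dvd_sub h2 ((Int.natCast_dvd_natCast.2 hm).trans h1)
  have h4 : rs t m ≡ rs t n [MOD m] := (Nat.modEq_iff_dvd).2 h3
  have h5 : rs t m % m = rs t n % m := h4
  rw [← h5, Nat.mod_eq_of_lt (rs_lt t hm0)]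

section

variable {Q : ℕ → ℤ → Prop} {z y X c N : ℕ} {x : ℤ} {C : ℝ}

/-- the conclusion of the sieve -/
def SvQ (Q : ℕ → ℤ → Prop) (z y X c N : ℕ) (x : ℤ) (C : ℝ) : Prop :=
  ∀ (r : ℤ) (m : ℕ), 1 ≤ m → m ^ 4 ≤ X → ∀ T' : Finset ℤ, (∀ t ∈ T', x < t ∧ t ≤ x + X ∧
    (m : ℤ) ∣ t - r ∧ ∀ p ∈ PS z y, ¬ p ∣ m → ¬ Q p t) →
    (T'.card : ℝ) ≤
      C * (X / m) * (∏ p ∈ m.primeFactors.filter (fun p => p ∈ PS z y),
        (p : ℝ) / ((p : ℝ) - c)) / (Real.log y) ^ N

theorem crtU (hsv : SvQ Q z y X c N x C)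
    (hC : 0 ≤ C) (hzc : c ≤ z)
    (S : Finset ℕ) (hS : ∀ p ∈ S, p.Prime) (e : ℕ → ℕ) (he : ∀ p ∈ S, e p ≠ 0)
    (W : ℕ → Finset ℕ) (a : ℕ → ℝ) (hW : ∀ p ∈ S, ((W p).card : ℝ) ≤ (p : ℝ) ^ e p * a p)
    (hq : (∏ p ∈ S, p ^ e p) ^ 4 ≤ X) (T : Finset ℤ)
    (hT : ∀ t ∈ T, x < t ∧ t ≤ x + X ∧ (∀ p ∈ S, rs t (p ^ e p) ∈ W p) ∧
      ∀ p ∈ PS z y, p ∉ S → ¬ Q p t) :
    (T.card : ℝ) ≤ C * X * (∏ p ∈ S, a p) * (∏ p ∈ S.filter (fun p => p ∈ PS z y),
        (p : ℝ) / ((p : ℝ) - c)) / (Real.log y) ^ N := by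
  classical
  set q := ∏ p ∈ S, p ^ e p with hqd
  have hq0 : q ≠ 0 := by
    rw [hqd, prod_ne_zero_iff]
    intro p hp
    exact pow_ne_zero _ (hS p hp).ne_zero
  have hqpf : q.primeFactors = S := by
    rw [hqd]
    ext p
    rw [Nat.mem_primeFactors]
    constructor
    · rintro ⟨hp, hd, -⟩
      obtain ⟨r, hr, hpr⟩ := (hp.prime.dvd_finsetProd_iff _).1 hd
      have h1 := hp.dvd_of_dvd_pow hpr
      rwa [(Nat.prime_dvd_prime_iff_eq hp (hS r hr)).1 h1]
    · intro hp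
      exact ⟨hS p hp, (dvd_pow_self p (he p hp)).trans (dvd_prod_of_mem _ hp), hq0⟩
  set A := (range q).filter (fun x => ∀ p ∈ S, x % p ^ e p ∈ W p) with hA
  have hmap : ∀ t ∈ T, rs t q ∈ A := by
    intro t ht
    rw [hA, mem_filter, mem_range]
    refine ⟨rs_lt t hq0, fun p hp => ?_⟩
    have h1 : p ^ e p ∣ q := dvd_prod_of_mem (fun p => p ^ e p) hp
    rw [rs_mod t hq0 h1]
    exact (hT t ht).2.2.1 p hp
  have hfib : ∀ r ∈ A, ((T.filter (fun t => rs t q = r)).card : ℝ) ≤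
      C * (X / (q : ℝ)) * (∏ p ∈ S.filter (fun p => p ∈ PS z y),
        (p : ℝ) / ((p : ℝ) - c)) / (Real.log y) ^ N := by
    intro r hr
    have h1 := hsv r q (Nat.pos_of_ne_zero hq0) hq (T.filter (fun t => rs t q = r)) (by
      intro t ht
      rw [mem_filter] at ht
      obtain ⟨h3, h4, h5, h6⟩ := hT t ht.1
      refine ⟨h3, h4, ?_, fun p hp hpq => h6 p hp fun hpS => hpq ?_⟩
      · rw [← ht.2]
        exact rs_dvd t hq0
      · exact (dvd_pow_self p (he p hpS)).trans (dvd_prod_of_mem (fun p => p ^ e p) hpS))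
    rwa [hqpf] at h1
  have hD : 0 ≤ ∏ p ∈ S.filter (fun p => p ∈ PS z y), (p : ℝ) / ((p : ℝ) - c) := by
    refine prod_nonneg fun p hp => ?_
    have h1 := (mem_PS.1 (mem_filter.1 hp).2).1.1
    have h2 : (c : ℝ) ≤ p := by exact_mod_cast (by omega : c ≤ p)
    exact div_nonneg (Nat.cast_nonneg _) (by linarith)
  have hlog : 0 ≤ (Real.log y) ^ N := pow_nonneg (Real.log_natCast_nonneg y) _
  have hnn : 0 ≤ C * (X / (q : ℝ)) * (∏ p ∈ S.filter (fun p => p ∈ PS z y),
        (p : ℝ) / ((p : ℝ) - c)) / (Real.log y) ^ N := by positivity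
  have h1 : (T.card : ℝ) = ∑ r ∈ A, ((T.filter (fun t => rs t q = r)).card : ℝ) := by
    rw [card_eq_sum_card_fiberwise hmap]
    push_cast
    rfl
  rw [h1]
  refine (sum_le_sum hfib).trans ?_
  rw [sum_const, nsmul_eq_mul]
  have h2 := card_crt S hS e W
  rw [← hqd, ← hA] at h2
  have h3 : (A.card : ℝ) ≤ (q : ℝ) * ∏ p ∈ S, a p := by
    have h4 : (A.card : ℝ) ≤ ∏ p ∈ S, ((W p).card : ℝ) := by exact_mod_cast h2
    refine h4.trans ((prod_le_prod (fun _ _ => Nat.cast_nonneg _) hW).trans (le_of_eq ?_))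
    rw [prod_mul_distrib, hqd]
    push_cast
    rfl
  refine (mul_le_mul_of_nonneg_right h3 hnn).trans (le_of_eq ?_)
  have hqr : (q : ℝ) ≠ 0 := by exact_mod_cast hq0
  field_simp

/-- the count with given divisors -/
theorem cnt1 (hsv : SvQ Q z y X c N x C) (hC : 0 ≤ C) (hzc : 2 * c + 2 ≤ z) {Y s v u : ℕ}
    (hs : s ∈ (PP z y).divisors) (hv : v ∈ (PP z y).divisors) (hu : u ∈ (PP y Y).divisors)
    (hsvu : (s * v * u) ^ 8 ≤ X) (hcop : s.Coprime v) (W : ℕ → Finset ℕ)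
    (hWs : ∀ p ∈ s.primeFactors, ((W p).card : ℝ) ≤ p / 2)
    (hWv : ∀ p ∈ v.primeFactors, (W p).card ≤ c) (hWu : ∀ p ∈ u.primeFactors, (W p).card ≤ c)
    (T : Finset ℤ)
    (hT : ∀ t ∈ T, x < t ∧ t ≤ x + X ∧ (∀ p ∈ s.primeFactors, rs t (p ^ 2) ∈ W p) ∧
      (∀ p ∈ v.primeFactors, rs t (p ^ 2) ∈ W p) ∧ (∀ p ∈ u.primeFactors, rs t p ∈ W p) ∧
      ∀ p ∈ PS z y, p ∉ s.primeFactors → p ∉ v.primeFactors → ¬ Q p t) :
    (T.card : ℝ) ≤ C * X * ((1 / 2) ^ s.primeFactors.card * gw 1 c s) *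
      ((c : ℝ) ^ v.primeFactors.card * (gw 1 c v / v)) *
      ((c : ℝ) ^ u.primeFactors.card / u) / (Real.log y) ^ N := by
  have hs0 : s ≠ 0 := dv_ne_zero hs
  have hv0 : v ≠ 0 := dv_ne_zero hv
  have hu0 : u ≠ 0 := dv_ne_zero hu
  have hsz : ∀ p ∈ s.primeFactors, (z < p ∧ p ≤ y) ∧ p.Prime := fun p hp =>
    ⟨dv_prime hs (Nat.prime_of_mem_primeFactors hp) (Nat.dvd_of_mem_primeFactors hp),
      Nat.prime_of_mem_primeFactors hp⟩
  have hvz : ∀ p ∈ v.primeFactors, (z < p ∧ p ≤ y) ∧ p.Prime := fun p hp =>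
    ⟨dv_prime hv (Nat.prime_of_mem_primeFactors hp) (Nat.dvd_of_mem_primeFactors hp),
      Nat.prime_of_mem_primeFactors hp⟩
  have huz : ∀ p ∈ u.primeFactors, (y < p ∧ p ≤ Y) ∧ p.Prime := fun p hp =>
    ⟨dv_prime hu (Nat.prime_of_mem_primeFactors hp) (Nat.dvd_of_mem_primeFactors hp),
      Nat.prime_of_mem_primeFactors hp⟩
  have dsv : Disjoint s.primeFactors v.primeFactors := hcop.disjoint_primeFactors
  have dsvu : Disjoint (s.primeFactors ∪ v.primeFactors) u.primeFactors := by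
    rw [disjoint_left]
    intro p hp hp'
    have h1 := (huz p hp').1.1
    rcases mem_union.1 hp with h2 | h2
    · have := (hsz p h2).1.2
      omega
    · have := (hvz p h2).1.2
      omega
  set S := (s.primeFactors ∪ v.primeFactors) ∪ u.primeFactors with hS
  have hSp : ∀ p ∈ S, p.Prime := by
    intro p hp
    rcases mem_union.1 hp with h1 | h1
    · rcases mem_union.1 h1 with h2 | h2
      · exact (hsz p h2).2
      · exact (hvz p h2).2
    · exact (huz p h1).2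
  set e : ℕ → ℕ := fun p => if p ∈ u.primeFactors then 1 else 2 with he
  set a : ℕ → ℝ := fun p => if p ∈ u.primeFactors then (c : ℝ) / p
    else if p ∈ v.primeFactors then (c : ℝ) / (p : ℝ) ^ 2 else 1 / (2 * p) with ha
  have es : ∀ p ∈ s.primeFactors, p ∉ u.primeFactors ∧ p ∉ v.primeFactors := fun p hp =>
    ⟨fun h => (disjoint_left.1 dsvu (mem_union_left _ hp)) h,
      fun h => (disjoint_left.1 dsv hp) h⟩
  have ev : ∀ p ∈ v.primeFactors, p ∉ u.primeFactors := fun p hp h =>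
    (disjoint_left.1 dsvu (mem_union_right _ hp)) h
  have splitN : ∀ F : ℕ → ℕ, ∏ p ∈ S, F p =
      (∏ p ∈ s.primeFactors, F p) * (∏ p ∈ v.primeFactors, F p) * ∏ p ∈ u.primeFactors, F p := by
    intro F
    rw [hS, prod_union dsvu, prod_union dsv]
  have splitR : ∀ F : ℕ → ℝ, ∏ p ∈ S, F p =
      (∏ p ∈ s.primeFactors, F p) * (∏ p ∈ v.primeFactors, F p) * ∏ p ∈ u.primeFactors, F p := by
    intro F
    rw [hS, prod_union dsvu, prod_union dsv]
  have prs : ∏ p ∈ s.primeFactors, p = s := Nat.prod_primeFactors_of_squarefree (dv_squarefree hs)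
  have prv : ∏ p ∈ v.primeFactors, p = v := Nat.prod_primeFactors_of_squarefree (dv_squarefree hv)
  have pru : ∏ p ∈ u.primeFactors, p = u := Nat.prod_primeFactors_of_squarefree (dv_squarefree hu)
  have hq : ∏ p ∈ S, p ^ e p = s ^ 2 * v ^ 2 * u := by
    rw [splitN]
    congr 1
    · congr 1
      · rw [← prs, ← prod_pow]
        rw [prs]
        refine prod_congr rfl fun p hp => ?_
        rw [he]
        simp only [(es p hp).1, if_false]
      · rw [← prv, ← prod_pow]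
        rw [prv]
        refine prod_congr rfl fun p hp => ?_
        rw [he]
        simp only [ev p hp, if_false]
    · conv_rhs => rw [← pru]
      refine prod_congr rfl fun p hp => ?_
      rw [he]
      simp only [hp, if_true, pow_one]
  have hqX : (∏ p ∈ S, p ^ e p) ^ 4 ≤ X := by
    rw [hq]
    refine le_trans ?_ hsvu
    have h1 : (s ^ 2 * v ^ 2 * u) ≤ (s * v * u) ^ 2 := by
      have h2 : u ≤ u ^ 2 := Nat.le_self_pow two_ne_zero u
      calc s ^ 2 * v ^ 2 * u ≤ s ^ 2 * v ^ 2 * u ^ 2 := Nat.mul_le_mul_left _ h2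
        _ = _ := by ring
    calc (s ^ 2 * v ^ 2 * u) ^ 4 ≤ ((s * v * u) ^ 2) ^ 4 := Nat.pow_le_pow_left h1 4
      _ = _ := by rw [← pow_mul]
  have hppos : ∀ p ∈ S, (0 : ℝ) < p := fun p hp => by exact_mod_cast (hSp p hp).pos
  have hmain := crtU hsv hC (by omega) S hSp e (fun p _ => by
      rw [he]
      simp only
      split_ifs <;> norm_num) W a (fun p hp => by
      have hp0 := hppos p hp
      rw [he, ha]
      simp only
      by_cases h1 : p ∈ u.primeFactors
      · rw [if_pos h1, if_pos h1, pow_one, mul_div_cancel₀ _ hp0.ne']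
        exact_mod_cast hWu p h1
      · rw [if_neg h1, if_neg h1]
        by_cases h2 : p ∈ v.primeFactors
        · rw [if_pos h2, mul_div_cancel₀ _ (pow_pos hp0 2).ne']
          exact_mod_cast hWv p h2
        · rw [if_neg h2]
          have h3 : p ∈ s.primeFactors := by
            rcases mem_union.1 hp with h4 | h4
            · rcases mem_union.1 h4 with h5 | h5
              · exact h5
              · exact absurd h5 h2
            · exact absurd h4 h1
          refine (hWs p h3).trans (le_of_eq ?_)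
          field_simp) hqX T (fun t ht => by
      obtain ⟨h1, h2, h3, h4, h5, h6⟩ := hT t ht
      refine ⟨h1, h2, fun p hp => ?_, fun p hp hpS => h6 p hp (fun h => hpS
        (mem_union_left _ (mem_union_left _ h))) (fun h => hpS
        (mem_union_left _ (mem_union_right _ h)))⟩
      rw [he]
      simp only
      rcases mem_union.1 hp with hp1 | hp1
      · rcases mem_union.1 hp1 with hp2 | hp2
        · rw [if_neg (es p hp2).1]
          exact h3 p hp2
        · rw [if_neg (ev p hp2)]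
          exact h4 p hp2
      · rw [if_pos hp1, pow_one]
        exact h5 p hp1)
  have hSf : S.filter (fun p => p ∈ PS z y) = s.primeFactors ∪ v.primeFactors := by
    ext p
    rw [mem_filter, hS, mem_union]
    constructor
    · rintro ⟨h1 | h1, h2⟩
      · exact h1
      · have h3 := (huz p h1).1.1
        have h4 := (mem_PS.1 h2).1.2
        omega
    · intro h1
      refine ⟨Or.inl h1, ?_⟩
      rcases mem_union.1 h1 with h2 | h2
      · exact mem_PS.2 (hsz p h2)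
      · exact mem_PS.2 (hvz p h2)
  refine hmain.trans (le_of_eq ?_)
  rw [hSf, prod_union dsv, splitR]
  have hpc : ∀ p : ℕ, z < p → (p : ℝ) - c ≠ 0 := by
    intro p hp
    have h1 : (c : ℝ) + 1 ≤ p := by exact_mod_cast (by omega : c + 1 ≤ p)
    have : (0 : ℝ) < (p : ℝ) - c := by linarith
    exact this.ne'
  have g1 : (∏ p ∈ s.primeFactors, a p) * ∏ p ∈ s.primeFactors, ((p : ℝ) / ((p : ℝ) - c)) =
      (1 / 2) ^ s.primeFactors.card * gw 1 c s := by
    rw [← prod_mul_distrib, ← prod_const]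
    unfold gw
    rw [← prod_mul_distrib]
    refine prod_congr rfl fun p hp => ?_
    have hp0 := hppos p (mem_union_left _ (mem_union_left _ hp))
    have h1 := hpc p (hsz p hp).1.1
    rw [ha]
    simp only [(es p hp).1, (es p hp).2, if_false]
    field_simp
  have g2 : (∏ p ∈ v.primeFactors, a p) * ∏ p ∈ v.primeFactors, ((p : ℝ) / ((p : ℝ) - c)) =
      (c : ℝ) ^ v.primeFactors.card * (gw 1 c v / v) := by
    have h0 : (v : ℝ) = ∏ p ∈ v.primeFactors, (p : ℝ) := by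
      rw [← Nat.cast_prod, prv]
    conv_rhs => rw [h0]
    unfold gw
    rw [← prod_mul_distrib, ← prod_const, ← prod_div_distrib, ← prod_mul_distrib]
    refine prod_congr rfl fun p hp => ?_
    have hp0 := hppos p (mem_union_left _ (mem_union_right _ hp))
    have h1 := hpc p (hvz p hp).1.1
    rw [ha]
    simp only [ev p hp, hp, if_false, if_true]
    field_simp
  have g3 : ∏ p ∈ u.primeFactors, a p = (c : ℝ) ^ u.primeFactors.card / u := by
    have h0 : (u : ℝ) = ∏ p ∈ u.primeFactors, (p : ℝ) := by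
      rw [← Nat.cast_prod, pru]
    conv_rhs => rw [h0]
    rw [← prod_const, ← prod_div_distrib]
    refine prod_congr rfl fun p hp => ?_
    rw [ha]
    simp only [hp, if_true]
  rw [← g1, ← g2, ← g3]
  ring

end

end Pool.Agent.L0h5.TH
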