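import Pool.Agent.L0h5.TH.Avg2

/-!
# The refined average for one copy: the bound
-/

set_option autoImplicit false
set_option linter.unusedSectionVars false

namespace Pool.Agent.L0h5.TH

open Finset Pool.Agent.W262.RK Pool.Agent.L0h5.TF Pool.Agent.L0h5.AG Pool.Agent.L0h5.AH

lemma Al_two : ∀ q q' : Fin 4, q ≠ 3 → q' ≠ 3 → q ≠ q' →
    ∀ b : (Bool × Bool) × (Bool × Bool), Al q b.1 b.2 = true → Al q' b.1 b.2 = true →
      b = (oo, oo) := by
  decide

lemma det : ∀ q : Fin 4, q ≠ 3 → ∀ b : (Bool × Bool) × (Bool × Bool), lk b b = false →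
    Al q b.1 b.2 ≠ true → lk (oo, (ec q).swap) b ≠ lk b (oo, (ec q).swap) ∨
      lk (ec q, oo) b ≠ lk b (ec q, oo) := by
  decide

lemma Al_xs : ∀ q : Fin 4, q ≠ 3 → Al q oo (ec q).swap = true ∧ Al q (ec q) oo = true := by
  decide

lemma kc_le (q c : Fin 4) (ev sp : Bool) (h3 : c ≠ 3) (hq : c ≠ q) :
    kc q c ev sp ≤ 3 / 4 := by
  unfold kc
  rw [if_neg h3, if_neg hq]
  have := (th_pos sp).1
  split_ifs <;> linarith

lemma wE_oo (c : Fin 4) (ev sp : Bool) : wE c ev sp (oo, oo) ≤ 3 / 4 := by
  unfold wE
  split_ifs <;> norm_num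

lemma wE_pos {c : Fin 4} (ev sp : Bool) {b : (Bool × Bool) × (Bool × Bool)}
    (h : c = 3 ∨ Al c b.1 b.2 = true) : 0 < wE c ev sp b := by
  unfold wE
  by_cases h3 : c = 3
  · rw [if_pos h3]
    norm_num
  · rw [if_neg h3, if_pos (h.resolve_left h3)]
    split_ifs <;> norm_num

section

variable {J : Type} [Fintype J]

/-- **The refined average** -/
theorem avg2 [Nonempty J] (cls : J → Fin 4) (ev sp : J → Bool) (c B0 : ℕ)
    (hcrit : ∀ q : Fin 4, q ≠ 3 → ∑ j, kc q (cls j) (ev j) (sp j) ≤ Fintype.card J) :
    ∃ z0 : ℕ, ∀ z, z0 ≤ z → ∀ (kap : J → ℕ → Fin 3 → ℤ) (R : J → ℕ → Finset ℕ) (Cj : ℝ),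
      (∀ p : ℕ, p.Prime → z < p → ∑ j, (R j p).card ≤ B0) →
      (∀ (j : J) (y : ℕ), z < y → |∑ p ∈ PS z y, ((R j p).card : ℝ) / ((p : ℝ) - c) -
        Real.log (Real.log y)| ≤ Cj) →
      (∀ j : J, cls j ≠ 3 → ∀ y : ℕ, z < y →
        |∑ p ∈ PS z y, ((Rz kap R j p).card : ℝ) / ((p : ℝ) - c) -
        th (sp j) * Real.log (Real.log y)| ≤ Cj) →
      ∃ C : ℝ, ∀ y, z < y →
      ∑ s ∈ (PP z y).divisors, Gs (lamE (k := 1) cls ev kap R) s * gw 1 c s ≤
        C * (Real.log y) ^ (Fintype.card J) := by
  classical
  set B : ℕ := 2 * B0 + 2 with hBdef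
  have hB : 0 < B := by omega
  have hBr : (0 : ℝ) < B := by exact_mod_cast hB
  set N : ℝ := (Fintype.card J : ℝ) with hN
  have hN1 : 1 ≤ N := by
    rw [hN]
    exact_mod_cast Fintype.card_pos
  set W : (Bool × Bool) × (Bool × Bool) → ℝ := fun b => ∑ j, wE (cls j) (ev j) (sp j) b with hW
  have hW0 : ∀ b, 0 ≤ W b := fun b => sum_nonneg fun j _ => wE_nonneg _ _ _ _
  set e : Ix 1 B → ℝ := fun i => W (bits i.1) / B with he
  have he0 : ∀ i, 0 ≤ e i := fun i => div_nonneg (hW0 _) hBr.le
  set Sg : Finset (Finset (Ix 1 B)) := ((univ : Finset (Fin 4)).filter (· ≠ 3)).image (SqJ B)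
    with hSg
  have hSgm : ∀ S ∈ Sg, ∃ q : Fin 4, q ≠ 3 ∧ S = SqJ B q := by
    intro S hS
    obtain ⟨q, hq, rfl⟩ := mem_image.1 hS
    exact ⟨q, (mem_filter.1 hq).2, rfl⟩
  have hfib : ∀ U : Finset (Ix 1 B), ∑ i ∈ U, e i ≤ ∑ l ∈ U.image Prod.fst, W (bits l) := by
    intro U
    have h2 : ∑ i ∈ U, e i = ∑ l ∈ U.image Prod.fst, ∑ i ∈ U.filter (fun i => i.1 = l), e i :=
      (sum_fiberwise_of_maps_to (fun i hi => mem_image_of_mem _ hi) _).symm
    rw [h2]
    refine sum_le_sum fun l _ => ?_
    have h3 : ∀ i ∈ U.filter (fun i => i.1 = l), e i = W (bits l) / B := by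
      intro i hi
      rw [he, ← (mem_filter.1 hi).2]
    rw [sum_congr rfl h3, sum_const, nsmul_eq_mul]
    have h4 : (U.filter (fun i => i.1 = l)).card ≤ B := by
      have h5 : (U.filter (fun i => i.1 = l)).card ≤ (univ : Finset (Fin B)).card := by
        apply card_le_card_of_injOn Prod.snd (fun i _ => mem_univ _)
        intro i hi i' hi' hii
        have h6 := (mem_filter.1 (mem_coe.1 hi)).2
        have h7 := (mem_filter.1 (mem_coe.1 hi')).2
        exact Prod.ext (h6.trans h7.symm) hii
      rwa [card_univ, Fintype.card_fin] at h5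
    have h6 : ((U.filter (fun i => i.1 = l)).card : ℝ) ≤ B := by exact_mod_cast h4
    calc ((U.filter (fun i => i.1 = l)).card : ℝ) * (W (bits l) / B) ≤ B * (W (bits l) / B) :=
          mul_le_mul_of_nonneg_right h6 (div_nonneg (hW0 _) hBr.le)
      _ = _ := by field_simp
  obtain ⟨z0, hz0⟩ := ag2z (Ix 1 B) e (Lk (k := 1) (B := B)) c N (1 / 4) (2 * B0 + 1)
    (by norm_num) (by
      have : (0 : ℝ) ≤ B0 := Nat.cast_nonneg _
      linarith) (by linarith) Sg he0
    (fun i => by rw [Lk_bits]; exact lk_self _)
    (fun U hU => by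
      by_cases hS : ∀ q : Fin 4, q ≠ 3 → ∃ i ∈ U, Al q (bits i.1).1 (bits i.1).2 ≠ true
      · left
        refine (hfib U).trans ?_
        rw [hW, sum_comm]
        have h1 : ∀ j, ∑ l ∈ U.image Prod.fst, wE (cls j) (ev j) (sp j) (bits l) ≤ 1 := by
          intro j
          refine comb_E _ ?_ ?_ _ _ _
          · intro l hl l' hl'
            obtain ⟨i, hi, rfl⟩ := mem_image.1 hl
            obtain ⟨i', hi', rfl⟩ := mem_image.1 hl'
            exact hU i hi i' hi'
          · intro q hq
            obtain ⟨i, hi, hA⟩ := hS q hq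
            exact ⟨i.1, mem_image_of_mem _ hi, hA⟩
        refine (sum_le_sum fun j _ => h1 j).trans (le_of_eq ?_)
        rw [sum_const, card_univ, nsmul_eq_mul, mul_one]
      · right
        push Not at hS
        obtain ⟨q, hq, hA⟩ := hS
        exact ⟨SqJ B q, mem_image_of_mem _ (mem_filter.2 ⟨mem_univ _, hq⟩), fun i hi =>
          mem_Sq.2 (hA i hi)⟩)
    (fun S hS i hi j hj => by
      obtain ⟨q, hq, rfl⟩ := hSgm S hS
      rw [Lk_bits]
      exact lk_Al q hq _ _ (mem_Sq.1 hi) (mem_Sq.1 hj))
    (fun S hS S' hS' hne => by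
      obtain ⟨q, hq, rfl⟩ := hSgm S hS
      obtain ⟨q', hq', rfl⟩ := hSgm S' hS'
      have hqq : q ≠ q' := fun h => hne (by rw [h])
      have hoo : ∀ i ∈ SqJ B q ∩ SqJ B q', bits i.1 = (oo, oo) := by
        intro i hi
        rw [mem_inter, mem_Sq, mem_Sq] at hi
        exact Al_two q q' hq hq' hqq _ hi.1 hi.2
      refine lt_of_le_of_lt (hfib _) ?_
      have h1 : ((SqJ B q ∩ SqJ B q').image Prod.fst).card ≤ 1 := by
        rw [card_le_one]
        intro l hl l' hl'
        obtain ⟨i, hi, rfl⟩ := mem_image.1 hl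
        obtain ⟨i', hi', rfl⟩ := mem_image.1 hl'
        exact bits_inj ((hoo i hi).trans (hoo i' hi').symm)
      have h2 : ∑ l ∈ (SqJ B q ∩ SqJ B q').image Prod.fst, W (bits l) ≤ W (oo, oo) := by
        have h3 : ∀ l ∈ (SqJ B q ∩ SqJ B q').image Prod.fst, W (bits l) = W (oo, oo) := by
          intro l hl
          obtain ⟨i, hi, rfl⟩ := mem_image.1 hl
          rw [hoo i hi]
        rw [sum_congr rfl h3, sum_const, nsmul_eq_mul]
        have h4 : (((SqJ B q ∩ SqJ B q').image Prod.fst).card : ℝ) ≤ 1 := by exact_mod_cast h1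
        calc _ ≤ 1 * W (oo, oo) := mul_le_mul_of_nonneg_right h4 (hW0 _)
          _ = _ := one_mul _
      have h3 : W (oo, oo) ≤ N * (3 / 4) := by
        refine (sum_le_sum fun j _ => wE_oo (cls j) (ev j) (sp j)).trans (le_of_eq ?_)
        rw [sum_const, card_univ, nsmul_eq_mul]
      linarith)
  refine ⟨z0 + 2 * c + 3, fun z hz kap R Cj hR0 H1 H2 => ?_⟩
  have hpc : ∀ p : ℕ, z < p → (0 : ℝ) < (p : ℝ) - c := by
    intro p hp
    have : (2 * c + 3 : ℝ) ≤ p := by exact_mod_cast (by omega : 2 * c + 3 ≤ p)
    have hc0 : (0 : ℝ) ≤ c := Nat.cast_nonneg c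
    linarith
  have hpc2 : ∀ p : ℕ, z < p → 1 / ((p : ℝ) - c) ≤ 2 / p := by
    intro p hp
    have h1 : (2 * c + 3 : ℝ) ≤ p := by exact_mod_cast (by omega : 2 * c + 3 ≤ p)
    have h2 := hpc p hp
    have hc0 : (0 : ℝ) ≤ c := Nat.cast_nonneg c
    have h3 : (0 : ℝ) < p := by linarith
    rw [div_le_div_iff₀ h2 h3]
    linarith
  have hR0' : ∀ p : ℕ, p.Prime → z < p → ∑ j, ((R j p).card : ℝ) ≤ B0 := by
    intro p hp hzp
    exact_mod_cast hR0 p hp hzp
  have hCj : 0 ≤ Cj := (abs_nonneg _).trans (H1 (Classical.arbitrary J) (z + 1) (by omega))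
  have hll : ∀ y : ℕ, z < y → 0 ≤ Real.log (Real.log y) := by
    intro y hy
    have h1 : (3 : ℝ) ≤ y := by exact_mod_cast (by omega : 3 ≤ y)
    apply Real.log_nonneg
    rw [Real.le_log_iff_exp_le (by linarith)]
    have := Real.exp_one_lt_d9
    linarith
  obtain ⟨C, hC⟩ := hz0 z (by omega) (wt (B := B) (bE (k := 1) cls ev kap R) c)
    (Fintype.card J * (2 * 1 * Cj))
    (fun i hi p _ _ => by
      have h1 : W (bits i.1) = 0 := by
        have h2 : W (bits i.1) / B = 0 := hi
        rcases div_eq_zero_iff.1 h2 with h3 | h3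
        · exact h3
        · exact absurd h3 hBr.ne'
      have h2 := (sum_eq_zero_iff_of_nonneg fun j _ => wE_nonneg _ _ _ _).1 h1
      unfold wt
      rw [bE_bits, sum_eq_zero, zero_div]
      intro j _
      refine sum_eq_zero fun r _ => ?_
      have h3 := h2 j (mem_univ j)
      have h4 : ¬ (cls j = 3 ∨ Al (cls j) (bits i.1).1 (bits i.1).2 = true) := by
        intro h5
        exact (wE_pos (ev j) (sp j) h5).ne' h3
      push Not at h4
      exact bo_zero h4.1 _ _ _ h4.2)
    (fun i p hp hpz => by
      unfold wt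
      rw [abs_div, abs_of_pos (mul_pos hBr (hpc p hpz)), div_mul_eq_div_div]
      refine div_le_div_of_nonneg_right ?_ (hpc p hpz).le
      rw [div_le_iff₀ hBr, bE_bits]
      refine (abs_sum_le_sum_abs _ _).trans ?_
      have h1 : ∀ j ∈ (univ : Finset J), |∑ r ∈ R j p, bo (cls j) (ev j) (kap j r) p
          (bits i.1).1 (bits i.1).2| ≤ ((R j p).card : ℝ) := by
        intro j _
        refine (abs_sum_le_sum_abs _ _).trans ?_
        refine (sum_le_sum fun r _ => (abs_bo_le (cls j) (ev j) (kap j r) p (bits i.1)).trans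
          (fw_le _ _ _ _)).trans (le_of_eq ?_)
        rw [sum_const, nsmul_eq_mul, mul_one]
      refine (sum_le_sum h1).trans ((hR0' p hp hpz).trans ?_)
      rw [hBdef]
      push_cast
      linarith)
    (fun i y hy => by
      have h0 := asym_sum H1 H2 (fun j s => fw (cls j) (ev j) (bits i.1) s)
        (fun j hj => by
          show fw (cls j) (ev j) (bits i.1) false = fw (cls j) (ev j) (bits i.1) true
          unfold fw
          rw [if_pos hj, if_pos hj])
        (M := 1) (fun j => by
          show |fw (cls j) (ev j) (bits i.1) true| ≤ 1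
          rw [abs_of_nonneg (fw_nonneg _ _ _ _)]
          exact fw_le _ _ _ _)
        (fun j => by
          show |fw (cls j) (ev j) (bits i.1) false - fw (cls j) (ev j) (bits i.1) true| ≤ 1
          have h1 := fw_nonneg (cls j) (ev j) (bits i.1) false
          have h2 := fw_nonneg (cls j) (ev j) (bits i.1) true
          have h3 := fw_le (cls j) (ev j) (bits i.1) false
          have h4 := fw_le (cls j) (ev j) (bits i.1) true
          rw [abs_le]
          constructor <;> linarith) hy
      simp only [fw_th] at h0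
      have h1 : ∑ p ∈ PS z y, |wt (B := B) (bE (k := 1) cls ev kap R) c i p| ≤
          (∑ p ∈ PS z y, (∑ j, ∑ r ∈ R j p, fw (cls j) (ev j) (bits i.1)
            (sg0 p (kap j r 0))) / ((p : ℝ) - c)) / B := by
        rw [sum_div]
        refine sum_le_sum fun p hp => ?_
        obtain ⟨⟨h2, h3⟩, h4⟩ := mem_PS.1 hp
        unfold wt
        rw [abs_div, abs_of_pos (mul_pos hBr (hpc p h2)), bE_bits, div_div,
          mul_comm ((p : ℝ) - c)]
        refine div_le_div_of_nonneg_right ?_ (mul_pos hBr (hpc p h2)).le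
        refine (abs_sum_le_sum_abs _ _).trans (sum_le_sum fun j _ => ?_)
        refine (abs_sum_le_sum_abs _ _).trans (sum_le_sum fun r _ => ?_)
        exact abs_bo_le (cls j) (ev j) (kap j r) p (bits i.1)
      refine h1.trans ?_
      rw [div_le_iff₀ hBr]
      have h2 := (abs_le.1 h0).2
      have h3 : e i * Real.log (Real.log y) * B = W (bits i.1) * Real.log (Real.log y) := by
        rw [he]
        field_simp
      rw [add_mul, h3]
      have h4 : (Fintype.card J : ℝ) * (2 * 1 * Cj) ≤ Fintype.card J * (2 * 1 * Cj) * B := by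
        apply le_mul_of_one_le_right
        · positivity
        · exact_mod_cast hB
      linarith)
    (fun S hS => by
      obtain ⟨q, hq, rfl⟩ := hSgm S hS
      set m : ℕ → ℝ := fun p => (∑ j, ∑ r ∈ R j p, mj q (cls j) (ev j) (sg0 p (kap j r 0))) /
        |(p : ℝ) - c| with hm
      set G : ℕ → ℝ := fun p => (∑ j, ∑ r ∈ R j p, gj q (cls j) (sg0 p (kap j r 0))) /
        |(p : ℝ) - c| with hG
      have hm0 : ∀ p, 0 ≤ m p := fun p => div_nonneg (sum_nonneg fun j _ => sum_nonneg fun r _ =>
        (mj_nonneg _ _ _ _).1) (abs_nonneg _)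
      have hG0 : ∀ p, 0 ≤ G p := fun p => div_nonneg (sum_nonneg fun j _ => sum_nonneg fun r _ =>
        (gj_nonneg _ _ _).1) (abs_nonneg _)
      set Kq : ℝ := ∑ j, kc q (cls j) (ev j) (sp j) with hKq
      set Dq : ℝ := ∑ j, dc q (cls j) (sp j) with hDq
      have hmsum : ∀ y : ℕ, z < y → ∑ p ∈ PS z y, m p ≤
          Kq * Real.log (Real.log y) + Fintype.card J * (2 * 2 * Cj) := by
        intro y hy
        have h0 := asym_sum H1 H2 (fun j s => mj q (cls j) (ev j) s)
          (fun j hj => by
            show mj q (cls j) (ev j) false = mj q (cls j) (ev j) true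
            unfold mj
            rw [if_pos hj, if_pos hj])
          (M := 2) (fun j => by
            show |mj q (cls j) (ev j) true| ≤ 2
            rw [abs_of_nonneg (mj_nonneg _ _ _ _).1]
            exact (mj_nonneg _ _ _ _).2)
          (fun j => by
            show |mj q (cls j) (ev j) false - mj q (cls j) (ev j) true| ≤ 2
            have h1 := mj_nonneg q (cls j) (ev j) false
            have h2 := mj_nonneg q (cls j) (ev j) true
            rw [abs_le]
            constructor <;> linarith [h1.1, h1.2, h2.1, h2.2]) hy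
        simp only [mj_th] at h0
        have h1 : ∑ p ∈ PS z y, m p = ∑ p ∈ PS z y, (∑ j, ∑ r ∈ R j p,
            mj q (cls j) (ev j) (sg0 p (kap j r 0))) / ((p : ℝ) - c) := by
          refine sum_congr rfl fun p hp => ?_
          rw [hm]
          simp only
          rw [abs_of_pos (hpc p (mem_PS.1 hp).1.1)]
        rw [h1]
        linarith [(abs_le.1 h0).2]
      have hGsum : ∀ y : ℕ, z < y → |∑ p ∈ PS z y, G p - Dq * Real.log (Real.log y)| ≤
          Fintype.card J * (2 * 1 * Cj) := by
        intro y hy
        have h0 := asym_sum H1 H2 (fun j s => gj q (cls j) s)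
          (fun j hj => by
            show gj q (cls j) false = gj q (cls j) true
            unfold gj
            rw [if_pos hj, if_pos hj])
          (M := 1) (fun j => by
            show |gj q (cls j) true| ≤ 1
            rw [abs_of_nonneg (gj_nonneg _ _ _).1]
            exact (gj_nonneg _ _ _).2)
          (fun j => by
            show |gj q (cls j) false - gj q (cls j) true| ≤ 1
            have h1 := gj_nonneg q (cls j) false
            have h2 := gj_nonneg q (cls j) true
            rw [abs_le]
            constructor <;> linarith [h1.1, h1.2, h2.1, h2.2]) hy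
        simp only [gj_th] at h0
        have h1 : ∑ p ∈ PS z y, G p = ∑ p ∈ PS z y, (∑ j, ∑ r ∈ R j p,
            gj q (cls j) (sg0 p (kap j r 0))) / ((p : ℝ) - c) := by
          refine sum_congr rfl fun p hp => ?_
          rw [hG]
          simp only
          rw [abs_of_pos (hpc p (mem_PS.1 hp).1.1)]
        rw [h1]
        exact h0
      have hKN : Kq ≤ N := hcrit q hq
      -- the joint bound
      have hjoint : ∀ (f : Ix 1 B → ℕ) (p : ℕ), z < p →
          ∑ i ∈ SqJ B q, wt (B := B) (bE (k := 1) cls ev kap R) c i p *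
            XX (Lk (k := 1) (B := B)) i f p ≤ m p ∧
          ∀ U : ℝ, (U = XLf (oo, (ec q).swap) f p ∨ U = XLf (ec q, oo) f p) →
            ∑ i ∈ SqJ B q, wt (B := B) (bE (k := 1) cls ev kap R) c i p *
              XX (Lk (k := 1) (B := B)) i f p ≤ m p - G p * (1 - U) := by
        intro f p hp
        rw [joint_sum hq hB]
        set U := XLf (oo, (ec q).swap) f p with hU
        set V := XLf (ec q, oo) f p with hV
        have hU1 : |U| ≤ 1 := abs_XLf _ _ _
        have hV1 : |V| ≤ 1 := abs_XLf _ _ _
        have hp0 := hpc p hp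
        have hmp : m p = (∑ j, ∑ r ∈ R j p, mj q (cls j) (ev j) (sg0 p (kap j r 0))) /
            ((p : ℝ) - c) := by
          rw [hm]
          simp only
          rw [abs_of_pos hp0]
        have hGp : G p = (∑ j, ∑ r ∈ R j p, gj q (cls j) (sg0 p (kap j r 0))) /
            ((p : ℝ) - c) := by
          rw [hG]
          simp only
          rw [abs_of_pos hp0]
        have hQ := fun j r => Qj_le hq (cls j) (ev j) (kap j r) p hU1 hV1
        refine ⟨?_, ?_⟩
        · rw [hmp]
          refine div_le_div_of_nonneg_right ?_ hp0.le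
          exact sum_le_sum fun j _ => sum_le_sum fun r _ => (hQ j r).1
        · intro X hX
          rw [hmp, hGp, div_mul_eq_mul_div, ← sub_div, sum_mul, ← sum_sub_distrib]
          refine div_le_div_of_nonneg_right (sum_le_sum fun j _ => ?_) hp0.le
          rw [sum_mul, ← sum_sub_distrib]
          refine sum_le_sum fun r _ => ?_
          rcases hX with rfl | rfl
          · exact (hQ j r).2.1
          · exact (hQ j r).2.2
      by_cases hD : ∃ j, cls j = 3 ∨ cls j = q
      · right
        obtain ⟨j0, hj0⟩ := hD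
        have hdc0 : ∀ j, 0 ≤ dc q (cls j) (sp j) := by
          intro j
          unfold dc
          have := (th_pos (sp j)).1
          split_ifs <;> linarith
        have hDq4 : 1 / 4 ≤ Dq := by
          have h1 : dc q (cls j0) (sp j0) ≤ Dq :=
            single_le_sum (f := fun j => dc q (cls j) (sp j)) (fun j _ => hdc0 j) (mem_univ j0)
          have h2 : 1 / 4 ≤ dc q (cls j0) (sp j0) := by
            unfold dc
            by_cases h3 : cls j0 = 3
            · rw [if_pos h3]
            · rw [if_neg h3, if_pos (hj0.resolve_left h3)]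
              have := (th_pos (sp j0)).1
              linarith
          linarith
        have hDpos : 0 < Dq := by linarith
        set t : ℝ := (1 / 4) / Dq with ht
        have ht0 : 0 ≤ t := by positivity
        have ht1 : t ≤ 1 := by
          rw [ht, div_le_one hDpos]
          exact hDq4
        have hfac : ∀ b : (Bool × Bool) × (Bool × Bool), Al q b.1 b.2 = true → 0 < W b := by
          intro b hb
          refine sum_pos' (fun j _ => wE_nonneg _ _ _ _) ⟨j0, mem_univ _, wE_pos _ _ ?_⟩
          rcases hj0 with h | h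
          · exact Or.inl h
          · right
            rw [h]
            exact hb
        refine ⟨m, fun p => t * G p, Fintype.card J * (2 * 2 * Cj),
          (SqJ B q).filter fun i => bits i.1 = (oo, (ec q).swap) ∨ bits i.1 = (ec q, oo),
          ?_, filter_subset _ _, hm0, ?_, ?_, ?_, ?_, ?_⟩
        · intro i hi
          rw [mem_filter, mem_Sq] at hi
          exact div_pos (hfac _ hi.1) hBr
        · intro p hp hzp
          refine ⟨mul_nonneg ht0 (hG0 p), ?_⟩
          have h1 : t * G p ≤ G p := mul_le_of_le_one_left (hG0 p) ht1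
          refine h1.trans ?_
          have h2 : ∑ j, ∑ r ∈ R j p, gj q (cls j) (sg0 p (kap j r 0)) ≤ B0 := by
            refine (sum_le_sum fun j _ => sum_le_sum fun r _ => (gj_nonneg _ _ _).2).trans ?_
            simp only [sum_const, nsmul_eq_mul, mul_one]
            exact hR0' p hp hzp
          have h3 : (0 : ℝ) < p := by exact_mod_cast hp.pos
          rw [hG]
          simp only
          rw [abs_of_pos (hpc p hzp), div_eq_mul_one_div]
          calc (∑ j, ∑ r ∈ R j p, gj q (cls j) (sg0 p (kap j r 0))) * (1 / ((p : ℝ) - c)) ≤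
              B0 * (2 / p) := mul_le_mul h2 (hpc2 p hzp) (by
                have := hpc p hzp
                positivity) (Nat.cast_nonneg _)
            _ ≤ (2 * B0 + 1) / p := by
              rw [← mul_div_assoc]
              apply div_le_div_of_nonneg_right _ h3.le
              linarith
        · intro y hy
          refine (hmsum y hy).trans ?_
          have := mul_le_mul_of_nonneg_right hKN (hll y hy)
          linarith
        · intro y hy
          have h1 := hGsum y hy
          have h2 : ∑ p ∈ PS z y, t * G p - 1 / 4 * Real.log (Real.log y) =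
              t * (∑ p ∈ PS z y, G p - Dq * Real.log (Real.log y)) := by
            rw [← mul_sum, mul_sub, ← mul_assoc t Dq, ht, div_mul_cancel₀ _ hDpos.ne']
          rw [h2, abs_mul, abs_of_nonneg ht0]
          calc t * |∑ p ∈ PS z y, G p - Dq * Real.log (Real.log y)| ≤
              1 * (Fintype.card J * (2 * 1 * Cj)) :=
                mul_le_mul ht1 h1 (abs_nonneg _) zero_le_one
            _ ≤ _ := by
              rw [one_mul]
              apply mul_le_mul_of_nonneg_left _ (Nat.cast_nonneg _)
              linarith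
        · intro y hy f hf hf1 p hp hpf
          have hzp := (mem_PS.1 hp).1.1
          obtain ⟨h1, h2⟩ := hjoint f p hzp
          refine ⟨h1, fun i0 hi0 => ?_⟩
          rw [mem_filter] at hi0
          have h3 := h2 (XX (Lk (k := 1) (B := B)) i0 f p) (by
            rw [XX_eq]
            rcases hi0.2 with h | h
            · left; rw [h]
            · right; rw [h])
          refine h3.trans ?_
          have h4 : 0 ≤ 1 - XX (Lk (k := 1) (B := B)) i0 f p := by
            have := (abs_le.1 (abs_XX_le (Lk (k := 1) (B := B)) i0 f p)).2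
            linarith
          have h5 : t * G p ≤ G p := mul_le_of_le_one_left (hG0 p) ht1
          have h6 := mul_le_mul_of_nonneg_right h5 h4
          linarith
        · intro j hj
          rw [mem_Sq] at hj
          rcases det q hq (bits j.1) (lk_self _) hj with h | h
          · obtain ⟨l, hl⟩ := exists_bits (lk_Al q hq (oo, (ec q).swap) (oo, (ec q).swap)
              (Al_xs q hq).1 (Al_xs q hq).1)
            refine ⟨(l, ⟨0, hB⟩), ?_, ?_⟩
            · rw [mem_filter, mem_Sq]
              simp only [hl]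
              exact ⟨(Al_xs q hq).1, Or.inl trivial⟩
            · rw [Lk_bits, Lk_bits, hl]
              exact h
          · obtain ⟨l, hl⟩ := exists_bits (lk_Al q hq (ec q, oo) (ec q, oo)
              (Al_xs q hq).2 (Al_xs q hq).2)
            refine ⟨(l, ⟨0, hB⟩), ?_, ?_⟩
            · rw [mem_filter, mem_Sq]
              simp only [hl]
              exact ⟨(Al_xs q hq).2, Or.inr trivial⟩
            · rw [Lk_bits, Lk_bits, hl]
              exact h
      · left
        push Not at hD
        refine ⟨m, N * (3 / 4), Fintype.card J * (2 * 2 * Cj), by linarith, hm0, ?_, ?_⟩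
        · intro y hy
          refine (hmsum y hy).trans ?_
          have h1 : Kq ≤ N * (3 / 4) := by
            refine (sum_le_sum fun j _ => kc_le q (cls j) (ev j) (sp j) (hD j).1
              (hD j).2).trans (le_of_eq ?_)
            rw [sum_const, card_univ, nsmul_eq_mul]
          have := mul_le_mul_of_nonneg_right h1 (hll y hy)
          linarith
        · intro y hy f hf hf1 p hp hpf
          exact (hjoint f p (mem_PS.1 hp).1.1).1)
  refine ⟨C, fun y hy => ?_⟩
  rw [exp_id hB (lamE (k := 1) cls ev kap R) (bE cls ev kap R) c z y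
    (fun p _ v h => lamE_eq cls ev kap R p v h) (fun p _ v x h => bE_odd cls ev kap R p v x h)]
  refine (le_abs_self _).trans ((hC y hy).trans (le_of_eq ?_))
  rw [hN, Real.rpow_natCast]

end

end Pool.Agent.L0h5.TH
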