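import Pool.Agent.L0h5.TH.M2
import Pool.Agent.L0h5.TH.Avg3
import Pool.Agent.L0h5.MR.Split2
import Pool.Agent.L0h5.TF.Comb

/-!
# The averages of a family
-/

set_option autoImplicit false
set_option linter.unusedSectionVars false

namespace Pool.Agent.L0h5.TH

open Finset Polynomial Pool.Agent.W262.RK Pool.Agent.L0h5.TF Pool.Agent.L0h5.MR

/-- from all the primes to the primes greater than `z` -/
lemma two_sided (w : ℕ → ℝ) (hw0 : ∀ p, 0 ≤ w p) (B : ℝ) (c z : ℕ) (hc : 2 * c + 2 ≤ z)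
    (hwB : ∀ p : ℕ, p.Prime → z < p → w p ≤ B) (θ C : ℝ)
    (hC : ∀ y : ℕ, 3 ≤ y → |∑ p ∈ pr y, w p / p - θ * Real.log (Real.log y)| ≤ C) :
    ∃ C' : ℝ, ∀ y : ℕ, z < y →
      |∑ p ∈ PS z y, w p / ((p : ℝ) - c) - θ * Real.log (Real.log y)| ≤ C' := by
  classical
  have hB0 : 0 ≤ |B| := abs_nonneg B
  refine ⟨C + |∑ p ∈ pr z, w p / p| + 2 * c * |B|, fun y hy => ?_⟩
  have h1 : ∀ p ∈ PS z y, 0 ≤ w p / ((p : ℝ) - c) - w p / p ∧
      w p / ((p : ℝ) - c) - w p / p ≤ 2 * c * |B| * ((p : ℝ) ^ 2)⁻¹ := by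
    intro p hp
    obtain ⟨⟨h2, h3⟩, h4⟩ := mem_PS.1 hp
    have h5 : (2 * c + 3 : ℝ) ≤ p := by exact_mod_cast (by omega : 2 * c + 3 ≤ p)
    have hc0 : (0 : ℝ) ≤ c := Nat.cast_nonneg c
    have hp0 : (0 : ℝ) < p := by linarith
    have h6 : w p ≤ |B| := (hwB p h4 h2).trans (le_abs_self B)
    have h7 : (0 : ℝ) ≤ w p := hw0 p
    have h8 : (0 : ℝ) < (p : ℝ) - c := by linarith
    have h9 : w p / ((p : ℝ) - c) - w p / p = w p * (c / (p * (p - c))) := by
      field_simp
      ring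
    have h10 : (c : ℝ) / (p * (p - c)) ≤ 2 * c * ((p : ℝ) ^ 2)⁻¹ := by
      rw [← div_eq_mul_inv, div_le_div_iff₀ (by positivity) (by positivity)]
      nlinarith [mul_nonneg hc0 hp0.le, mul_nonneg (mul_nonneg hc0 hp0.le)
        (by linarith : (0 : ℝ) ≤ p - 2 * c)]
    have h12 : (0 : ℝ) ≤ c / (p * (p - c)) := by positivity
    have h11 : w p * (c / (p * (p - c))) ≤ |B| * (2 * c * ((p : ℝ) ^ 2)⁻¹) :=
      mul_le_mul h6 h10 h12 hB0
    rw [h9]
    exact ⟨mul_nonneg h7 h12, by linarith⟩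
  have h3 : ∑ p ∈ PS z y, ((p : ℝ) ^ 2)⁻¹ ≤ 1 := by
    have h4 : ∑ p ∈ PS z y, ((p : ℝ) ^ 2)⁻¹ ≤ ∑ p ∈ Ioc z y, ((p : ℝ) ^ 2)⁻¹ := by
      apply sum_le_sum_of_subset_of_nonneg (filter_subset _ _)
      intro p _ _
      positivity
    have h5 := sum_Ioc_inv_sq_le_sub (α := ℝ) (k := z) (n := y) (by omega) hy.le
    have h6 : ((z : ℝ))⁻¹ ≤ 1 := by
      apply inv_le_one_of_one_le₀
      exact_mod_cast (by omega : 1 ≤ z)
    have h7 : (0 : ℝ) ≤ ((y : ℝ))⁻¹ := by positivity
    linarith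
  have h4 : 0 ≤ ∑ p ∈ PS z y, (w p / ((p : ℝ) - c) - w p / p) :=
    sum_nonneg fun p hp => (h1 p hp).1
  have h5 : ∑ p ∈ PS z y, (w p / ((p : ℝ) - c) - w p / p) ≤ 2 * c * |B| := by
    refine (sum_le_sum fun p hp => (h1 p hp).2).trans ?_
    rw [← mul_sum]
    have : (0 : ℝ) ≤ 2 * c * |B| := by positivity
    nlinarith
  rw [sum_sub_distrib] at h4 h5
  have h6 : ∑ p ∈ pr y, w p / p = ∑ p ∈ pr z, w p / p + ∑ p ∈ PS z y, w p / p := by
    have h7 : pr y = pr z ∪ PS z y := by
      ext p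
      unfold pr
      rw [mem_union, mem_filter, mem_filter, mem_PS, mem_Icc, mem_Icc]
      constructor
      · rintro ⟨⟨h7, h8⟩, h9⟩
        by_cases h10 : p ≤ z
        · exact Or.inl ⟨⟨h7, h10⟩, h9⟩
        · exact Or.inr ⟨⟨by omega, h8⟩, h9⟩
      · rintro (⟨⟨h7, h8⟩, h9⟩ | ⟨⟨h7, h8⟩, h9⟩)
        · exact ⟨⟨h7, by omega⟩, h9⟩
        · exact ⟨⟨h9.one_lt.le, h8⟩, h9⟩
    rw [h7, sum_union]
    rw [disjoint_left]
    intro p hp hp'
    unfold pr at hp
    rw [mem_filter, mem_Icc] at hp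
    rw [mem_PS] at hp'
    omega
  have h7 := abs_le.1 (hC y (by omega))
  have h8 := abs_le.1 (le_refl |∑ p ∈ pr z, w p / p|)
  rw [abs_le]
  constructor
  · linarith [h7.1, h7.2, h8.1, h8.2]
  · linarith [h7.1, h7.2, h8.1, h8.2]

/-- if the value is a square, then all the symbols are `1` -/
lemma split_sq (P h : ℤ[X])
    (hsq : IsSquare (AdjoinRoot.mk (P.map (Int.castRingHom ℚ)) (h.map (Int.castRingHom ℚ)))) :
    ∃ z0 : ℕ, ∀ p : ℕ, p.Prime → z0 < p → ∀ r : ℤ, (p : ℤ) ∣ P.eval r →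
      sg0 p (h.eval r) = false := by
  obtain ⟨w, hw⟩ := hsq
  obtain ⟨g, rfl⟩ := AdjoinRoot.mk_surjective w
  rw [← map_mul, AdjoinRoot.mk_eq_mk] at hw
  obtain ⟨Q, hQ⟩ := hw
  obtain ⟨n, hn, A, hA⟩ := clear_den g
  obtain ⟨l, hl, B, hB⟩ := clear_den Q
  have key : C l * (C (n ^ 2) * h - A ^ 2) = P * (C (n ^ 2) * B) := by
    apply Polynomial.map_injective (Int.castRingHom ℚ) (RingHom.injective_int _)
    have e1 : ∀ k : ℤ, (Int.castRingHom ℚ) k = (k : ℚ) := fun _ => rfl
    simp only [Polynomial.map_mul, Polynomial.map_sub, Polynomial.map_pow, map_C, e1, hA, hB]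
    push_cast
    simp only [C_pow]
    linear_combination (C (l : ℚ) * C (n : ℚ) ^ 2) * hQ
  refine ⟨n.natAbs + l.natAbs, fun p hp hpz r hr => ?_⟩
  have : Fact p.Prime := ⟨hp⟩
  have hpn : ¬ (p : ℤ) ∣ n := by
    intro hd
    have := Nat.le_of_dvd (Int.natAbs_pos.2 hn) (Int.natCast_dvd.1 hd)
    omega
  have hpl : ¬ (p : ℤ) ∣ l := by
    intro hd
    have := Nat.le_of_dvd (Int.natAbs_pos.2 hl) (Int.natCast_dvd.1 hd)
    omega
  have h1 := congrArg (fun f => f.eval r) key
  simp only [eval_mul, eval_C, eval_sub, eval_pow] at h1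
  have h2 : (p : ℤ) ∣ n ^ 2 * h.eval r - A.eval r ^ 2 := by
    have h3 : (p : ℤ) ∣ l * (n ^ 2 * h.eval r - A.eval r ^ 2) := by
      rw [h1]
      exact hr.mul_right _
    exact ((Nat.prime_iff_prime_int.1 hp).dvd_or_dvd h3).resolve_left hpl
  have h3 : jacobiSym (A.eval r ^ 2) p = jacobiSym (n ^ 2 * h.eval r) p := jac_congr h2
  rw [jacobiSym.mul_left, jacobiSym.pow_left, jacobiSym.pow_left] at h3
  have h4 : jacobiSym n p ^ 2 = 1 := by
    rcases jac_unit hp hpn with h5 | h5 <;> rw [h5] <;> norm_num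
  rw [h4, one_mul] at h3
  unfold sg0
  rw [decide_eq_false_iff_not, ← h3]
  intro h5
  have h6 := sq_nonneg (jacobiSym (A.eval r) p)
  omega

section

variable {J : Type} [Fintype J] [DecidableEq J] {P : J → ℤ[X]} {a : Fin 3 → ℤ} {δ : J → Bool}
  {q : J → Fin 3} {m : J → ℕ} {ac : J → Bool}

lemma avA_empty (k c z : ℕ) (hac : ∀ j, ac j = false) : ∃ C' : ℝ, ∀ y, z < y →
    ∑ s ∈ (PP z y).divisors, Gs (lamA k P a δ q m ac) s * gw 1 c s ≤ C' * (Real.log y) ^ 0 := by
  refine ⟨Gs (lamA k P a δ q m ac) 1 * gw 1 c 1, fun y _ => ?_⟩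
  rw [pow_zero, mul_one]
  refine le_of_eq (sum_eq_single 1 ?_ ?_)
  · intro s hs hs1
    have hs0 : s ≠ 0 := dv_ne_zero hs
    obtain ⟨p, hp, hps⟩ := Nat.exists_prime_and_dvd hs1
    have h1 : Gs (lamA k P a δ q m ac) s = 0 := by
      rw [Gs_def]
      refine sum_eq_zero fun D _ => prod_eq_zero (Nat.mem_primeFactors.2 ⟨hp, hps, hs0⟩) ?_
      unfold lamA
      rw [filter_false_of_mem (fun j _ => by rw [hac j]; simp), sum_empty]
    rw [h1, zero_mul]
  · intro h
    exact absurd (Nat.mem_divisors.2 ⟨one_dvd _, (PP_squarefree z y).ne_zero⟩) h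

lemma lamE_sub {k : ℕ} (cls : J → Fin 4) (ev : J → Bool) (kap : J → ℕ → Fin 3 → ℤ)
    (R : J → ℕ → Finset ℕ) (p : ℕ) (v h : Vk k) :
    lamE (J := {j // ac j = true}) (fun j => cls j) (fun j => ev j) (fun j => kap j)
      (fun j => R j) p v h =
    ∑ j ∈ univ.filter (fun j => ac j = true), ∑ r ∈ R j p, lstE (cls j) (ev j) (kap j r) p v h := by
  unfold lamE
  rw [sum_subtype (p := fun j => ac j = true) (univ.filter (fun j => ac j = true))
    (fun j => by simp)]

lemma lstE_three {k : ℕ} (ev : Bool) (κ : Fin 3 → ℤ) (p : ℕ) (v h : Vk k) :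
    lstE 3 ev κ p v h = lstE 3 false κ p v h := by
  rw [lstE_or (by simp [nsE]), lstE_or (by simp [nsE])]

/-- all the active factors are additive -/
theorem avA_add (h : Fm P a) (k c : ℕ) (hac : ∀ j, ac j = true → δ j = true) :
    ∃ z0 : ℕ, ∀ z, z0 ≤ z → ∃ C' : ℝ, ∀ y, z < y →
      ∑ s ∈ (PP z y).divisors, Gs (lamA k P a δ q m ac) s * gw 1 c s ≤
        C' * (Real.log y) ^ (univ.filter (fun j => ac j = true)).card := by
  classical
  by_cases hne : Nonempty {j // ac j = true}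
  swap
  · refine ⟨0, fun z _ => ?_⟩
    have h1 : ∀ j, ac j = false := by
      intro j
      by_contra hcon
      rw [Bool.not_eq_false] at hcon
      exact hne ⟨j, hcon⟩
    have h2 : univ.filter (fun j => ac j = true) = ∅ := by
      apply filter_false_of_mem
      intro j _
      rw [h1 j]
      simp
    rw [h2, card_empty]
    exact avA_empty k c z h1
  · set cls' : {j // ac j = true} → Fin 4 := fun _ => 3 with hcls
    obtain ⟨z1, hz1⟩ := h.good
    obtain ⟨z2, hz2⟩ := avgT (k := k) cls' (fun _ => false) (fun _ => rfl) c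
      (Fintype.card {j // ac j = true}) (∑ j, (P j).natDegree)
      (fun i => pos_three (fun _ => rfl) i)
      (fun U hU => comb_three (fun _ => rfl) U hU)
    refine ⟨z1 + z2 + 2 * c + 2, fun z hz => ?_⟩
    have g : Gz P a z := hz1 z (by omega)
    have h3 : ∀ j, ∃ C : ℝ, ∀ y : ℕ, z < y →
        ∑ p ∈ PS z y, (rho (P j) p : ℝ) / ((p : ℝ) - c) ≤ Real.log (Real.log y) + C :=
      fun j => sum_rho_c (P j) (h.irr j) c z (by omega) (fun p hp hzp => g.lc p hp hzp j)
    choose Cc hCc using h3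
    have hCle : ∀ j, Cc j ≤ ∑ j, |Cc j| := fun j => (le_abs_self _).trans
      (single_le_sum (f := fun j => |Cc j|) (fun _ _ => abs_nonneg _) (mem_univ j))
    obtain ⟨C', hC'⟩ := hz2 z (by omega) (fun j => kapG P a δ q m j) (fun j p => rts (P j) p)
      (∑ j, |Cc j|) (fun p hp hzp => by
        have h4 : ∑ j : {j // ac j = true}, (rts (P j) p).card =
            ∑ j ∈ univ.filter (fun j => ac j = true), (rts (P j) p).card := by
          rw [sum_subtype (p := fun j => ac j = true) (univ.filter (fun j => ac j = true))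
            (fun j => by simp)]
        rw [h4]
        refine (sum_le_sum_of_subset (filter_subset _ _)).trans ?_
        exact sum_le_sum fun j _ => rho_le (P j) hp (g.lc p hp hzp j))
      (fun j y hy => (hCc j y hy).trans (by
        have := hCle j
        linarith))
    refine ⟨C', fun y hy => ?_⟩
    have h5 := hC' y hy
    rw [Fintype.card_subtype] at h5
    refine le_trans (le_of_eq (sum_congr rfl fun s _ => ?_)) h5
    congr 1
    rw [Gs_def, Gs_def]
    refine sum_congr rfl fun D _ => prod_congr rfl fun p _ => ?_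
    have h6 := lamE_sub (ac := ac) (k := k) (fun _ => 3) (fun _ => false) (kapG P a δ q m)
      (fun j p => rts (P j) p) p (bv p D) (bs p D)
    rw [h6]
    unfold lamA
    refine sum_congr rfl fun j hj => sum_congr rfl fun r _ => ?_
    have h7 : clsG δ q j = 3 := by
      unfold clsG
      rw [if_pos (hac j (mem_filter.1 hj).2)]
    rw [h7, lstE_three]

lemma sg0_false_iff {p : ℕ} (hp : p.Prime) {x : ℤ} (hx : ¬ (p : ℤ) ∣ x) :
    sg0 p x = false ↔ jacobiSym x p = 1 := by
  unfold sg0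
  rw [decide_eq_false_iff_not]
  rcases jac_unit hp hx with h | h <;> rw [h] <;> decide

/-- the sums over the roots with symbol `1` -/
lemma sum_Rz (h : Fm P a) (c : ℕ) (j : J) (sp : Bool)
    (hsp : sp = true ↔ IsSquare (AdjoinRoot.mk ((P j).map (Int.castRingHom ℚ))
      ((kapQ P a δ q m j 0).map (Int.castRingHom ℚ)))) :
    ∃ z0 : ℕ, ∀ z, z0 ≤ z → ∃ C : ℝ, ∀ y : ℕ, z < y →
      |∑ p ∈ PS z y, (((rts (P j) p).filter
        (fun r => sg0 p (kapG P a δ q m j r 0) = false)).card : ℝ) / ((p : ℝ) - c) -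
        th sp * Real.log (Real.log y)| ≤ C := by
  classical
  obtain ⟨z1, hz1⟩ := h.good
  by_cases hs : sp = true
  · obtain ⟨z2, hz2⟩ := split_sq (P j) (kapQ P a δ q m j 0) (hsp.1 hs)
    refine ⟨z1 + z2 + 2 * c + 2, fun z hz => ?_⟩
    have g : Gz P a z := hz1 z (by omega)
    obtain ⟨C, hC⟩ := mertens_rho (P j) (h.irr j)
    obtain ⟨C', hC'⟩ := two_sided (fun p => (rho (P j) p : ℝ)) (fun _ => Nat.cast_nonneg _)
      ((P j).natDegree : ℝ) c z (by omega)
      (fun p hp hzp => by exact_mod_cast rho_le (P j) hp (g.lc p hp hzp j)) 1 C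
      (fun y hy => by rw [one_mul]; exact hC y hy)
    refine ⟨C', fun y hy => ?_⟩
    have h1 : th sp = 1 := by
      unfold th
      rw [if_pos hs]
    rw [h1]
    refine le_trans (le_of_eq ?_) (hC' y hy)
    congr 1
    congr 1
    refine sum_congr rfl fun p hp => ?_
    obtain ⟨⟨h2, h3⟩, h4⟩ := mem_PS.1 hp
    congr 2
    rw [← card_rts]
    congr 1
    apply filter_true_of_mem
    intro r hr
    unfold rts at hr
    exact hz2 p h4 (by omega) (r : ℤ) (mem_filter.1 hr).2
  · have hns : ¬ IsSquare (AdjoinRoot.mk ((P j).map (Int.castRingHom ℚ))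
      ((kapQ P a δ q m j 0).map (Int.castRingHom ℚ))) := fun h' => hs (hsp.2 h')
    obtain ⟨M, hM, z2, hz2⟩ := split (P j) (kapQ P a δ q m j 0) (h.irr j) hns
    refine ⟨z1 + z2 + 2 * c + 2, fun z hz => ?_⟩
    have g : Gz P a z := hz1 z (by omega)
    obtain ⟨C, hC⟩ := mertens_rho M hM
    have hrz : ∀ p : ℕ, p.Prime → z < p → (rho M p : ℝ) / 2 = (((rts (P j) p).filter
        (fun r => sg0 p (kapG P a δ q m j r 0) = false)).card : ℝ) := by
      intro p hp hzp
      rw [hz2 p hp (by omega), card_filter]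
      push_cast
      rw [sum_div]
      refine sum_congr rfl fun r hr => ?_
      unfold rts at hr
      have h5 := sg0_false_iff hp (kapG_unit (δ := δ) (q := q) (m := m) g hp hzp
        (mem_filter.1 hr).2 0)
      unfold kapG
      by_cases h6 : jacobiSym ((kapQ P a δ q m j 0).eval (r : ℤ)) p = 1
      · rw [if_pos h6, if_pos (h5.2 h6)]
        norm_num
      · rw [if_neg h6, if_neg (fun h7 => h6 (h5.1 h7))]
        norm_num
    obtain ⟨C', hC'⟩ := two_sided (fun p => (rho M p : ℝ) / 2) (fun _ => by positivity)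
      ((P j).natDegree : ℝ) c z (by omega)
      (fun p hp hzp => by
        rw [hrz p hp hzp]
        exact_mod_cast (card_filter_le _ _).trans (rho_le (P j) hp (g.lc p hp hzp j))) (1 / 2)
      (C / 2) (fun y hy => by
        have h7 := hC y hy
        have e : ∑ p ∈ pr y, ((rho M p : ℝ) / 2) / p - 1 / 2 * Real.log (Real.log y) =
            (∑ p ∈ pr y, (rho M p : ℝ) / p - Real.log (Real.log y)) / 2 := by
          have e2 : ∑ p ∈ pr y, ((rho M p : ℝ) / 2) / p = (∑ p ∈ pr y, (rho M p : ℝ) / p) / 2 := by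
            rw [sum_div]
            refine sum_congr rfl fun p _ => ?_
            ring
          rw [e2]
          ring
        rw [e, abs_div, abs_two]
        linarith)
    refine ⟨C', fun y hy => ?_⟩
    have h1 : th sp = 1 / 2 := by
      unfold th
      rw [if_neg hs]
    rw [h1]
    refine le_trans (le_of_eq ?_) (hC' y hy)
    congr 1
    congr 1
    refine sum_congr rfl fun p hp => ?_
    obtain ⟨⟨h2, h3⟩, h4⟩ := mem_PS.1 hp
    congr 1
    exact (hrz p h4 h2).symm

/-- **The refined average of a family** -/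
theorem avA_ref (h : Fm P a) (c : ℕ) (sp : J → Bool)
    (hcrit : ∀ q' : Fin 4, q' ≠ 3 → ∑ j ∈ univ.filter (fun j => ac j = true),
      kc q' (clsG δ q j) (evG m j) (sp j) ≤ (univ.filter (fun j => ac j = true)).card)
    (hsp : ∀ j, ac j = true → clsG δ q j ≠ 3 → (sp j = true ↔
      IsSquare (AdjoinRoot.mk ((P j).map (Int.castRingHom ℚ))
      ((kapQ P a δ q m j 0).map (Int.castRingHom ℚ))))) :
    ∃ z0 : ℕ, ∀ z, z0 ≤ z → ∃ C' : ℝ, ∀ y, z < y →
      ∑ s ∈ (PP z y).divisors, Gs (lamA 1 P a δ q m ac) s * gw 1 c s ≤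
        C' * (Real.log y) ^ (univ.filter (fun j => ac j = true)).card := by
  classical
  by_cases hne : Nonempty {j // ac j = true}
  swap
  · refine ⟨0, fun z _ => ?_⟩
    have h1 : ∀ j, ac j = false := by
      intro j
      by_contra hcon
      rw [Bool.not_eq_false] at hcon
      exact hne ⟨j, hcon⟩
    have h2 : univ.filter (fun j => ac j = true) = ∅ := by
      apply filter_false_of_mem
      intro j _
      rw [h1 j]
      simp
    rw [h2, card_empty]
    exact avA_empty 1 c z h1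
  · have hsub : ∀ F : J → ℝ, ∑ j : {j // ac j = true}, F j =
        ∑ j ∈ univ.filter (fun j => ac j = true), F j := fun F =>
      (sum_subtype (p := fun j => ac j = true) (univ.filter (fun j => ac j = true))
            (fun j => by simp) F).symm
    obtain ⟨z1, hz1⟩ := h.good
    obtain ⟨z2, hz2⟩ := avg2 (fun j : {j // ac j = true} => clsG δ q j) (fun j => evG m j)
      (fun j => sp j) c (∑ j, (P j).natDegree) (fun q' hq' => by
        rw [hsub fun j => kc q' (clsG δ q j) (evG m j) (sp j), Fintype.card_subtype]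
        exact hcrit q' hq')
    have h4 : ∀ j, ∃ z0 : ℕ, ac j = true → clsG δ q j ≠ 3 → ∀ z, z0 ≤ z → ∃ C : ℝ,
        ∀ y : ℕ, z < y → |∑ p ∈ PS z y, (((rts (P j) p).filter
        (fun r => sg0 p (kapG P a δ q m j r 0) = false)).card : ℝ) / ((p : ℝ) - c) -
        th (sp j) * Real.log (Real.log y)| ≤ C := by
      intro j
      by_cases h5 : ac j = true ∧ clsG δ q j ≠ 3
      · obtain ⟨z0, hz0⟩ := sum_Rz h c j (sp j) (hsp j h5.1 h5.2)
        exact ⟨z0, fun _ _ => hz0⟩
      · exact ⟨0, fun h6 h7 => absurd ⟨h6, h7⟩ h5⟩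
    choose z3 hz3 using h4
    refine ⟨z1 + z2 + ∑ j, z3 j + 2 * c + 2, fun z hz => ?_⟩
    have g : Gz P a z := hz1 z (by omega)
    have hz3' : ∀ j, z3 j ≤ z := fun j => by
      have := single_le_sum (f := fun j => z3 j) (fun _ _ => Nat.zero_le _) (mem_univ j)
      omega
    have h5 : ∀ j, ∃ C : ℝ, ∀ y : ℕ, z < y →
        |∑ p ∈ PS z y, (rho (P j) p : ℝ) / ((p : ℝ) - c) - Real.log (Real.log y)| ≤ C := by
      intro j
      obtain ⟨C, hC⟩ := mertens_rho (P j) (h.irr j)
      obtain ⟨C', hC'⟩ := two_sided (fun p => (rho (P j) p : ℝ)) (fun _ => Nat.cast_nonneg _)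
        ((P j).natDegree : ℝ) c z (by omega)
        (fun p hp hzp => by exact_mod_cast rho_le (P j) hp (g.lc p hp hzp j)) 1 C
        (fun y hy => by rw [one_mul]; exact hC y hy)
      exact ⟨C', fun y hy => by
        have := hC' y hy
        rwa [one_mul] at this⟩
    choose C5 hC5 using h5
    have h6 : ∀ j, ∃ C : ℝ, ac j = true → clsG δ q j ≠ 3 →
        ∀ y : ℕ, z < y → |∑ p ∈ PS z y, (((rts (P j) p).filter
        (fun r => sg0 p (kapG P a δ q m j r 0) = false)).card : ℝ) / ((p : ℝ) - c) -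
        th (sp j) * Real.log (Real.log y)| ≤ C := by
      intro j
      by_cases h7 : ac j = true ∧ clsG δ q j ≠ 3
      · obtain ⟨C, hC⟩ := hz3 j h7.1 h7.2 z (hz3' j)
        exact ⟨C, fun _ _ => hC⟩
      · exact ⟨0, fun h8 h9 => absurd ⟨h8, h9⟩ h7⟩
    choose C6 hC6 using h6
    set Cm : ℝ := ∑ j, (|C5 j| + |C6 j|) with hCm
    have hl : ∀ j, |C5 j| + |C6 j| ≤ Cm := fun j =>
      single_le_sum (f := fun j => |C5 j| + |C6 j|) (fun _ _ => by positivity) (mem_univ j)
    obtain ⟨C', hC'⟩ := hz2 z (by omega) (fun j => kapG P a δ q m j) (fun j p => rts (P j) p)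
      Cm (fun p hp hzp => by
        have h4 : ∑ j : {j // ac j = true}, (rts (P j) p).card =
            ∑ j ∈ univ.filter (fun j => ac j = true), (rts (P j) p).card := by
          rw [sum_subtype (p := fun j => ac j = true) (univ.filter (fun j => ac j = true))
            (fun j => by simp)]
        rw [h4]
        refine (sum_le_sum_of_subset (filter_subset _ _)).trans ?_
        exact sum_le_sum fun j _ => rho_le (P j) hp (g.lc p hp hzp j))
      (fun j y hy => (hC5 j y hy).trans (by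
        have h7 := hl j
        have h8 := le_abs_self (C5 j)
        have h9 := abs_nonneg (C6 j)
        linarith))
      (fun j hj y hy => (hC6 j j.2 hj y hy).trans (by
        have h7 := hl j
        have h8 := le_abs_self (C6 j)
        have h9 := abs_nonneg (C5 j)
        linarith))
    refine ⟨C', fun y hy => ?_⟩
    have h5 := hC' y hy
    rw [Fintype.card_subtype] at h5
    refine le_trans (le_of_eq (sum_congr rfl fun s _ => ?_)) h5
    congr 1
    rw [Gs_def, Gs_def]
    refine sum_congr rfl fun D _ => prod_congr rfl fun p _ => ?_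
    exact (lamE_sub (ac := ac) (k := 1) (clsG δ q) (evG m) (kapG P a δ q m)
      (fun j p => rts (P j) p) p (bv p D) (bs p D)).symm

end

end Pool.Agent.L0h5.TH
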