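import Pool.Agent.L0h5.TH.M1

/-!
# Integer parameters: the count and the main estimate
-/

set_option autoImplicit false
set_option linter.unusedSectionVars false

namespace Pool.Agent.L0h5.TH

open Finset Polynomial Pool.Agent.W262.RK Pool.Agent.L0h5.TF Pool.Agent.L0h5.MR

section

variable {J : Type} [Fintype J] [DecidableEq J] {P : J → ℤ[X]} {a : Fin 3 → ℤ} {δ : J → Bool}
  {q : J → Fin 3} {m : J → ℕ} {z : ℕ} {ac : J → Bool}

/-- the forbidden classes -/
def QF (P : J → ℤ[X]) (p : ℕ) (t : ℤ) : Prop := (p : ℤ) ∣ (FF P).eval t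

lemma card_QF (p : ℕ) [DecidablePred fun n : ℕ => QF P p (n : ℤ)] :
    ((range p).filter (fun n : ℕ => QF P p (n : ℤ))).card = rho (FF P) p := by
  unfold rho
  apply congrArg
  ext n
  rw [mem_filter, mem_filter]
  exact Iff.rfl

/-- the admissible sets of parameters -/
def Ad1 (P : J → ℤ[X]) (ac : J → Bool) (z M X : ℕ) (TX : Finset ℤ) : Prop :=
  ∃ x : ℤ, x.natAbs ≤ X ^ M ∧ ∀ t ∈ TX, x < t ∧ t ≤ x + X ∧ (FF P).eval t ≠ 0 ∧
    ∀ j, ac j = false → ∀ p : ℕ, p.Prime → z < p → p ≤ X → ¬ (p : ℤ) ∣ (P j).eval t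

lemma cntA [Nonempty J] (g : Gz P a z) {c : ℕ} (hc : c = ∑ j, (P j).natDegree)
    (hcz : 2 * c + 2 ≤ z) {y X N' : ℕ} {x : ℤ} {C : ℝ} (hC : 0 ≤ C) (hzy : z < y) (hyX : y ≤ X)
    (hsv : SvQ (QF P) z y X c N' x C) {Y s v u : ℕ}
    (hs : s ∈ (PP z y).divisors) (hv : v ∈ (PP z y).divisors) (hu : u ∈ (PP y Y).divisors)
    (hsvu : (s * v * u) ^ 8 ≤ X) (hcop : s.Coprime v) (T : Finset ℤ)
    (hT : ∀ t ∈ T, x < t ∧ t ≤ x + X ∧
      (∀ j, ac j = false → ∀ p : ℕ, p.Prime → z < p → p ≤ X → ¬ (p : ℤ) ∣ (P j).eval t) ∧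
      s1 z y (fa P ac t) = s ∧ s2 z y (fa P ac t) = v ∧ (u : ℤ) ∣ fa P ac t)
    (hst : ∀ t ∈ T, ∀ t' ∈ T, ∀ p ∈ s.primeFactors, stt P ac t p = stt P ac t' p) :
    (T.card : ℝ) ≤ C * X * ((1 / 2) ^ s.primeFactors.card * gw 1 c s) *
      ((c : ℝ) ^ v.primeFactors.card * (gw 1 c v / v)) *
      ((c : ℝ) ^ u.primeFactors.card / u) / (Real.log y) ^ N' := by
  have hgs := gw_nonneg (c := c) (by omega) hs
  have hgv := gw_nonneg (c := c) (by omega) hv
  have hlog : 0 ≤ (Real.log y) ^ N' := pow_nonneg (Real.log_natCast_nonneg y) _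
  rcases T.eq_empty_or_nonempty with hE | ⟨t0, ht0⟩
  · rw [hE, card_empty, Nat.cast_zero]
    positivity
  have hsz : ∀ p ∈ s.primeFactors, (z < p ∧ p ≤ y) ∧ p.Prime := fun p hp =>
    ⟨dv_prime hs (Nat.prime_of_mem_primeFactors hp) (Nat.dvd_of_mem_primeFactors hp),
      Nat.prime_of_mem_primeFactors hp⟩
  have hvz : ∀ p ∈ v.primeFactors, (z < p ∧ p ≤ y) ∧ p.Prime := fun p hp =>
    ⟨dv_prime hv (Nat.prime_of_mem_primeFactors hp) (Nat.dvd_of_mem_primeFactors hp),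
      Nat.prime_of_mem_primeFactors hp⟩
  have huz : ∀ p ∈ u.primeFactors, (y < p ∧ p ≤ Y) ∧ p.Prime := fun p hp =>
    ⟨dv_prime hu (Nat.prime_of_mem_primeFactors hp) (Nat.dvd_of_mem_primeFactors hp),
      Nat.prime_of_mem_primeFactors hp⟩
  have evs : ∀ p ∈ v.primeFactors, p ∉ s.primeFactors := fun p hp h =>
    (disjoint_left.1 hcop.disjoint_primeFactors h) hp
  have eus : ∀ p ∈ u.primeFactors, p ∉ s.primeFactors := fun p hp h => by
    have h1 := (huz p hp).1.1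
    have h2 := (hsz p h).1.2
    omega
  have euv : ∀ p ∈ u.primeFactors, p ∉ v.primeFactors := fun p hp h => by
    have h1 := (huz p hp).1.1
    have h2 := (hvz p h).1.2
    omega
  have hs1 : ∀ t ∈ T, ∀ p ∈ s.primeFactors, (p : ℤ) ∣ fa P ac t ∧ ¬ (p : ℤ) ^ 2 ∣ fa P ac t := by
    intro t ht p hp
    obtain ⟨-, -, -, h3, -, -⟩ := hT t ht
    have h6 : p ∣ s1 z y (fa P ac t) := by
      rw [h3]
      exact Nat.dvd_of_mem_primeFactors hp
    exact ((dvd_s1 (hsz p hp).2).1 h6).2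
  refine cnt1 hsv hC hcz hs hv hu hsvu hcop (fun p => if p ∈ s.primeFactors then
      (range (p ^ 2)).filter (fun n : ℕ => n % p = rs t0 p ∧
        ¬ (p : ℤ) ^ 2 ∣ (P (jt P ac t0 p)).eval (n : ℤ) ∧
        sg0 p ((P (jt P ac t0 p)).eval (n : ℤ) / p) = (stt P ac t0 p).2.2)
    else if p ∈ v.primeFactors then Vf P p else rts (FF P) p) ?_ ?_ ?_ T ?_
  · intro p hp
    rw [if_pos hp]
    obtain ⟨⟨hz, -⟩, hpp⟩ := hsz p hp
    have h1 := mem_SpA.1 (stt_mem (ac := ac) hpp (hs1 t0 ht0 p hp).1)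
    exact card_half _ hpp (by
      have := g.two
      omega) _ _ h1.2.2 (g.der p hpp hz _ _ h1.2.2)
  · intro p hp
    rw [if_neg (evs p hp), if_pos hp, hc]
    exact card_Vf g (hvz p hp).2 (hvz p hp).1.1
  · intro p hp
    rw [if_neg (eus p hp), if_neg (euv p hp), card_rts, hc]
    have hzp : z < p := hzy.trans (huz p hp).1.1
    exact g.rho_le_deg (huz p hp).2 hzp
  · intro t ht
    obtain ⟨h1, h2, h3, h4, h5, h6⟩ := hT t ht
    refine ⟨h1, h2, ?_, ?_, ?_, ?_⟩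
    · intro p hp
      have hpp := (hsz p hp).2
      rw [if_pos hp]
      have e := hst t ht t0 ht0 p hp
      have e1 : jt P ac t p = jt P ac t0 p := congrArg Sigma.fst e
      have e2 : rs t p = rs t0 p := congrArg (fun σ : (Σ _ : J, ℕ × Bool) => σ.2.1) e
      have e3 : sg0 p ((P (jt P ac t p)).eval t / p) = (stt P ac t0 p).2.2 :=
        congrArg (fun σ : (Σ _ : J, ℕ × Bool) => σ.2.2) e
      obtain ⟨hd, hd2⟩ := hs1 t ht p hp
      obtain ⟨h7, h8⟩ := jt_spec ((dvd_fa hpp).1 hd)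
      have h9 : ¬ (p : ℤ) ^ 2 ∣ (P (jt P ac t p)).eval t := fun h' =>
        hd2 ((sq_dvd_fa g hpp (hsz p hp).1.1 h7 h8).2 h')
      have hp2 : p ^ 2 ≠ 0 := pow_ne_zero _ hpp.ne_zero
      have hm : (p : ℤ) ^ 2 ∣ t - (rs t (p ^ 2) : ℤ) := by
        have := rs_dvd t hp2
        push_cast at this
        exact this
      have hm1 : (p : ℤ) ∣ t - (rs t (p ^ 2) : ℤ) := (dvd_pow_self (p : ℤ) two_ne_zero).trans hm
      rw [mem_filter, mem_range, ← e1]
      refine ⟨rs_lt t hp2, ?_, fun h' => h9 ((dvd_eval_congr _ hm).2 h'), ?_⟩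
      · rw [rs_mod t hp2 (dvd_pow_self p two_ne_zero), e2]
      · rw [← e3]
        exact (sg0_congr _ hpp hm ((dvd_eval_congr _ hm1).1 h8)).symm
    · intro p hp
      have hpp := (hvz p hp).2
      rw [if_neg (evs p hp), if_pos hp]
      have h7 : p ∣ s2 z y (fa P ac t) := by
        rw [h5]
        exact Nat.dvd_of_mem_primeFactors hp
      have h8 := ((dvd_s2 hpp).1 h7).2.trans (fa_dvd_FF t)
      have hp2 : p ^ 2 ≠ 0 := pow_ne_zero _ hpp.ne_zero
      have hm : (p : ℤ) ^ 2 ∣ t - (rs t (p ^ 2) : ℤ) := by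
        have := rs_dvd t hp2
        push_cast at this
        exact this
      unfold Vf
      rw [mem_filter, mem_range, ← eval_FF]
      exact ⟨rs_lt t hp2, (dvd_eval_congr (FF P) hm).1 h8⟩
    · intro p hp
      have hpp := (huz p hp).2
      rw [if_neg (eus p hp), if_neg (euv p hp)]
      have h8 : (p : ℤ) ∣ (FF P).eval t :=
        ((Int.natCast_dvd_natCast.2 (Nat.dvd_of_mem_primeFactors hp)).trans h6).trans (fa_dvd_FF t)
      unfold rts
      rw [mem_filter, mem_range]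
      exact ⟨rs_lt t hpp.ne_zero, (dvd_eval_congr (FF P) (rs_dvd t hpp.ne_zero)).1 h8⟩
    · intro p hp hps hpv hd
      obtain ⟨⟨hz, hy⟩, hpp⟩ := mem_PS.1 hp
      obtain ⟨j, hj⟩ := (dvd_FF hpp t).1 hd
      cases hac : ac j with
      | false => exact h3 j hac p hpp hz (hy.trans hyX) hj
      | true =>
        have hf : (p : ℤ) ∣ fa P ac t := (dvd_fa hpp).2 ⟨j, hac, hj⟩
        by_cases h7 : (p : ℤ) ^ 2 ∣ fa P ac t
        · apply hpv
          rw [Nat.mem_primeFactors, ← h5]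
          exact ⟨hpp, (dvd_s2 hpp).2 ⟨hp, h7⟩, by rw [h5]; exact dv_ne_zero hv⟩
        · apply hps
          rw [Nat.mem_primeFactors, ← h4]
          exact ⟨hpp, (dvd_s1 hpp).2 ⟨hp, hf, h7⟩, by rw [h4]; exact dv_ne_zero hs⟩

/-- **The main estimate for integer parameters** -/
theorem main1 [Nonempty J] (h : Fm P a) (g : Gz P a z)
    (hrel : Fk P a δ q m 0 - Fk P a δ q m 1 = Fk P a δ q m 2)
    (hac : ∀ j, ac j = true → δ j = true ∨ 1 ≤ m j) {c : ℕ} (hc : c = ∑ j, (P j).natDegree)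
    (hcz : 2 * c + 2 ≤ z) {k N nE : ℕ} (hnE : N + nE = Fintype.card J) (M : ℕ)
    (C' : ℝ) (havg : ∀ y, z < y → ∑ s ∈ (PP z y).divisors, Gs (lamA k P a δ q m ac) s * gw 1 c s ≤
      C' * (Real.log y) ^ N)
    (S : ℕ → ℝ) (hS1 : ∀ X, 1 ≤ X → 1 ≤ S X) (D : ℝ) (hD : 1 ≤ D)
    (hS : ∀ X y k' : ℕ, 3 ≤ y → y ≤ X → X < (y + 1) ^ k' →
      (X : ℝ) / (Real.log y) ^ nE ≤ D ^ k' * S X) :
    ∃ C2 : ℝ, ∀ X : ℕ, 1 ≤ X → ∀ TX, Ad1 P ac z M X TX →
      ∑ t ∈ TX, ((2 : ℝ) ^ Module.finrank ℤ (EAB ((Fk P a δ q m 0).eval t)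
        ((Fk P a δ q m 1).eval t)).toAffine.Point) ^ k ≤ C2 * S X := by
  classical
  obtain ⟨C0, hC0⟩ := lower h g
  obtain ⟨C, K, y0, hC, hK, hsv⟩ := svU c (Fintype.card J) z hcz C0
  set E : ℕ := (M + 2) * (FF P).natDegree + 1 with hE
  set M0 : ℕ := ∑ i ∈ range ((FF P).natDegree + 1), ((FF P).coeff i).natAbs with hM0
  have hE1 : (1 : ℝ) ≤ 4 ^ E := one_le_pow₀ (by norm_num)
  refine coreA (Ω := ℤ) (N := N) (SpA P ac) (LSA P a δ q m) (lamA k P a δ q m ac) hcz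
    (fun p _ _ v h => lamA_eq p v h) ?_ (fun p hp hz σ hσ => xc_A g hp hz hσ) C' havg
    (fun X => (Icc (-((X : ℤ) ^ M + X)) ((X : ℤ) ^ M + X)).filter (fun t => (FF P).eval t ≠ 0))
    (Ad1 P ac z M) ?_ ?_ S hS1 (fa P ac) ?_ (stt P ac)
    (fun X t _ p hp _ hd _ => stt_mem hp hd)
    (fun t => Module.finrank ℤ (EAB ((Fk P a δ q m 0).eval t)
        ((Fk P a δ q m 1).eval t)).toAffine.Point) (4 ^ (z + 2)) (4 ^ E * D) (by positivity)
    (one_le_mul_of_one_le_of_one_le hE1 hD) C K (y0 + M0 + 3) hC hK ?_ ?_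
  · intro p hp hz
    refine (card_SpA p).trans (Nat.mul_le_mul_left _ ?_)
    rw [hc]
    exact sum_le_sum fun j _ => rho_le (P j) hp (g.lc p hp hz j)
  · rintro X TX ⟨x, hx, hTX⟩ t ht
    obtain ⟨h1, h2, h3, -⟩ := hTX t ht
    rw [mem_filter, mem_Icc]
    have hx' : |x| ≤ (X : ℤ) ^ M := by
      rw [Int.abs_eq_natAbs]
      exact_mod_cast hx
    have := abs_le.1 hx'
    exact ⟨⟨by omega, by omega⟩, h3⟩
  · intro X Y hXY t ht
    rw [mem_filter, mem_Icc] at ht ⊢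
    have h1 : (X : ℤ) ≤ Y := by exact_mod_cast hXY
    have h2 : (X : ℤ) ^ M ≤ (Y : ℤ) ^ M := pow_le_pow_left₀ (by positivity) h1 M
    exact ⟨⟨by omega, by omega⟩, ht.2⟩
  · intro X t ht
    exact fa_ne_zero (mem_filter.1 ht).2
  · rintro X y k' hy hzy hyX hXk TX ⟨x, hx, hTX⟩ t ht
    obtain ⟨h1, h2, h3, h4⟩ := hTX t ht
    have hX2 : 2 ≤ X := by omega
    have hb : t.natAbs ≤ X ^ (M + 2) := by
      have h5 : t.natAbs ≤ X ^ M + X := by omega
      have h6 : X ^ M + X ≤ X ^ (M + 2) := by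
        have h7 : X ^ M ≤ X ^ (M + 1) := Nat.pow_le_pow_right (by omega) (by omega)
        have h8 : X ≤ X ^ (M + 1) := Nat.le_self_pow (by omega) X
        calc X ^ M + X ≤ X ^ (M + 1) + X ^ (M + 1) := add_le_add h7 h8
          _ = X ^ (M + 1) * 2 := by ring
          _ ≤ X ^ (M + 1) * X := Nat.mul_le_mul_left _ hX2
          _ = _ := by ring
      exact h5.trans h6
    have hb2 : ((FF P).eval t).natAbs ≤ X ^ E := by
      refine (natAbs_evalZ (FF P) hb (Nat.one_le_pow _ _ (by omega))).trans ?_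
      rw [← hM0, hE, ← pow_mul, mul_comm, pow_succ (n := (M + 2) * (FF P).natDegree)]
      exact Nat.mul_le_mul_left _ (by omega)
    have h8 := rank1 (a := a) (q := q) h.ane g hrel hac h3 hyX hb2 (by omega) hXk h4
    refine h8.trans ?_
    refine mul_le_mul_of_nonneg_right ?_ (Nat.cast_nonneg _)
    refine mul_le_mul_of_nonneg_right ?_ (by positivity)
    refine mul_le_mul_of_nonneg_left ?_ (by positivity)
    exact pow_le_pow_left₀ (by positivity) (le_mul_of_one_le_right (by positivity) hD) _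
  · rintro X y Y k' hy hzy hyX hXk TX ⟨x, hx, hTX⟩ s v u hs hv hu hsvu hcop T' hT' hT hst
    have hyX1 : y ≤ X := le_trans (Nat.le_self_pow (by omega) y) hyX
    have hsq : SvQ (QF P) z y X c (Fintype.card J) x C := by
      intro r mm hm1 hm4 T'' hT''
      refine hsv X y (by omega) hzy hyX x r mm hm1 hm4 (QF P) (fun p => rho (FF P) p) ?_ ?_ ?_
        (hC0 y (by omega) hzy) T'' hT''
      · intro p _ n n' hnn
        unfold QF
        exact dvd_eval_congr (FF P) hnn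
      · intro p _ _
        exact card_QF p
      · intro p hp
        obtain ⟨⟨hz, -⟩, hpp⟩ := mem_PS.1 hp
        rw [hc]
        exact g.rho_le_deg hpp hz
    have h1 := cntA (a := a) g hc hcz hC hzy hyX1 hsq hs hv hu hsvu hcop T' (fun t ht => by
      obtain ⟨h2, h3, h4⟩ := hT t ht
      obtain ⟨h5, h6, -, h8⟩ := hTX t (hT' ht)
      exact ⟨h5, h6, h8, h2, h3, h4⟩) hst
    have hgs := gw_nonneg (c := c) (by omega) hs
    have hgv := gw_nonneg (c := c) (by omega) hv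
    have hl : 0 < Real.log y := Real.log_pos (by exact_mod_cast (by omega : 1 < y))
    set R : ℝ := ((1 / 2) ^ s.primeFactors.card * gw 1 c s) *
      ((c : ℝ) ^ v.primeFactors.card * (gw 1 c v / v)) *
      ((c : ℝ) ^ u.primeFactors.card / u) / (Real.log y) ^ N with hR
    have hR0 : 0 ≤ R := by
      rw [hR]
      positivity
    have h2 : (T'.card : ℝ) ≤ C * ((X : ℝ) / (Real.log y) ^ nE) * R := by
      refine h1.trans (le_of_eq ?_)
      rw [hR, ← hnE, pow_add]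
      field_simp
    have h3 : (X : ℝ) / (Real.log y) ^ nE ≤ (4 ^ E * D) ^ k' * S X := by
      refine (hS X y k' (by omega) hyX1 hXk).trans ?_
      have h4 : 0 ≤ S X := by
        have := hS1 X (by omega)
        linarith
      refine mul_le_mul_of_nonneg_right ?_ h4
      exact pow_le_pow_left₀ (by linarith) (le_mul_of_one_le_left (by linarith) hE1) _
    refine h2.trans ((mul_le_mul_of_nonneg_right (mul_le_mul_of_nonneg_left h3 hC) hR0).trans
      (le_of_eq ?_))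
    rw [hR]
    ring

end

end Pool.Agent.L0h5.TH
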