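import Pool.Agent.L0h5.TF.Sub
import Pool.Agent.L0h5.TF.Main
import Pool.Agent.L0h5.NT.ANTs

/-!
# The abstract main estimate
-/

set_option autoImplicit false
set_option linter.unusedSectionVars false

namespace Pool.Agent.L0h5.TH

open Finset Pool.Agent.W262.RK Pool.Agent.L0h5.TF
open Pool.Agent.W307.RT (S1 S2 Gd)

section

variable {Ω St : Type} {k c N z : ℕ}

lemma Gs_nn {lam : ℕ → Vk k → Vk k → ℝ} {s : ℕ}
    (h : ∀ p ∈ s.primeFactors, ∀ v h, 0 ≤ lam p v h) : 0 ≤ Gs lam s := by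
  rw [Gs_def]
  exact sum_nonneg fun D _ => prod_nonneg fun p hp => h p hp _ _

/-- the divisor of the primes that divide exactly once -/
noncomputable def s1 (z y : ℕ) (n : ℤ) : ℕ := S1 z y (fun _ : Unit => n) ()

/-- the divisor of the primes whose square divides -/
noncomputable def s2 (z y : ℕ) (n : ℤ) : ℕ := S2 z y (fun _ : Unit => n) ()

lemma dvd_s1 {z y p : ℕ} {n : ℤ} (hp : p.Prime) :
    p ∣ s1 z y n ↔ p ∈ PS z y ∧ (p : ℤ) ∣ n ∧ ¬ (p : ℤ) ^ 2 ∣ n := by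
  unfold s1 S1
  rw [prime_dvd_prodS (fun q hq => (mem_PS.1 (mem_filter.1 hq).1).2) hp, mem_filter]

lemma dvd_s2 {z y p : ℕ} {n : ℤ} (hp : p.Prime) :
    p ∣ s2 z y n ↔ p ∈ PS z y ∧ (p : ℤ) ^ 2 ∣ n := by
  unfold s2 S2
  rw [prime_dvd_prodS (fun q hq => (mem_PS.1 (mem_filter.1 hq).1).2) hp, mem_filter]

lemma s1_dvd_PP (z y : ℕ) (n : ℤ) : s1 z y n ∣ PP z y :=
  prod_dvd_prod_of_subset _ _ _ (filter_subset _ _)

open Classical in
/-- the sum of the local counts over a set of parameters -/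
lemma sum_states (Sp : ℕ → Finset St) (LS : St → ℕ → Bool → Bool → Bool → Bool → Prop)
    (lam : ℕ → Vk k → Vk k → ℝ) (s : ℕ)
    (hlam : ∀ p ∈ s.primeFactors, ∀ v h, lam p v h =
      ∑ σ ∈ Sp p, (1 / 2) * ∏ i, iL (LS σ p) (v i) (h i))
    (st : Ω → ℕ → St) (T' : Finset Ω) (hst : ∀ ω ∈ T', ∀ p ∈ s.primeFactors, st ω p ∈ Sp p)
    (Bd : ℝ) (hBd : ∀ T'' : Finset Ω, T'' ⊆ T' → (∀ ω ∈ T'', ∀ ω' ∈ T'', ∀ p ∈ s.primeFactors,
      st ω p = st ω' p) → (T''.card : ℝ) ≤ (1 / 2) ^ s.primeFactors.card * Bd) :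
    ∑ ω ∈ T', (NL s (fun p => LS (st ω p) p) : ℝ) ^ k ≤ Bd * Gs lam s := by
  set S := s.primeFactors with hS
  set Φ : Ω → (∀ p ∈ S, St) := fun ω p _ => st ω p with hΦ
  have h0 : ∀ ω ∈ T', Φ ω ∈ S.pi Sp := by
    intro ω hω
    rw [mem_pi]
    intro p hp
    exact hst ω hω p hp
  rw [← sum_fiberwise_of_maps_to h0]
  have h1 : ∀ σ ∈ S.pi Sp, ∑ ω ∈ T'.filter (fun ω => Φ ω = σ),
      (NL s (fun p => LS (st ω p) p) : ℝ) ^ k ≤
      Bd * ∑ D ∈ Dv k s, ∏ x ∈ S.attach, ((1 / 2) * ∏ i, iL (LS (σ x.1 x.2) x.1)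
          (bv x.1 D i) (bs x.1 D i)) := by
    intro σ _
    have h2 : ∀ ω ∈ T'.filter (fun ω => Φ ω = σ), (NL s (fun p => LS (st ω p) p) : ℝ) ^ k =
        ∑ D ∈ Dv k s, ∏ x ∈ S.attach, ∏ i, iL (LS (σ x.1 x.2) x.1)
          (bv x.1 D i) (bs x.1 D i) := by
      intro ω hω
      rw [mem_filter] at hω
      rw [NL_pow]
      refine sum_congr rfl fun D _ => ?_
      rw [← prod_attach]
      refine prod_congr rfl fun x _ => ?_
      rw [← hω.2]
    rw [sum_congr rfl h2, sum_const, nsmul_eq_mul]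
    have h3 : ∀ D ∈ Dv k s, ∏ x ∈ S.attach, ((1 / 2 : ℝ) * ∏ i, iL (LS (σ x.1 x.2) x.1)
          (bv x.1 D i) (bs x.1 D i)) = (1 / 2) ^ S.card * ∏ x ∈ S.attach,
          ∏ i, iL (LS (σ x.1 x.2) x.1) (bv x.1 D i) (bs x.1 D i) := by
      intro D _
      rw [prod_mul_distrib, prod_const, card_attach]
    rw [sum_congr rfl h3, ← mul_sum, ← mul_assoc, mul_comm Bd]
    refine mul_le_mul_of_nonneg_right ?_ (sum_nonneg fun D _ => prod_nonneg fun x _ =>
      prod_nonneg fun i _ => iL_nonneg _ _ _)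
    refine hBd _ (filter_subset _ _) ?_
    intro ω hω ω' hω' p hp
    rw [mem_filter] at hω hω'
    have h4 : Φ ω = Φ ω' := hω.2.trans hω'.2.symm
    exact congrFun (congrFun h4 p) hp
  refine (sum_le_sum h1).trans (le_of_eq ?_)
  rw [← mul_sum, sum_comm, Gs_def]
  congr 1
  refine sum_congr rfl fun D _ => ?_
  rw [prod_congr rfl fun p hp => hlam p hp (bv p D) (bs p D)]
  exact (prod_sum S Sp fun p σ => (1 / 2) * ∏ i, iL (LS σ p) (bv p D i) (bs p D i)).symm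

/-- **The abstract main estimate** -/
theorem coreA (Sp : ℕ → Finset St) (LS : St → ℕ → Bool → Bool → Bool → Bool → Prop)
    (lam : ℕ → Vk k → Vk k → ℝ) (hcz : 2 * c + 2 ≤ z)
    (hlam : ∀ p, p.Prime → z < p → ∀ v h, lam p v h =
      ∑ σ ∈ Sp p, (1 / 2) * ∏ i, iL (LS σ p) (v i) (h i))
    (hSp : ∀ p, p.Prime → z < p → (Sp p).card ≤ 2 * c)
    (hXC : ∀ p, p.Prime → z < p → ∀ σ ∈ Sp p, XC (LS σ p))
    (C' : ℝ) (havg : ∀ y, z < y → ∑ s ∈ (PP z y).divisors, Gs lam s * gw 1 c s ≤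
      C' * (Real.log y) ^ N)
    (T : ℕ → Finset Ω) (Ad : ℕ → Finset Ω → Prop) (hAd : ∀ X TX, Ad X TX → TX ⊆ T X)
    (hTT : ∀ X Y, X ≤ Y → T X ⊆ T Y) (S : ℕ → ℝ) (hS1 : ∀ X, 1 ≤ X → 1 ≤ S X)
    (f : Ω → ℤ) (hf0 : ∀ X, ∀ ω ∈ T X, f ω ≠ 0) (st : Ω → ℕ → St)
    (hst : ∀ X, ∀ ω ∈ T X, ∀ p, p.Prime → z < p → (p : ℤ) ∣ f ω → ¬ (p : ℤ) ^ 2 ∣ f ω →
      st ω p ∈ Sp p)
    (rk : Ω → ℕ) (D0 D1 : ℝ) (hD0 : 0 ≤ D0) (hD1 : 1 ≤ D1) (C : ℝ) (K y0 : ℕ) (hC : 0 ≤ C)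
    (hK : 1 ≤ K)
    (hrank : ∀ X y k' : ℕ, y0 ≤ y → z < y → y ≤ X → X < (y + 1) ^ k' → ∀ TX, Ad X TX → ∀ ω ∈ TX,
      (2 : ℝ) ^ rk ω ≤ D0 * D1 ^ k' * 4 ^ (s2 z y (f ω)).primeFactors.card *
        (NL (s1 z y (f ω)) (fun p => LS (st ω p) p) : ℝ))
    (hcnt : ∀ X y Y k' : ℕ, y0 ≤ y → z < y → y ^ K ≤ X → X < (y + 1) ^ k' → ∀ TX, Ad X TX →
      ∀ s v u : ℕ, s ∈ (PP z y).divisors → v ∈ (PP z y).divisors → u ∈ (PP y Y).divisors →
      (s * v * u) ^ 8 ≤ X → s.Coprime v → ∀ T' : Finset Ω, T' ⊆ TX →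
      (∀ ω ∈ T', s1 z y (f ω) = s ∧ s2 z y (f ω) = v ∧ (u : ℤ) ∣ f ω) →
      (∀ ω ∈ T', ∀ ω' ∈ T', ∀ p ∈ s.primeFactors, st ω p = st ω' p) →
      (T'.card : ℝ) ≤ C * D1 ^ k' * S X * ((1 / 2) ^ s.primeFactors.card * gw 1 c s) *
        ((c : ℝ) ^ v.primeFactors.card * (gw 1 c v / v)) *
        ((c : ℝ) ^ u.primeFactors.card / u) / (Real.log y) ^ N) :
    ∃ C2 : ℝ, ∀ X : ℕ, 1 ≤ X → ∀ TX, Ad X TX → ∑ ω ∈ TX, ((2 : ℝ) ^ rk ω) ^ k ≤ C2 * S X := by
  classical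
  set b : ℝ := 4 ^ k * (c : ℝ) with hb
  have hb0 : 0 ≤ b := by positivity
  have hcb : (c : ℝ) ≤ b := by
    rw [hb]
    have h1 : (1 : ℝ) ≤ 4 ^ k := one_le_pow₀ (by norm_num)
    exact le_mul_of_one_le_left (Nat.cast_nonneg _) h1
  have hD10 : 0 ≤ D1 := by linarith
  set lam' : ℕ → Vk k → Vk k → ℝ := fun p v h => if z < p then lam p v h else 0 with hlam'
  have hlnn : ∀ p, p.Prime → z < p → ∀ v h, 0 ≤ lam p v h := by
    intro p hp hzp v h
    rw [hlam p hp hzp]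
    exact sum_nonneg fun σ _ => mul_nonneg (by norm_num) (prod_nonneg fun i _ => iL_nonneg _ _ _)
  have hl'nn : ∀ (s p : ℕ), p ∈ s.primeFactors → ∀ v h, 0 ≤ lam' p v h := by
    intro s p hp v h
    rw [hlam']
    simp only
    split_ifs with h1
    · exact hlnn p (Nat.prime_of_mem_primeFactors hp) h1 v h
    · exact le_rfl
  have hGG : ∀ y s, s ∈ (PP z y).divisors → Gs lam' s = Gs lam s := by
    intro y s hs
    rw [Gs_def, Gs_def]
    refine sum_congr rfl fun D _ => prod_congr rfl fun p hp => ?_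
    have h1 := (dv_prime hs (Nat.prime_of_mem_primeFactors hp) (Nat.dvd_of_mem_primeFactors hp)).1
    rw [hlam']
    simp only [h1, if_true]
  refine Pool.Agent.L0h5.NT.ant_s Unit Ω T (fun ω _ => f ω) S z c N
    (fun s => Gs lam' (s ())) (fun ω => ((2 : ℝ) ^ rk ω) ^ k) b (C * D0 ^ k) C'
    (D1 * D1 ^ k) K y0 Ad hAd hb0 hcz hTT hS1 ?_ (fun s => Gs_nn fun p hp v h => hl'nn _ p hp v h)
    (fun ω => by positivity) (by positivity) (one_le_mul_of_one_le_of_one_le hD1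
      (one_le_pow₀ hD1)) hK ?_ ?_ ?_
  · intro X ω hω
    exact ⟨fun _ => hf0 X ω hω, fun p _ _ j l hjl => absurd (Subsingleton.elim j l) hjl⟩
  · intro y _ s e hse
    have h1 := mem_TupU.1 hse
    simp only [univ_unique, sum_singleton]
    show Gs lam' (s () * e ()) ≤ b ^ (e ()).primeFactors.card * Gs lam' (s ())
    have hPS : ∀ p : ℕ, p.Prime → p ∣ s () * e () → z < p := fun p hp h => (dv_prime h1 hp h).1
    refine sub_abs Sp LS lam' c (s ()) (e ()) (dv_squarefree h1) ?_ ?_ ?_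
    · intro p hp hd v h
      rw [hlam']
      simp only [hPS p hp hd, if_true]
      exact hlam p hp (hPS p hp hd) v h
    · intro p hp hd
      have h2 : ((Sp p).card : ℝ) ≤ 2 * c := by
        exact_mod_cast hSp p hp (hPS p hp (hd.trans (Dvd.intro_left _ rfl)))
      linarith
    · intro p hp hd
      exact hXC p hp (hPS p hp (hd.trans (Dvd.intro _ rfl)))
  · intro y hy
    have h1 := sum_TupU (z := z) (y := y) fun s => Gs lam' s * gw 1 c s
    simp only [univ_unique, prod_singleton]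
    refine le_trans (le_of_eq h1) ?_
    refine le_trans (le_of_eq (sum_congr rfl fun s hs => ?_)) (havg y hy)
    rw [hGG y s hs]
  · intro X y Y k' hy hzy hyX hXk TX hTX s hs v hv u hu hsvu T' hT' hT
    have hs' := mem_TupU.1 hs
    have hv' := mem_TupU.1 hv
    have hu' := mem_TupU.1 hu
    simp only [univ_unique, prod_singleton] at hsvu ⊢
    have hX1 : 1 ≤ X := (Nat.one_le_pow _ _ (by omega)).trans hyX
    have hTT' : ∀ ω ∈ T', s1 z y (f ω) = s () ∧ s2 z y (f ω) = v () ∧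
        ((u () : ℕ) : ℤ) ∣ f ω := by
      intro ω hω
      obtain ⟨h1, h2, h3⟩ := hT ω hω
      exact ⟨congrFun h1 (), congrFun h2 (), h3 ()⟩
    have hgs := gw_nonneg (c := c) (by omega) hs'
    have hgv := gw_nonneg (c := c) (by omega) hv'
    have hlog : 0 ≤ (Real.log y) ^ N := pow_nonneg (Real.log_natCast_nonneg y) _
    have hG : 0 ≤ Gs lam' (s ()) := Gs_nn fun p hp v h => hl'nn _ p hp v h
    have hS0 : 0 ≤ S X := by
      have := hS1 X hX1
      linarith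
    rcases T'.eq_empty_or_nonempty with hE | ⟨ω0, hω0⟩
    · rw [hE, sum_empty]
      positivity
    have hcop : (s ()).Coprime (v ()) := by
      obtain ⟨h1, h2, -⟩ := hTT' ω0 hω0
      apply Nat.coprime_of_dvd
      intro p hp hps hpv
      rw [← h1, dvd_s1 hp] at hps
      rw [← h2, dvd_s2 hp] at hpv
      exact hps.2.2 hpv.2
    -- the sum of the local counts
    set Bd : ℝ := C * D1 ^ k' * S X * gw 1 c (s ()) *
        ((c : ℝ) ^ (v ()).primeFactors.card * (gw 1 c (v ()) / (v () : ℕ))) *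
        ((c : ℝ) ^ (u ()).primeFactors.card / (u () : ℕ)) / (Real.log y) ^ N with hBd
    have hBd0 : 0 ≤ Bd := by positivity
    have h1 := sum_states Sp LS lam (s ()) (fun p hp => hlam p (Nat.prime_of_mem_primeFactors hp)
        (dv_prime hs' (Nat.prime_of_mem_primeFactors hp) (Nat.dvd_of_mem_primeFactors hp)).1)
      st T' (fun ω hω p hp => by
        have hp1 := Nat.prime_of_mem_primeFactors hp
        have hp2 := Nat.dvd_of_mem_primeFactors hp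
        rw [← (hTT' ω hω).1] at hp2
        obtain ⟨h3, h4, h5⟩ := (dvd_s1 hp1).1 hp2
        exact hst X ω (hAd X TX hTX (hT' hω)) p hp1 (mem_PS.1 h3).1.1 h4 h5) Bd
      (fun T'' hT'' hc => by
        refine (hcnt X y Y k' hy hzy hyX hXk TX hTX (s ()) (v ()) (u ()) hs' hv' hu' hsvu hcop T''
          (hT''.trans hT') (fun ω hω => hTT' ω (hT'' hω)) hc).trans (le_of_eq ?_)
        rw [hBd]
        ring)
    have hR : ∀ ω ∈ T', ((2 : ℝ) ^ rk ω) ^ k ≤ (D0 ^ k * (D1 ^ k) ^ k' *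
        (4 ^ k) ^ (v ()).primeFactors.card) *
          (NL (s ()) (fun p => LS (st ω p) p) : ℝ) ^ k := by
      intro ω hω
      obtain ⟨h3, h4, h5⟩ := hTT' ω hω
      have h8 := hrank X y k' hy hzy ((Nat.le_self_pow (by omega) y).trans hyX) hXk TX hTX ω
        (hT' hω)
      rw [h3, h4] at h8
      refine (pow_le_pow_left₀ (by positivity) h8 k).trans (le_of_eq ?_)
      rw [mul_pow, mul_pow, mul_pow]
      congr 1
      congr 1
      · congr 1
        rw [← pow_mul, ← pow_mul, mul_comm]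
      · rw [← pow_mul, ← pow_mul, mul_comm]
    refine (sum_le_sum hR).trans ?_
    rw [← mul_sum]
    have h2 : (0 : ℝ) ≤ D0 ^ k * (D1 ^ k) ^ k' * (4 ^ k) ^ (v ()).primeFactors.card := by
      positivity
    refine (mul_le_mul_of_nonneg_left h1 h2).trans ?_
    rw [← hGG y (s ()) hs', hBd]
    have hcu : (c : ℝ) ^ (u ()).primeFactors.card / (u () : ℝ) ≤
        b ^ (u ()).primeFactors.card / (u () : ℝ) := by
      apply div_le_div_of_nonneg_right _ (Nat.cast_nonneg _)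
      exact pow_le_pow_left₀ (Nat.cast_nonneg _) hcb _
    have hbv : b ^ (v ()).primeFactors.card =
        (4 ^ k) ^ (v ()).primeFactors.card * (c : ℝ) ^ (v ()).primeFactors.card := by
      rw [hb, mul_pow]
    rw [hbv]
    have h3 : 0 ≤ C * D0 ^ k * (D1 * D1 ^ k) ^ k' * S X *
        (Gs lam' (s ()) * gw 1 c (s ())) * ((4 ^ k) ^ (v ()).primeFactors.card *
          (c : ℝ) ^ (v ()).primeFactors.card * (gw 1 c (v ()) / (v () : ℝ))) := by positivity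
    have h4 := div_le_div_of_nonneg_right (mul_le_mul_of_nonneg_left hcu h3) hlog
    refine le_trans (le_of_eq ?_) h4
    rw [mul_pow D1]
    ring

end

end Pool.Agent.L0h5.TH
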