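import Pool.Agent.L0h5.TH.LocG3
import Pool.Agent.L0h5.TH.CrtU
import Pool.Agent.L0h5.TF.Fam

/-!
# Families with multiplicities
-/

set_option autoImplicit false
set_option linter.unusedSectionVars false

namespace Pool.Agent.L0h5.TH

open Finset Polynomial Pool.Agent.W262.RK Pool.Agent.L0h5.TF Pool.Agent.L0h5.MR

lemma sg0_mulp {p : ℕ} (hp : p.Prime) {a b : ℤ} (ha : ¬ (p : ℤ) ∣ a) (hb : ¬ (p : ℤ) ∣ b) :
    sg0 p (a * b) = xor (sg0 p a) (sg0 p b) := by
  have : Fact p.Prime := ⟨hp⟩
  exact Pool.Agent.W342.RK2.sg0_mul ha hb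

lemma sg0_negp {p : ℕ} (hp : p.Prime) {a : ℤ} (ha : ¬ (p : ℤ) ∣ a) :
    sg0 p (-a) = xor (sg0 p (-1)) (sg0 p a) := by
  have : Fact p.Prime := ⟨hp⟩
  exact Pool.Agent.W342.RK2.sg0_neg ha

lemma sg0_congrp {p : ℕ} {a b : ℤ} (h : (p : ℤ) ∣ a - b) : sg0 p a = sg0 p b := by
  unfold sg0
  have h1 : a % p = b % p := ((Int.modEq_iff_dvd).2 (by rw [← neg_sub]; exact h.neg_right))
  rw [jacobiSym.mod_left a, jacobiSym.mod_left b, h1]

lemma unit_mul {p : ℕ} (hp : p.Prime) {a b : ℤ} (ha : ¬ (p : ℤ) ∣ a) (hb : ¬ (p : ℤ) ∣ b) :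
    ¬ (p : ℤ) ∣ a * b := fun h =>
  ((Nat.prime_iff_prime_int.1 hp).dvd_or_dvd h).elim ha hb

lemma unit_pow {p : ℕ} (hp : p.Prime) {a : ℤ} (ha : ¬ (p : ℤ) ∣ a) (n : ℕ) :
    ¬ (p : ℤ) ∣ a ^ n := fun h => ha ((Nat.prime_iff_prime_int.1 hp).dvd_of_dvd_pow h)

lemma sg0_powp {p : ℕ} (hp : p.Prime) {a : ℤ} (ha : ¬ (p : ℤ) ∣ a) (n : ℕ) :
    sg0 p (a ^ n) = (decide (Odd n) && sg0 p a) := by
  have h1 : sg0 p 1 = false := by simp [sg0]
  induction n with
  | zero => simp [h1]
  | succ n ih =>
    rw [pow_succ, sg0_mulp hp (unit_pow hp ha n) ha, ih, dodd]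
    have : decide (Odd 1) = true := by decide
    rw [this]
    generalize decide (Odd n) = o
    generalize sg0 p a = s
    revert o s
    decide

section

variable {J : Type} [Fintype J] [DecidableEq J]

/-- the multiplicities -/
def mu (δ : J → Bool) (q : J → Fin 3) (m : J → ℕ) (k : Fin 3) (l : J) : ℕ :=
  (if δ l = true then 1 else 0) + (if q l = k then m l else 0)

/-- the polynomials of the family -/
noncomputable def Fk (P : J → ℤ[X]) (a : Fin 3 → ℤ) (δ : J → Bool) (q : J → Fin 3) (m : J → ℕ)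
    (k : Fin 3) : ℤ[X] := C (a k) * ∏ l, P l ^ mu δ q m k l

/-- the cofactors -/
noncomputable def cof (P : J → ℤ[X]) (a : Fin 3 → ℤ) (δ : J → Bool) (q : J → Fin 3) (m : J → ℕ)
    (k : Fin 3) (j : J) : ℤ[X] := C (a k) * ∏ l ∈ univ.erase j, P l ^ mu δ q m k l

/-- the class -/
def clsG (δ : J → Bool) (q : J → Fin 3) (j : J) : Fin 4 := if δ j = true then 3 else (q j).castSucc

/-- even multiplicity -/
def evG (m : J → ℕ) (j : J) : Bool := decide (Even (m j))

/-- the polynomial whose values are the constants -/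
noncomputable def kapQ (P : J → ℤ[X]) (a : Fin 3 → ℤ) (δ : J → Bool) (q : J → Fin 3) (m : J → ℕ)
    (j : J) (k : Fin 3) : ℤ[X] :=
  if δ j = true then cof P a δ q m k j * (if q j = k ∧ Odd (m j) then
    (if k = 0 then cof P a δ q m 1 j else if k = 1 then cof P a δ q m 0 j
      else -cof P a δ q m 0 j) else 1)
  else if q j = 0 then -Fk P a δ q m 1 else if q j = 1 then -Fk P a δ q m 0
    else Fk P a δ q m 0

/-- the constants -/
noncomputable def kapG (P : J → ℤ[X]) (a : Fin 3 → ℤ) (δ : J → Bool) (q : J → Fin 3) (m : J → ℕ)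
    (j : J) (r : ℕ) (k : Fin 3) : ℤ := (kapQ P a δ q m j k).eval (r : ℤ)

variable {P : J → ℤ[X]} {a : Fin 3 → ℤ} {δ : J → Bool} {q : J → Fin 3} {m : J → ℕ} {z : ℕ}

lemma cof_unit (g : Gz P a z) {p : ℕ} (hp : p.Prime) (hz : z < p) {j : J} {r : ℤ}
    (h : (p : ℤ) ∣ (P j).eval r) (k : Fin 3) : ¬ (p : ℤ) ∣ (cof P a δ q m k j).eval r := by
  unfold cof
  rw [eval_mul, eval_C, eval_prod]
  refine unit_mul hp (g.ak p hp hz k) ?_
  rw [(Nat.prime_iff_prime_int.1 hp).dvd_finsetProd_iff]
  rintro ⟨l, hl, hd⟩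
  rw [eval_pow] at hd
  exact g.cop p hp hz j l (ne_of_mem_erase hl).symm r h
    ((Nat.prime_iff_prime_int.1 hp).dvd_of_dvd_pow hd)

lemma Fk_eq (j : J) (k : Fin 3) (r : ℤ) : (Fk P a δ q m k).eval r =
    (P j).eval r ^ mu δ q m k j * (cof P a δ q m k j).eval r := by
  unfold Fk cof
  rw [eval_mul, eval_C, eval_prod, eval_mul, eval_C, eval_prod,
    ← mul_prod_erase univ (fun l => (P l ^ mu δ q m k l).eval r) (mem_univ j), eval_pow]
  ring

lemma Fk_unit (g : Gz P a z) {p : ℕ} (hp : p.Prime) (hz : z < p) {j : J} {r : ℤ}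
    (h : (p : ℤ) ∣ (P j).eval r) {k : Fin 3} (hk : mu δ q m k j = 0) :
    ¬ (p : ℤ) ∣ (Fk P a δ q m k).eval r := by
  rw [Fk_eq j, hk, pow_zero, one_mul]
  exact cof_unit g hp hz h k

lemma kapG_unit (g : Gz P a z) {p : ℕ} (hp : p.Prime) (hz : z < p) {j : J} {r : ℤ}
    (h : (p : ℤ) ∣ (P j).eval r) (k : Fin 3) : ¬ (p : ℤ) ∣ (kapQ P a δ q m j k).eval r := by
  unfold kapQ
  by_cases hδ : δ j = true
  · rw [if_pos hδ, eval_mul]
    refine unit_mul hp (cof_unit g hp hz h k) ?_
    split_ifs
    · exact cof_unit g hp hz h 1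
    · exact cof_unit g hp hz h 0
    · rw [eval_neg, dvd_neg]
      exact cof_unit g hp hz h 0
    · rw [eval_one]
      intro hd
      have h1 : p ∣ 1 := by exact_mod_cast hd
      exact hp.one_lt.ne' (Nat.dvd_one.1 h1)
  · rw [if_neg hδ]
    have hmu : ∀ k, q j ≠ k → mu δ q m k j = 0 := by
      intro k hk
      unfold mu
      rw [if_neg hδ, if_neg hk]
    split_ifs with h0 h1
    · rw [eval_neg, dvd_neg]
      exact Fk_unit g hp hz h (hmu 1 (by rw [h0]; decide))
    · rw [eval_neg, dvd_neg]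
      exact Fk_unit g hp hz h (hmu 0 (by rw [h1]; decide))
    · exact Fk_unit g hp hz h (hmu 0 h0)

lemma jac_selfp {p : ℕ} (hp : p.Prime) {x x' : ℤ} (hx : ¬ (p : ℤ) ∣ x) (h : (p : ℤ) ∣ x - x') :
    jacobiSym (x' * x) p = 1 := by
  rw [jacobiSym.mul_left]
  exact jac_self hp hx h

/-- the local hypotheses hold -/
lemma locE_fam (g : Gz P a z) (hrel : Fk P a δ q m 0 - Fk P a δ q m 1 = Fk P a δ q m 2) {p : ℕ}
    (hp : p.Prime) (hz : z < p) {j : J} (hact : δ j = true ∨ 1 ≤ m j) {t : ℤ} {r : ℕ}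
    (hr : (p : ℤ) ∣ t - r) (h : (p : ℤ) ∣ (P j).eval t) (h2 : ¬ (p : ℤ) ^ 2 ∣ (P j).eval t) :
    LocE (clsG δ q j) (evG m j) (kapG P a δ q m j r) (sg0 p ((P j).eval t / p)) p
      ((Fk P a δ q m 0).eval t) ((Fk P a δ q m 1).eval t) := by
  have hrel' : (Fk P a δ q m 0).eval t - (Fk P a δ q m 1).eval t =
      (Fk P a δ q m 2).eval t := by
    rw [← hrel, eval_sub]
  have hp0 : (p : ℤ) ≠ 0 := by exact_mod_cast hp.ne_zero
  obtain ⟨n0, hn0⟩ := h
  have hn0u : ¬ (p : ℤ) ∣ n0 := by
    rintro ⟨w, rfl⟩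
    apply h2
    rw [hn0]
    exact ⟨w, by ring⟩
  have hdiv : (P j).eval t / p = n0 := by rw [hn0, Int.mul_ediv_cancel_left _ hp0]
  have h : (p : ℤ) ∣ (P j).eval t := ⟨n0, hn0⟩
  rw [hdiv]
  have hcu := fun k => cof_unit (δ := δ) (q := q) (m := m) g hp hz h k
  have hF : ∀ k, (Fk P a δ q m k).eval t =
      p ^ mu δ q m k j * (n0 ^ mu δ q m k j * (cof P a δ q m k j).eval t) := by
    intro k
    rw [Fk_eq j, hn0, mul_pow]
    ring
  have hcr : ∀ G : ℤ[X], (p : ℤ) ∣ G.eval t - G.eval (r : ℤ) := fun G =>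
    TF.dvd_eval_sub G hr
  unfold LocE clsG
  by_cases hδ : δ j = true
  · -- additive
    rw [if_pos hδ, if_pos rfl]
    have hmu : ∀ k, mu δ q m k j = 1 + if q j = k then m j else 0 := by
      intro k
      unfold mu
      rw [if_pos hδ]
    have hsc : ∀ k, sg0 p ((cof P a δ q m k j).eval (r : ℤ)) = sg0 p ((cof P a δ q m k j).eval t) :=
      fun k => (sg0_congrp (hcr _)).symm
    have hur : ∀ k, ¬ (p : ℤ) ∣ (cof P a δ q m k j).eval (r : ℤ) := by
      intro k hd
      exact hcu k (by
        have := dvd_add hd (hcr (cof P a δ q m k j))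
        simpa using this)
    have hsα : ∀ k, sg0 p (n0 ^ mu δ q m k j * (cof P a δ q m k j).eval t) =
        xor (decide (Odd (mu δ q m k j)) && sg0 p n0) (sg0 p ((cof P a δ q m k j).eval t)) := by
      intro k
      rw [sg0_mulp hp (unit_pow hp hn0u _) (hcu k), sg0_powp hp hn0u]
    have hodd : ∀ k, decide (Odd (mu δ q m k j)) = !(decide (q j = k) && decide (Odd (m j))) := by
      intro k
      rw [hmu k, dodd]
      have h1 : decide (Odd 1) = true := by decide
      rw [h1]
      by_cases hk : q j = k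
      · rw [if_pos hk, decide_eq_true hk]
        generalize decide (Odd (m j)) = o
        revert o
        decide
      · rw [if_neg hk, decide_eq_false hk]
        simp
    refine ⟨q j, m j, n0 ^ mu δ q m 0 j * (cof P a δ q m 0 j).eval t,
      n0 ^ mu δ q m 1 j * (cof P a δ q m 1 j).eval t,
      n0 ^ mu δ q m 2 j * (cof P a δ q m 2 j).eval t, unit_mul hp (unit_pow hp hn0u _) (hcu 0),
      unit_mul hp (unit_pow hp hn0u _) (hcu 1), unit_mul hp (unit_pow hp hn0u _) (hcu 2), ?_, ?_,
      ?_, ?_, ?_, ?_⟩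
    · rw [← hmu 0]
      exact hF 0
    · rw [← hmu 1]
      exact hF 1
    · rw [hrel', ← hmu 2]
      exact hF 2
    · rw [hsα 0, hsα 1, hodd, hodd]
      unfold kapG kapQ
      rw [if_pos hδ, eval_mul]
      by_cases hq : q j = 0
      · by_cases ho : Odd (m j)
        · rw [if_pos ⟨hq, ho⟩, if_pos rfl, sg0_mulp hp (hur 0) (hur 1), hsc, hsc, hq,
            decide_eq_true ho]
          generalize sg0 p n0 = s0
          generalize sg0 p ((cof P a δ q m 0 j).eval t) = s1
          generalize sg0 p ((cof P a δ q m 1 j).eval t) = s2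
          revert s0 s1 s2
          decide
        · rw [if_neg (fun h' => ho h'.2), eval_one, mul_one, hsc, hq, decide_eq_false ho]
          generalize sg0 p n0 = s0
          generalize sg0 p ((cof P a δ q m 0 j).eval t) = s1
          generalize sg0 p ((cof P a δ q m 1 j).eval t) = s2
          revert s0 s1 s2
          decide
      · rw [if_neg (fun h' => hq h'.1), eval_one, mul_one, hsc, decide_eq_false hq]
        generalize sg0 p n0 = s0
        generalize sg0 p ((cof P a δ q m 0 j).eval t) = s1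
        generalize sg0 p ((cof P a δ q m 1 j).eval t) = s2
        generalize decide (q j = 1) = s3
        generalize decide (Odd (m j)) = s5
        revert s0 s1 s2 s3 s5
        decide
    · rw [hsα 0, hsα 1, hodd, hodd]
      unfold kapG kapQ
      rw [if_pos hδ, eval_mul]
      by_cases hq : q j = 1
      · by_cases ho : Odd (m j)
        · rw [if_pos ⟨hq, ho⟩, if_neg (by decide), if_pos rfl, sg0_mulp hp (hur 1) (hur 0), hsc,
            hsc, hq, decide_eq_true ho]
          generalize sg0 p n0 = s0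
          generalize sg0 p ((cof P a δ q m 0 j).eval t) = s1
          generalize sg0 p ((cof P a δ q m 1 j).eval t) = s2
          revert s0 s1 s2
          decide
        · rw [if_neg (fun h' => ho h'.2), eval_one, mul_one, hsc, hq, decide_eq_false ho]
          generalize sg0 p n0 = s0
          generalize sg0 p ((cof P a δ q m 0 j).eval t) = s1
          generalize sg0 p ((cof P a δ q m 1 j).eval t) = s2
          revert s0 s1 s2
          decide
      · rw [if_neg (fun h' => hq h'.1), eval_one, mul_one, hsc, decide_eq_false hq]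
        generalize sg0 p n0 = s0
        generalize sg0 p ((cof P a δ q m 0 j).eval t) = s1
        generalize sg0 p ((cof P a δ q m 1 j).eval t) = s2
        generalize decide (q j = 0) = s3
        generalize decide (Odd (m j)) = s5
        revert s0 s1 s2 s3 s5
        decide
    · rw [hsα 0, hsα 2, hodd, hodd]
      unfold kapG kapQ
      rw [if_pos hδ, eval_mul]
      by_cases hq : q j = 2
      · by_cases ho : Odd (m j)
        · rw [if_pos ⟨hq, ho⟩, if_neg (by decide), if_neg (by decide), eval_neg,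
            sg0_mulp hp (hur 2) (by rw [dvd_neg]; exact hur 0), sg0_negp hp (hur 0), hsc,
            hsc, hq, decide_eq_true ho]
          generalize sg0 p n0 = s0
          generalize sg0 p (-1) = s3
          generalize sg0 p ((cof P a δ q m 0 j).eval t) = s1
          generalize sg0 p ((cof P a δ q m 2 j).eval t) = s2
          revert s0 s1 s2 s3
          decide
        · rw [if_neg (fun h' => ho h'.2), eval_one, mul_one, hsc, hq, decide_eq_false ho]
          generalize sg0 p n0 = s0
          generalize sg0 p (-1) = s3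
          generalize sg0 p ((cof P a δ q m 0 j).eval t) = s1
          generalize sg0 p ((cof P a δ q m 2 j).eval t) = s2
          revert s0 s1 s2 s3
          decide
      · rw [if_neg (fun h' => hq h'.1), eval_one, mul_one, hsc, decide_eq_false hq]
        generalize sg0 p n0 = s0
        generalize sg0 p (-1) = s4
        generalize sg0 p ((cof P a δ q m 0 j).eval t) = s1
        generalize sg0 p ((cof P a δ q m 2 j).eval t) = s2
        generalize decide (q j = 0) = s3
        generalize decide (Odd (m j)) = s5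
        revert s0 s1 s2 s3 s4 s5
        decide
  · -- multiplicative
    have hm : 1 ≤ m j := hact.resolve_left hδ
    rw [if_neg hδ]
    have h3 : (q j).castSucc ≠ 3 := by
      intro h'
      have := congrArg Fin.val h'
      simp at this
      have := (q j).isLt
      omega
    rw [if_neg h3]
    have hmu1 : mu δ q m (q j) j = m j := by
      unfold mu
      rw [if_neg hδ, if_pos rfl, zero_add]
    have hmu0 : ∀ k, q j ≠ k → mu δ q m k j = 0 := by
      intro k hk
      unfold mu
      rw [if_neg hδ, if_neg hk]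
    have hdvd : (p : ℤ) ∣ (Fk P a δ q m (q j)).eval t := by
      rw [hF (q j), hmu1]
      exact (dvd_pow_self _ (by omega)).mul_right _
    have hval : padicValInt p ((Fk P a δ q m (q j)).eval t) = m j := by
      have : Fact p.Prime := ⟨hp⟩
      rw [hF (q j), hmu1]
      have hu : ¬ (p : ℤ) ∣ n0 ^ m j * (cof P a δ q m (q j) j).eval t :=
        unit_mul hp (unit_pow hp hn0u _) (hcu _)
      have hu0 : n0 ^ m j * (cof P a δ q m (q j) j).eval t ≠ 0 := by
        intro h'
        exact hu (by rw [h']; exact dvd_zero _)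
      rw [padicValInt.mul (pow_ne_zero _ hp0) hu0, padicValInt.eq_zero_of_not_dvd hu, add_zero]
      have h' : ((p : ℤ) ^ m j) = ((p ^ m j : ℕ) : ℤ) := by push_cast; rfl
      rw [h', padicValInt.of_nat, padicValNat.prime_pow]
    have hunit := fun k hk => Fk_unit (δ := δ) (q := q) (m := m) g hp hz h (k := k) (hmu0 k hk)
    unfold evG kapG kapQ
    rw [if_neg hδ]
    have h4 : q j = 0 ∨ q j = 1 ∨ q j = 2 := by
      generalize q j = w
      revert w
      decide
    rcases h4 with h4 | h4 | h4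
    · rw [h4] at hdvd hval hunit ⊢
      rw [if_pos (by rfl), if_pos rfl]
      refine ⟨hdvd, hunit 1 (by decide), ?_, by rw [hval]⟩
      rw [eval_neg, neg_mul_neg]
      exact jac_selfp hp (hunit 1 (by decide)) (hcr _)
    · rw [h4] at hdvd hval hunit ⊢
      rw [if_neg (by decide), if_pos (by rfl), if_neg (by decide), if_pos rfl]
      refine ⟨hdvd, hunit 0 (by decide), ?_, by rw [hval]⟩
      rw [eval_neg, neg_mul_neg]
      exact jac_selfp hp (hunit 0 (by decide)) (hcr _)
    · rw [h4] at hdvd hval hunit ⊢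
      rw [if_neg (by decide), if_neg (by decide), if_neg (by decide), if_neg (by decide), hrel']
      refine ⟨hdvd, hunit 0 (by decide), ?_, by rw [hval]⟩
      exact jac_selfp hp (hunit 0 (by decide)) (hcr _)

end

end Pool.Agent.L0h5.TH
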