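import Pool.Agent.L0h5.TH.RankA
import Pool.Agent.L0h5.TH.FamG

/-!
# Integer parameters: the active factors and the states
-/

set_option autoImplicit false
set_option linter.unusedSectionVars false

namespace Pool.Agent.L0h5.TH

open Finset Polynomial Pool.Agent.W262.RK Pool.Agent.L0h5.TF Pool.Agent.L0h5.MR

section

variable {J : Type} [Fintype J] [DecidableEq J] {P : J → ℤ[X]} {a : Fin 3 → ℤ} {δ : J → Bool}
  {q : J → Fin 3} {m : J → ℕ} {z : ℕ} {ac : J → Bool}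

/-- the product over the active factors -/
noncomputable def fa (P : J → ℤ[X]) (ac : J → Bool) (t : ℤ) : ℤ :=
  ∏ j ∈ univ.filter (fun j => ac j = true), (P j).eval t

lemma dvd_fa {p : ℕ} (hp : p.Prime) {t : ℤ} :
    (p : ℤ) ∣ fa P ac t ↔ ∃ j, ac j = true ∧ (p : ℤ) ∣ (P j).eval t := by
  unfold fa
  rw [(Nat.prime_iff_prime_int.1 hp).dvd_finsetProd_iff]
  simp

lemma sq_dvd_fa (g : Gz P a z) {p : ℕ} (hp : p.Prime) (hz : z < p) {j : J} (hj : ac j = true)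
    {t : ℤ} (h : (p : ℤ) ∣ (P j).eval t) :
    (p : ℤ) ^ 2 ∣ fa P ac t ↔ (p : ℤ) ^ 2 ∣ (P j).eval t := by
  unfold fa
  rw [← mul_prod_erase _ (fun l => (P l).eval t) (mem_filter.2 ⟨mem_univ j, hj⟩)]
  exact sq_dvd_prod hp (g.not_dvd_prod hp hz h (notMem_erase _ _))

lemma fa_dvd_FF (t : ℤ) : fa P ac t ∣ (FF P).eval t := by
  rw [eval_FF]
  exact prod_dvd_prod_of_subset _ _ _ (filter_subset _ _)

lemma fa_ne_zero {t : ℤ} (h : (FF P).eval t ≠ 0) : fa P ac t ≠ 0 := by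
  intro h0
  have := fa_dvd_FF (P := P) (ac := ac) t
  rw [h0, zero_dvd_iff] at this
  exact h this

open Classical in
/-- the factor divisible by `p` -/
noncomputable def jt [Nonempty J] (P : J → ℤ[X]) (ac : J → Bool) (t : ℤ) (p : ℕ) : J :=
  if h : ∃ j, ac j = true ∧ (p : ℤ) ∣ (P j).eval t then h.choose else Classical.arbitrary J

/-- the state -/
noncomputable def stt [Nonempty J] (P : J → ℤ[X]) (ac : J → Bool) (t : ℤ) (p : ℕ) :
    Σ _ : J, ℕ × Bool :=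
  ⟨jt P ac t p, rs t p, sg0 p ((P (jt P ac t p)).eval t / p)⟩

lemma jt_spec [Nonempty J] {t : ℤ} {p : ℕ} (h : ∃ j, ac j = true ∧ (p : ℤ) ∣ (P j).eval t) :
    ac (jt P ac t p) = true ∧ (p : ℤ) ∣ (P (jt P ac t p)).eval t := by
  unfold jt
  rw [dif_pos h]
  exact h.choose_spec

/-- the states -/
def SpA (P : J → ℤ[X]) (ac : J → Bool) (p : ℕ) : Finset (Σ _ : J, ℕ × Bool) :=
  (univ.filter (fun j => ac j = true)).sigma fun j => rts (P j) p ×ˢ (univ : Finset Bool)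

lemma mem_SpA {p : ℕ} {σ : Σ _ : J, ℕ × Bool} :
    σ ∈ SpA P ac p ↔ ac σ.1 = true ∧ σ.2.1 < p ∧ (p : ℤ) ∣ (P σ.1).eval (σ.2.1 : ℤ) := by
  unfold SpA rts
  rw [mem_sigma, mem_product, mem_filter, mem_filter, mem_range]
  simp

lemma card_SpA (p : ℕ) : (SpA P ac p).card ≤ 2 * ∑ j, rho (P j) p := by
  unfold SpA
  rw [card_sigma, mul_sum]
  refine (sum_le_sum_of_subset (filter_subset _ _)).trans (sum_le_sum fun j _ => ?_)
  rw [card_product, card_rts, card_univ, Fintype.card_bool, mul_comm]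

/-- the condition of a state -/
def LSA (P : J → ℤ[X]) (a : Fin 3 → ℤ) (δ : J → Bool) (q : J → Fin 3) (m : J → ℕ)
    (σ : Σ _ : J, ℕ × Bool) (p : ℕ) : Bool → Bool → Bool → Bool → Prop :=
  LE (clsG δ q σ.1) (evG m σ.1) (kapG P a δ q m σ.1 σ.2.1) σ.2.2 p

/-- the local average -/
noncomputable def lamA (k : ℕ) (P : J → ℤ[X]) (a : Fin 3 → ℤ) (δ : J → Bool) (q : J → Fin 3)
    (m : J → ℕ) (ac : J → Bool) (p : ℕ) (v h : Vk k) : ℝ :=
  ∑ j ∈ univ.filter (fun j => ac j = true), ∑ r ∈ rts (P j) p,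
    lstE (clsG δ q j) (evG m j) (kapG P a δ q m j r) p v h

lemma lamA_eq {k : ℕ} (p : ℕ) (v h : Vk k) : lamA k P a δ q m ac p v h =
    ∑ σ ∈ SpA P ac p, (1 / 2) * ∏ i, iL (LSA P a δ q m σ p) (v i) (h i) := by
  classical
  unfold lamA SpA lstE
  rw [sum_sigma]
  refine sum_congr rfl fun j _ => ?_
  rw [sum_product]
  rfl

lemma stt_mem [Nonempty J] {t : ℤ} {p : ℕ} (hp : p.Prime) (h : (p : ℤ) ∣ fa P ac t) :
    stt P ac t p ∈ SpA P ac p := by
  obtain ⟨h1, h2⟩ := jt_spec ((dvd_fa hp).1 h)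
  rw [mem_SpA]
  refine ⟨h1, rs_lt t hp.ne_zero, ?_⟩
  exact (dvd_eval_congr _ (rs_dvd t hp.ne_zero)).1 h2

lemma xc_A (g : Gz P a z) {p : ℕ} (hp : p.Prime) (hz : z < p) {σ : Σ _ : J, ℕ × Bool}
    (hσ : σ ∈ SpA P ac p) : XC (LSA P a δ q m σ p) := by
  have h := mem_SpA.1 hσ
  refine xce _ _ _ _ p hp ?_ fun k => ?_
  · have := g.two
    omega
  · exact kapG_unit g hp hz h.2.2 k

lemma Fk_eval_ne {t : ℤ} (ha : ∀ k, a k ≠ 0) (h : (FF P).eval t ≠ 0) (k : Fin 3) :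
    (Fk P a δ q m k).eval t ≠ 0 := by
  rw [eval_FF, prod_ne_zero_iff] at h
  unfold Fk
  rw [eval_mul, eval_C, eval_prod]
  refine mul_ne_zero (ha k) (prod_ne_zero_iff.2 fun l hl => ?_)
  rw [eval_pow]
  exact pow_ne_zero _ (h l hl)

lemma dvd_Fk (g : Gz P a z) {p : ℕ} (hp : p.Prime) (hz : z < p) {t : ℤ} {k : Fin 3}
    (h : (p : ℤ) ∣ (Fk P a δ q m k).eval t) : ∃ j, (p : ℤ) ∣ (P j).eval t := by
  unfold Fk at h
  rw [eval_mul, eval_C, eval_prod] at h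
  rcases (Nat.prime_iff_prime_int.1 hp).dvd_or_dvd h with h1 | h1
  · exact absurd h1 (g.ak p hp hz k)
  · obtain ⟨l, -, hl⟩ := ((Nat.prime_iff_prime_int.1 hp).dvd_finsetProd_iff _).1 h1
    rw [eval_pow] at hl
    exact ⟨l, (Nat.prime_iff_prime_int.1 hp).dvd_of_dvd_pow hl⟩

lemma natAbs_evalZ (F : ℤ[X]) {t : ℤ} {B : ℕ} (ht : t.natAbs ≤ B) (hB : 1 ≤ B) :
    (F.eval t).natAbs ≤
      (∑ i ∈ range (F.natDegree + 1), (F.coeff i).natAbs) * B ^ F.natDegree := by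
  rw [eval_eq_sum_range, sum_mul]
  refine (Int.natAbs_sum_le _ _).trans (sum_le_sum fun i hi => ?_)
  rw [Int.natAbs_mul, Int.natAbs_pow]
  refine Nat.mul_le_mul_left _ ?_
  exact (Nat.pow_le_pow_left ht i).trans (Nat.pow_le_pow_right hB (by
    have := mem_range.1 hi
    omega))

/-- the rank is bounded by the local count -/
lemma rank1 [Nonempty J] (ha : ∀ k, a k ≠ 0) (g : Gz P a z)
    (hrel : Fk P a δ q m 0 - Fk P a δ q m 1 = Fk P a δ q m 2)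
    (hac : ∀ j, ac j = true → δ j = true ∨ 1 ≤ m j) {t : ℤ} (ht : (FF P).eval t ≠ 0)
    {y X E k' : ℕ} (hyX : y ≤ X) (hb : ((FF P).eval t).natAbs ≤ X ^ E) (hE : 1 ≤ E)
    (hk : X < (y + 1) ^ k')
    (hin : ∀ j, ac j = false → ∀ p : ℕ, p.Prime → z < p → p ≤ X → ¬ (p : ℤ) ∣ (P j).eval t) :
    (2 : ℝ) ^ Module.finrank ℤ (EAB ((Fk P a δ q m 0).eval t)
        ((Fk P a δ q m 1).eval t)).toAffine.Point ≤
      4 ^ (z + 2) * (4 ^ E) ^ k' * 4 ^ (s2 z y (fa P ac t)).primeFactors.card *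
        (NL (s1 z y (fa P ac t)) (fun p => LSA P a δ q m (stt P ac t p) p) : ℝ) := by
  have hAB : (Fk P a δ q m 0).eval t - (Fk P a δ q m 1).eval t = (Fk P a δ q m 2).eval t := by
    rw [← hrel, eval_sub]
  have hne : (Fk P a δ q m 0).eval t ≠ (Fk P a δ q m 1).eval t := by
    intro h
    apply Fk_eval_ne (δ := δ) (q := q) (m := m) ha ht 2
    rw [← hAB, h, sub_self]
  refine rankA g.two (Fk_eval_ne ha ht 0) (Fk_eval_ne ha ht 1) hne ht hb hE hk ?_ ?_ _ ?_ ?_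
  · intro p hp hz h
    rw [dvd_FF hp]
    rw [hAB] at h
    rcases (Nat.prime_iff_prime_int.1 hp).dvd_or_dvd h with h1 | h1
    · rcases (Nat.prime_iff_prime_int.1 hp).dvd_or_dvd h1 with h2 | h2
      · exact dvd_Fk g hp hz h2
      · exact dvd_Fk g hp hz h2
    · exact dvd_Fk g hp hz h1
  · intro p hp hz hpy h
    obtain ⟨j, hj⟩ := (dvd_FF hp t).1 h
    rw [dvd_fa hp]
    refine ⟨j, ?_, hj⟩
    by_contra hcon
    rw [Bool.not_eq_true] at hcon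
    exact hin j hcon p hp hz (hpy.trans hyX) hj
  · intro p hp hz h _
    exact xc_A g hp hz (stt_mem hp h)
  · intro p hpf hz h h2 x x' hx' hcurve e1 e2 he1 he2 hs1 hs2
    have hp : p.Prime := hpf.out
    obtain ⟨h3, h4⟩ := jt_spec ((dvd_fa hp).1 h)
    have h5 : ¬ (p : ℤ) ^ 2 ∣ (P (jt P ac t p)).eval t := fun h' => h2 ((sq_dvd_fa g hp hz h3 h4).2 h')
    have hm := mem_SpA.1 (stt_mem (ac := ac) hp h)
    refine locE (by
      have := g.two
      omega) _ _ _ _ (fun k => kapG_unit g hp hz hm.2.2 k) (Fk_eval_ne ha ht 0)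
      (Fk_eval_ne ha ht 1) hne ?_ x x' hx' hcurve e1 e2 he1 he2 hs1 hs2
    exact locE_fam g hrel hp hz (hac _ h3) (rs_dvd t hp.ne_zero) h4 h5

end

end Pool.Agent.L0h5.TH
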