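import Pool.Agent.L0h5.TH.Loc
import Pool.Agent.L0h5.AG.A4

/-!
# The average over the local conditions
-/

set_option autoImplicit false

namespace Pool.Agent.L0h5.TH

open Finset Pool.Agent.W262.RK Pool.Agent.L0h5.TF Pool.Agent.L0h5.AG

section

variable {J : Type} [Fintype J] {k : ℕ}

/-- the local average -/
noncomputable def lamE (cls : J → Fin 4) (ev : J → Bool) (kap : J → ℕ → Fin 3 → ℤ)
    (R : J → ℕ → Finset ℕ) (p : ℕ) (v h : Vk k) : ℝ :=
  ∑ j, ∑ r ∈ R j p, lstE (cls j) (ev j) (kap j r) p v h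

/-- the coefficients of the local average -/
noncomputable def bE (cls : J → Fin 4) (ev : J → Bool) (kap : J → ℕ → Fin 3 → ℤ)
    (R : J → ℕ → Finset ℕ) (p : ℕ) (v x : Vk k) : ℝ :=
  ∑ j, ∑ r ∈ R j p, bstE (cls j) (ev j) (kap j r) p v x

lemma lamE_eq (cls : J → Fin 4) (ev : J → Bool) (kap : J → ℕ → Fin 3 → ℤ)
    (R : J → ℕ → Finset ℕ) (p : ℕ) (v h : Vk k) :
    lamE cls ev kap R p v h = ∑ x, bE cls ev kap R p v x * chi x h := by
  unfold lamE bE
  simp only [sum_mul]
  rw [sum_comm]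
  refine sum_congr rfl fun j _ => ?_
  rw [sum_comm]
  refine sum_congr rfl fun r _ => ?_
  exact lstE_eq _ _ _ _ _ _

lemma bE_odd (cls : J → Fin 4) (ev : J → Bool) (kap : J → ℕ → Fin 3 → ℤ)
    (R : J → ℕ → Finset ℕ) (p : ℕ) (v x : Vk k) (h : ¬ Even (nd x v)) :
    bE cls ev kap R p v x = 0 := by
  unfold bE
  exact sum_eq_zero fun j _ => sum_eq_zero fun r _ => bstE_odd _ _ _ _ _ _ h

lemma bstE_or {c : Fin 4} {ev : Bool} {κ : Fin 3 → ℤ} {p : ℕ}
    (hn : ¬ nsE c ev κ p = true) (v x : Vk k) : bstE c ev κ p v x = bst c κ p v x := by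
  unfold bstE
  rw [if_neg hn]

lemma bE_le (cls : J → Fin 4) (ev : J → Bool) (hev : ∀ j, ev j = false)
    (kap : J → ℕ → Fin 3 → ℤ) (R : J → ℕ → Finset ℕ) (p : ℕ) (v x : Vk k) :
    |bE cls ev kap R p v x| ≤ ∑ j, wst (cls j) v x * (R j p).card := by
  unfold bE
  refine (abs_sum_le_sum_abs _ _).trans (sum_le_sum fun j _ => ?_)
  refine (abs_sum_le_sum_abs _ _).trans ?_
  have h1 : ∀ r ∈ R j p, |bstE (cls j) (ev j) (kap j r) p v x| ≤ wst (cls j) v x := by
    intro r _
    rw [bstE_or (by simp [nsE, hev j])]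
    exact bst_le _ _ _ _ _
  refine (sum_le_sum h1).trans ?_
  rw [sum_const, nsmul_eq_mul, mul_comm]

/-- **The average is bounded by a power of the logarithm** -/
theorem avgT (cls : J → Fin 4) (ev : J → Bool) (hev : ∀ j, ev j = false) (c N B0 : ℕ)
    (hpos : ∀ i : Lb k, 0 < ∑ j, wst (cls j) i.1.1 i.1.2)
    (hcomb : ∀ U : Finset (Lb k), (∀ i ∈ U, ∀ i' ∈ U, Ll i i' = Ll i' i) →
      ∑ i ∈ U, ∑ j, wst (cls j) i.1.1 i.1.2 ≤ N) :
    ∃ z0 : ℕ, ∀ z, z0 ≤ z → ∀ (kap : J → ℕ → Fin 3 → ℤ) (R : J → ℕ → Finset ℕ) (Cj : ℝ),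
      (∀ p : ℕ, p.Prime → z < p → ∑ j, (R j p).card ≤ B0) →
      (∀ (j : J) (y : ℕ), z < y → ∑ p ∈ PS z y, ((R j p).card : ℝ) / ((p : ℝ) - c) ≤
        Real.log (Real.log y) + Cj) →
      ∃ C : ℝ, ∀ y, z < y →
      ∑ s ∈ (PP z y).divisors, Gs (lamE (k := k) cls ev kap R) s * gw 1 c s ≤
        C * (Real.log y) ^ N := by
  classical
  set B : ℕ := 2 * B0 + 2 with hBdef
  have hB : 0 < B := by omega
  have hBr : (0 : ℝ) < B := by exact_mod_cast hB
  set e : Ix k B → ℝ := fun i => (∑ j, wst (cls j) i.1.1.1 i.1.1.2) / B with he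
  obtain ⟨z0, hz0⟩ := ag (Ix k B) e (Lk (k := k) (B := B)) c N
    (fun i => div_pos (hpos i.1) hBr)
    (fun i => by
      unfold Lk Ll
      rw [decide_eq_false_iff_not, Nat.not_odd_iff_even]
      exact i.1.2)
    (fun U hU => by
      have h1 : ∑ i ∈ U, e i ≤ ∑ l ∈ U.image Prod.fst, ∑ j, wst (cls j) l.1.1 l.1.2 := by
        have h2 : ∑ i ∈ U, e i = ∑ l ∈ U.image Prod.fst, ∑ i ∈ U.filter (fun i => i.1 = l), e i :=
          (sum_fiberwise_of_maps_to (fun i hi => mem_image_of_mem _ hi) _).symm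
        rw [h2]
        refine sum_le_sum fun l _ => ?_
        have h3 : ∀ i ∈ U.filter (fun i => i.1 = l), e i = (∑ j, wst (cls j) l.1.1 l.1.2) / B := by
          intro i hi
          rw [he, ← (mem_filter.1 hi).2]
        rw [sum_congr rfl h3, sum_const, nsmul_eq_mul]
        have h4 : (U.filter (fun i => i.1 = l)).card ≤ B := by
          have h5 : (U.filter (fun i => i.1 = l)).card ≤ (univ : Finset (Fin B)).card := by
            apply card_le_card_of_injOn Prod.snd (fun i _ => mem_univ _)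
            intro i hi i' hi' hii
            have h6 := (mem_filter.1 (mem_coe.1 hi)).2
            have h7 := (mem_filter.1 (mem_coe.1 hi')).2
            exact Prod.ext (h6.trans h7.symm) hii
          rwa [card_univ, Fintype.card_fin] at h5
        have h5 : 0 ≤ ∑ j, wst (cls j) l.1.1 l.1.2 := (hpos l).le
        have h6 : ((U.filter (fun i => i.1 = l)).card : ℝ) ≤ B := by exact_mod_cast h4
        calc ((U.filter (fun i => i.1 = l)).card : ℝ) * ((∑ j, wst (cls j) l.1.1 l.1.2) / B) ≤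
            B * ((∑ j, wst (cls j) l.1.1 l.1.2) / B) :=
              mul_le_mul_of_nonneg_right h6 (div_nonneg h5 hBr.le)
          _ = _ := by field_simp
      refine h1.trans (hcomb _ ?_)
      intro l hl l' hl'
      obtain ⟨i, hi, rfl⟩ := mem_image.1 hl
      obtain ⟨i', hi', rfl⟩ := mem_image.1 hl'
      exact hU i hi i' hi')
  refine ⟨z0 + 2 * c + 2, fun z hz kap R Cj hR1 hR2 => ?_⟩
  have hpc : ∀ p : ℕ, z < p → (0 : ℝ) < (p : ℝ) - c := by
    intro p hp
    have : (2 * c + 3 : ℝ) ≤ p := by exact_mod_cast (by omega : 2 * c + 3 ≤ p)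
    have hc0 : (0 : ℝ) ≤ c := Nat.cast_nonneg c
    linarith
  obtain ⟨C, hC⟩ := hz0 z (by omega) (wt (B := B) (bE (k := k) cls ev kap R) c)
    (∑ _j : J, |Cj|)
    (fun i p hp hpz => by
      unfold wt
      rw [abs_div, abs_of_pos (mul_pos hBr (hpc p hpz)), div_mul_eq_div_div]
      refine div_le_div_of_nonneg_right ?_ (hpc p hpz).le
      rw [div_le_iff₀ hBr]
      refine (bE_le cls ev hev kap R p _ _).trans ?_
      have h1 : ∑ j, wst (cls j) i.1.1.1 i.1.1.2 * ((R j p).card : ℝ) ≤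
          ((∑ j, (R j p).card : ℕ) : ℝ) := by
        push_cast
        refine sum_le_sum fun j _ => ?_
        have h3 : (0 : ℝ) ≤ ((R j p).card : ℝ) := Nat.cast_nonneg _
        calc wst (cls j) i.1.1.1 i.1.1.2 * ((R j p).card : ℝ) ≤ 1 * ((R j p).card : ℝ) :=
              mul_le_mul_of_nonneg_right (wst_le _ _ _) h3
          _ = _ := one_mul _
      have h2 : ((∑ j, (R j p).card : ℕ) : ℝ) ≤ B0 := by exact_mod_cast hR1 p hp hpz
      refine h1.trans (h2.trans ?_)
      rw [hBdef]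
      push_cast
      linarith)
    (fun i y hy => by
      have h1 : ∀ p ∈ PS z y, |wt (B := B) (bE (k := k) cls ev kap R) c i p| ≤
          ∑ j, (wst (cls j) i.1.1.1 i.1.1.2 / B) * (((R j p).card : ℝ) / ((p : ℝ) - c)) := by
        intro p hp
        obtain ⟨⟨h2, h3⟩, h4⟩ := mem_PS.1 hp
        unfold wt
        rw [abs_div, abs_of_pos (mul_pos hBr (hpc p h2)), div_le_iff₀ (mul_pos hBr (hpc p h2)),
          sum_mul]
        refine (bE_le cls ev hev kap R p _ _).trans (le_of_eq (sum_congr rfl fun j _ => ?_))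
        have := hpc p h2
        field_simp
      refine (sum_le_sum h1).trans ?_
      rw [sum_comm]
      simp only [← mul_sum]
      have h2 : ∀ j, (wst (cls j) i.1.1.1 i.1.1.2 / B) *
          ∑ p ∈ PS z y, (((R j p).card : ℝ) / ((p : ℝ) - c)) ≤
          (wst (cls j) i.1.1.1 i.1.1.2 / B) * Real.log (Real.log y) + |Cj| := by
        intro j
        have h3 : 0 ≤ wst (cls j) i.1.1.1 i.1.1.2 / (B : ℝ) :=
          div_nonneg (wst_nonneg _ _ _) hBr.le
        have h4 : wst (cls j) i.1.1.1 i.1.1.2 / (B : ℝ) ≤ 1 := by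
          rw [div_le_one hBr]
          refine (wst_le _ _ _).trans ?_
          exact_mod_cast hB
        have h5 := mul_le_mul_of_nonneg_left (hR2 j y hy) h3
        have h6 : wst (cls j) i.1.1.1 i.1.1.2 / (B : ℝ) * Cj ≤ |Cj| := by
          refine (mul_le_mul_of_nonneg_left (le_abs_self _) h3).trans ?_
          exact mul_le_of_le_one_left (abs_nonneg _) h4
        rw [mul_add] at h5
        linarith
      refine (sum_le_sum fun j _ => h2 j).trans (le_of_eq ?_)
      rw [sum_add_distrib, ← sum_mul, ← sum_div])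
  refine ⟨C, fun y hy => ?_⟩
  rw [exp_id hB (lamE (k := k) cls ev kap R) (bE cls ev kap R) c z y
    (fun p _ v h => lamE_eq cls ev kap R p v h) (fun p _ v x h => bE_odd cls ev kap R p v x h)]
  refine (le_abs_self _).trans ((hC y hy).trans (le_of_eq ?_))
  rw [Real.rpow_natCast]

end

end Pool.Agent.L0h5.TH
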