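import Pool.Agent.L0h5.TH.Joint

/-!
# The refined average for one copy
-/

set_option autoImplicit false
set_option linter.unusedSectionVars false

namespace Pool.Agent.L0h5.TH

open Finset Pool.Agent.W262.RK Pool.Agent.L0h5.TF Pool.Agent.L0h5.AG Pool.Agent.L0h5.AH

/-- the density of the roots with symbol `1` -/
noncomputable def th (sp : Bool) : ℝ := if sp = true then 1 else 1 / 2

/-- the exponent of the contribution of a factor to the class `q` -/
noncomputable def kc (q c : Fin 4) (ev sp : Bool) : ℝ :=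
  if c = 3 then 1 else if c = q then 1 + th sp else (if ev = true then 1 - th sp / 2 else 1 / 2)

/-- the exponent of the saving -/
noncomputable def dc (q c : Fin 4) (sp : Bool) : ℝ :=
  if c = 3 then 1 / 4 else if c = q then th sp else 0

lemma th_pos (sp : Bool) : 1 / 2 ≤ th sp ∧ th sp ≤ 1 := by
  unfold th
  split_ifs <;> norm_num

/-- the bound for the coefficients -/
noncomputable def fw (c : Fin 4) (ev : Bool) (b : (Bool × Bool) × (Bool × Bool)) (s : Bool) : ℝ :=
  if c = 3 then 1 / 4 else if Al c b.1 b.2 = true then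
    (if ev = true then (if b = (oo, oo) then (if s = true then 1 else 1 / 2)
      else (if s = true then 0 else 1 / 2)) else 1 / 2) else 0

lemma abs_bo_le (c : Fin 4) (ev : Bool) (κ : Fin 3 → ℤ) (p : ℕ)
    (b : (Bool × Bool) × (Bool × Bool)) :
    |bo c ev κ p b.1 b.2| ≤ fw c ev b (sg0 p (κ 0)) := by
  unfold fw
  by_cases h3 : c = 3
  · subst h3
    rw [if_pos rfl]
    exact bo_three _ _ _ _ _
  rw [if_neg h3]
  by_cases hA : Al c b.1 b.2 = true
  swap
  · rw [if_neg hA, bo_zero h3 ev κ p hA, abs_zero]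
  rw [if_pos hA]
  by_cases hn : nsE c ev κ p = true
  · have hn' := hn
    unfold nsE at hn'
    simp only [Bool.and_eq_true] at hn'
    rw [bo_ns hn, if_pos hn'.1, hn'.2.2]
    by_cases hb : b = (oo, oo)
    · subst hb
      simp
    · rw [if_neg hb, if_neg (fun h => hb (Prod.ext h.1 h.2))]
      simp
  · rw [bo_val h3 hn, if_pos hA]
    have h1 : |(if (decide (b.1 = ec c) && (decide (b.2 = (ec c).swap) && sg0 p (κ 0))) = true
        then -(1 / 2) else 1 / 2 : ℝ)| = 1 / 2 := by
      split_ifs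
      · rw [abs_neg, abs_of_pos (by norm_num)]
      · rw [abs_of_pos (by norm_num)]
    rw [h1]
    by_cases hev : ev = true
    · have hs : sg0 p (κ 0) = false := by
        unfold nsE at hn
        rw [hev] at hn
        simpa [h3] using hn
      rw [if_pos hev, hs]
      split_ifs <;> norm_num at *
    · rw [if_neg hev]

lemma fw_nonneg (c : Fin 4) (ev : Bool) (b : (Bool × Bool) × (Bool × Bool)) (s : Bool) :
    0 ≤ fw c ev b s := by
  unfold fw
  split_ifs <;> norm_num

lemma fw_le (c : Fin 4) (ev : Bool) (b : (Bool × Bool) × (Bool × Bool)) (s : Bool) :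
    fw c ev b s ≤ 1 := by
  unfold fw
  split_ifs <;> norm_num

lemma fw_th (c : Fin 4) (ev sp : Bool) (b : (Bool × Bool) × (Bool × Bool)) :
    fw c ev b true + (fw c ev b false - fw c ev b true) * th sp = wE c ev sp b := by
  unfold fw wE th
  by_cases h3 : c = 3
  · simp only [if_pos h3]
    ring
  simp only [if_neg h3]
  by_cases hA : Al c b.1 b.2 = true
  · simp only [if_pos hA]
    by_cases hb : b = (oo, oo)
    · simp only [if_pos hb]
      cases ev <;> cases sp <;> norm_num
    · simp only [if_neg hb]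
      cases ev <;> cases sp <;> norm_num
  · simp only [if_neg hA]
    ring

lemma mj_th (q c : Fin 4) (ev sp : Bool) :
    mj q c ev true + (mj q c ev false - mj q c ev true) * th sp = kc q c ev sp := by
  unfold mj kc
  by_cases h3 : c = 3
  · simp only [if_pos h3]
    ring
  simp only [if_neg h3]
  by_cases hA : c = q
  · simp only [if_pos hA, if_true, Bool.false_eq_true, if_false]
    ring
  · simp only [if_neg hA]
    cases ev
    · simp only [Bool.false_and, Bool.false_eq_true, if_false]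
      ring
    · simp only [Bool.true_and, Bool.false_eq_true, if_false, if_true]
      ring

lemma gj_th (q c : Fin 4) (sp : Bool) :
    gj q c true + (gj q c false - gj q c true) * th sp = dc q c sp := by
  unfold gj dc
  by_cases h3 : c = 3
  · simp only [if_pos h3]
    ring
  simp only [if_neg h3]
  by_cases hA : c = q
  · simp only [if_pos hA, if_true, Bool.false_eq_true, if_false]
    ring
  · simp only [if_neg hA]
    ring

lemma mj_nonneg (q c : Fin 4) (ev s : Bool) : 0 ≤ mj q c ev s ∧ mj q c ev s ≤ 2 := by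
  unfold mj
  split_ifs <;> norm_num

lemma gj_nonneg (q c : Fin 4) (s : Bool) : 0 ≤ gj q c s ∧ gj q c s ≤ 1 := by
  unfold gj
  split_ifs <;> norm_num

section

variable {J : Type} [Fintype J]

/-- the roots with symbol `1` -/
def Rz (kap : J → ℕ → Fin 3 → ℤ) (R : J → ℕ → Finset ℕ) (j : J) (p : ℕ) : Finset ℕ :=
  (R j p).filter fun r => sg0 p (kap j r 0) = false

lemma sum_s (kap : J → ℕ → Fin 3 → ℤ) (R : J → ℕ → Finset ℕ) (j : J) (p : ℕ) (F : Bool → ℝ) :
    ∑ r ∈ R j p, F (sg0 p (kap j r 0)) =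
      F true * ((R j p).card : ℝ) + (F false - F true) * ((Rz kap R j p).card : ℝ) := by
  have h1 : ∀ r ∈ R j p, F (sg0 p (kap j r 0)) =
      F true + (F false - F true) * (if sg0 p (kap j r 0) = false then 1 else 0) := by
    intro r _
    cases sg0 p (kap j r 0) <;> simp
  rw [sum_congr rfl h1, sum_add_distrib, sum_const, nsmul_eq_mul, ← mul_sum, sum_boole]
  unfold Rz
  ring

lemma asym {cls : J → Fin 4} {sp : J → Bool} {c z : ℕ} {kap : J → ℕ → Fin 3 → ℤ}
    {R : J → ℕ → Finset ℕ} {Cj : ℝ}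
    (H1 : ∀ (j : J) (y : ℕ), z < y → |∑ p ∈ PS z y, ((R j p).card : ℝ) / ((p : ℝ) - c) -
      Real.log (Real.log y)| ≤ Cj)
    (H2 : ∀ j : J, cls j ≠ 3 → ∀ y : ℕ, z < y →
      |∑ p ∈ PS z y, ((Rz kap R j p).card : ℝ) / ((p : ℝ) - c) -
        th (sp j) * Real.log (Real.log y)| ≤ Cj)
    (j : J) (F : Bool → ℝ) (hF : cls j = 3 → F false = F true) {M : ℝ} (hM : |F true| ≤ M)
    (hM' : |F false - F true| ≤ M) {y : ℕ} (hy : z < y) :
    |∑ p ∈ PS z y, (∑ r ∈ R j p, F (sg0 p (kap j r 0))) / ((p : ℝ) - c) -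
      (F true + (F false - F true) * th (sp j)) * Real.log (Real.log y)| ≤ 2 * M * Cj := by
  have hCj : 0 ≤ Cj := (abs_nonneg _).trans (H1 j y hy)
  have hM0 : 0 ≤ M := (abs_nonneg _).trans hM
  have h1 : ∑ p ∈ PS z y, (∑ r ∈ R j p, F (sg0 p (kap j r 0))) / ((p : ℝ) - c) =
      F true * ∑ p ∈ PS z y, ((R j p).card : ℝ) / ((p : ℝ) - c) +
      (F false - F true) * ∑ p ∈ PS z y, ((Rz kap R j p).card : ℝ) / ((p : ℝ) - c) := by
    rw [mul_sum, mul_sum, ← sum_add_distrib]
    refine sum_congr rfl fun p _ => ?_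
    rw [sum_s]
    ring
  rw [h1]
  have h2 := H1 j y hy
  by_cases h3 : cls j = 3
  · have h4 : F false - F true = 0 := by rw [hF h3, sub_self]
    rw [h4, zero_mul, zero_mul, add_zero, add_zero, ← mul_sub, abs_mul]
    calc |F true| * |∑ p ∈ PS z y, ((R j p).card : ℝ) / ((p : ℝ) - c) -
        Real.log (Real.log y)| ≤ M * Cj := mul_le_mul hM h2 (abs_nonneg _) hM0
      _ ≤ 2 * M * Cj := by nlinarith [mul_nonneg hM0 hCj]
  · have h4 := H2 j h3 y hy
    have h5 : F true * ∑ p ∈ PS z y, ((R j p).card : ℝ) / ((p : ℝ) - c) +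
      (F false - F true) * ∑ p ∈ PS z y, ((Rz kap R j p).card : ℝ) / ((p : ℝ) - c) -
      (F true + (F false - F true) * th (sp j)) * Real.log (Real.log y) =
      F true * (∑ p ∈ PS z y, ((R j p).card : ℝ) / ((p : ℝ) - c) - Real.log (Real.log y)) +
      (F false - F true) * (∑ p ∈ PS z y, ((Rz kap R j p).card : ℝ) / ((p : ℝ) - c) -
        th (sp j) * Real.log (Real.log y)) := by ring
    rw [h5]
    refine (abs_add_le _ _).trans ?_
    rw [abs_mul, abs_mul]
    calc _ ≤ M * Cj + M * Cj := add_le_add (mul_le_mul hM h2 (abs_nonneg _) hM0)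
          (mul_le_mul hM' h4 (abs_nonneg _) hM0)
      _ = _ := by ring

lemma asym_sum {cls : J → Fin 4} {sp : J → Bool} {c z : ℕ} {kap : J → ℕ → Fin 3 → ℤ}
    {R : J → ℕ → Finset ℕ} {Cj : ℝ}
    (H1 : ∀ (j : J) (y : ℕ), z < y → |∑ p ∈ PS z y, ((R j p).card : ℝ) / ((p : ℝ) - c) -
      Real.log (Real.log y)| ≤ Cj)
    (H2 : ∀ j : J, cls j ≠ 3 → ∀ y : ℕ, z < y →
      |∑ p ∈ PS z y, ((Rz kap R j p).card : ℝ) / ((p : ℝ) - c) -
        th (sp j) * Real.log (Real.log y)| ≤ Cj)
    (F : J → Bool → ℝ) (hF : ∀ j, cls j = 3 → F j false = F j true) {M : ℝ}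
    (hM : ∀ j, |F j true| ≤ M) (hM' : ∀ j, |F j false - F j true| ≤ M) {y : ℕ} (hy : z < y) :
    |∑ p ∈ PS z y, (∑ j, ∑ r ∈ R j p, F j (sg0 p (kap j r 0))) / ((p : ℝ) - c) -
      (∑ j, (F j true + (F j false - F j true) * th (sp j))) * Real.log (Real.log y)| ≤
      Fintype.card J * (2 * M * Cj) := by
  have h1 : ∑ p ∈ PS z y, (∑ j, ∑ r ∈ R j p, F j (sg0 p (kap j r 0))) / ((p : ℝ) - c) =
      ∑ j, ∑ p ∈ PS z y, (∑ r ∈ R j p, F j (sg0 p (kap j r 0))) / ((p : ℝ) - c) := by
    rw [sum_comm]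
    refine sum_congr rfl fun p _ => ?_
    rw [sum_div]
  rw [h1, sum_mul, ← sum_sub_distrib]
  refine (abs_sum_le_sum_abs _ _).trans ?_
  refine (sum_le_sum fun j _ => asym H1 H2 j (F j) (hF j) (hM j) (hM' j) hy).trans ?_
  rw [sum_const, card_univ, nsmul_eq_mul]

end

end Pool.Agent.L0h5.TH
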