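import Pool.Agent.L0h5.TH.Avg
import Pool.Agent.L0h5.TF.Comb

/-!
# One pair of bits
-/

set_option autoImplicit false

namespace Pool.Agent.L0h5.TH

open Finset Pool.Agent.W262.RK Pool.Agent.L0h5.TF Pool.Agent.L0h5.AG

open Pool.Agent.W762.RK2 (sg)

/-- the coefficient for one copy -/
noncomputable def bo (c : Fin 4) (ev : Bool) (κ : Fin 3 → ℤ) (p : ℕ) (v x : Bool × Bool) : ℝ :=
  bstE (k := 1) c ev κ p (fun _ => v) (fun _ => x)

/-- zero -/
abbrev oo : Bool × Bool := (false, false)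

lemma Al_oo {c : Fin 4} : Al c oo oo = true := by
  revert c; decide

lemma lt3 {q : Fin 4} (hq : q ≠ 3) : q = 0 ∨ q = 1 ∨ q = 2 := by
  revert q; decide

lemma ec_ne {c : Fin 4} : decide (oo = ec c) = false := by
  revert c; decide

lemma bo_ns {c : Fin 4} {ev : Bool} {κ : Fin 3 → ℤ} {p : ℕ} (hn : nsE c ev κ p = true)
    (v x : Bool × Bool) : bo c ev κ p v x = if v = oo ∧ x = oo then 1 else 0 := by
  unfold bo bstE
  rw [if_pos hn]
  have h1 : ((fun _ : Fin 1 => v) = fun _ => ((false, false) : Bool × Bool)) ↔ v = oo := by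
    constructor
    · intro h
      exact congrFun h 0
    · intro h
      rw [h]
  have h2 : ((fun _ : Fin 1 => x) = fun _ => ((false, false) : Bool × Bool)) ↔ x = oo := by
    constructor
    · intro h
      exact congrFun h 0
    · intro h
      rw [h]
  simp only [h1, h2]

lemma bo_or {c : Fin 4} {ev : Bool} {κ : Fin 3 → ℤ} {p : ℕ} (hn : ¬ nsE c ev κ p = true)
    (v x : Bool × Bool) : bo c ev κ p v x =
      (1 / 2) * cf c κ true p v x + (1 / 2) * cf c κ false p v x := by
  unfold bo bstE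
  rw [if_neg hn]
  unfold bst
  rw [Fintype.sum_bool, Fin.prod_univ_one, Fin.prod_univ_one]

/-- the values for the classes `0`, `1`, `2` -/
lemma cf_val {c : Fin 4} (hc : c ≠ 3) (κ : Fin 3 → ℤ) (neg : Bool) (p : ℕ) (v x : Bool × Bool) :
    cf c κ neg p v x = if Al c v x = true then
      (if (decide (v = ec c) && (decide (x = (ec c).swap) && sg0 p (κ 0))) = true then -(1 / 2)
        else 1 / 2) else 0 := by
  have h3 : c = 0 ∨ c = 1 ∨ c = 2 := by
    revert c; decide
  rcases v with ⟨v1, v2⟩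
  rcases x with ⟨x1, x2⟩
  unfold cf lq LL
  simp only [Fintype.sum_prod_type, Fintype.sum_bool, ch1, sg]
  generalize sg0 p (κ 0) = s
  rcases h3 with rfl | rfl | rfl <;> cases v1 <;> cases v2 <;> cases x1 <;> cases x2 <;>
    cases s <;> simp [Al, ec] <;> norm_num

lemma bo_val {c : Fin 4} (hc : c ≠ 3) {ev : Bool} {κ : Fin 3 → ℤ} {p : ℕ}
    (hn : ¬ nsE c ev κ p = true) (v x : Bool × Bool) :
    bo c ev κ p v x = if Al c v x = true then
      (if (decide (v = ec c) && (decide (x = (ec c).swap) && sg0 p (κ 0))) = true then -(1 / 2)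
        else 1 / 2) else 0 := by
  rw [bo_or hn, cf_val hc, cf_val hc]
  split_ifs <;> norm_num

lemma bo_zero {c : Fin 4} (hc : c ≠ 3) (ev : Bool) (κ : Fin 3 → ℤ) (p : ℕ) {v x : Bool × Bool}
    (h : ¬ Al c v x = true) : bo c ev κ p v x = 0 := by
  by_cases hn : nsE c ev κ p = true
  · rw [bo_ns hn, if_neg]
    rintro ⟨rfl, rfl⟩
    exact h Al_oo
  · rw [bo_val hc hn, if_neg h]

lemma bo_three (ev : Bool) (κ : Fin 3 → ℤ) (p : ℕ) (v x : Bool × Bool) :
    |bo 3 ev κ p v x| ≤ 1 / 4 := by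
  rw [bo_or (by simp [nsE])]
  have h1 := abs_le.1 (cf_three_le κ true p v x)
  have h2 := abs_le.1 (cf_three_le κ false p v x)
  rw [abs_le]
  constructor <;> linarith [h1.1, h1.2, h2.1, h2.2]

lemma cf_three_zero (κ : Fin 3 → ℤ) (neg : Bool) (p : ℕ) (x : Bool × Bool) :
    cf 3 κ neg p oo x = 1 / 4 := by
  rcases x with ⟨x1, x2⟩
  unfold cf lq LL
  simp only [Fintype.sum_prod_type, Fintype.sum_bool, ch1, sg]
  cases x1 <;> cases x2 <;> cases neg <;> simp

lemma bo_three_zero (ev : Bool) (κ : Fin 3 → ℤ) (p : ℕ) (x : Bool × Bool) :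
    bo 3 ev κ p oo x = 1 / 4 := by
  rw [bo_or (by simp [nsE]), cf_three_zero, cf_three_zero]
  norm_num

lemma bo_three_right (ev : Bool) (κ : Fin 3 → ℤ) (p : ℕ) (v : Bool × Bool) :
    bo 3 ev κ p v oo = 1 / 4 := by
  rw [bo_or (by simp [nsE])]
  obtain ⟨A, B, h⟩ := cf_three κ p v
  rw [h, h]
  simp [ch1]
  norm_num

lemma bo_three_both (ev : Bool) (κ : Fin 3 → ℤ) (p : ℕ) {q : Fin 4} (hq : q ≠ 3) :
    bo 3 ev κ p (ec q) (ec q).swap = 1 / 4 ∨ bo 3 ev κ p (ec q) (ec q).swap = -(1 / 4) := by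
  rw [bo_or (by simp [nsE])]
  obtain ⟨A, B, h⟩ := cf_three κ p (ec q)
  rw [h, h]
  rcases lt3 hq with rfl | rfl | rfl <;> cases A <;> cases B <;> simp [ch1, ec, sg] <;> norm_num

/-- the sum over the four labels of the class `q` -/
noncomputable def Qj (q : Fin 4) (c : Fin 4) (ev : Bool) (κ : Fin 3 → ℤ) (p : ℕ) (U V : ℝ) : ℝ :=
  bo c ev κ p oo oo + bo c ev κ p oo (ec q).swap * U + bo c ev κ p (ec q) oo * V +
    bo c ev κ p (ec q) (ec q).swap * (U * V)

lemma Qj_three {q : Fin 4} (hq : q ≠ 3) (ev : Bool) (κ : Fin 3 → ℤ) (p : ℕ) {U V : ℝ}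
    (hU : |U| ≤ 1) (hV : |V| ≤ 1) :
    Qj q 3 ev κ p U V ≤ 1 ∧ Qj q 3 ev κ p U V ≤ 1 - (1 / 4) * (1 - U) ∧
      Qj q 3 ev κ p U V ≤ 1 - (1 / 4) * (1 - V) := by
  obtain ⟨u1, u2⟩ := abs_le.1 hU
  obtain ⟨v1, v2⟩ := abs_le.1 hV
  unfold Qj
  rw [bo_three_zero, bo_three_zero, bo_three_right]
  rcases bo_three_both ev κ p hq with h | h
  · rw [h]
    refine ⟨?_, ?_, ?_⟩ <;> nlinarith [mul_nonneg (by linarith : (0 : ℝ) ≤ 1 - U)
      (by linarith : (0 : ℝ) ≤ 1 + V), mul_nonneg (by linarith : (0 : ℝ) ≤ 1 + U)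
      (by linarith : (0 : ℝ) ≤ 1 - V), mul_nonneg (by linarith : (0 : ℝ) ≤ 1 + U)
      (by linarith : (0 : ℝ) ≤ 1 + V)]
  · rw [h]
    refine ⟨?_, ?_, ?_⟩ <;> nlinarith [mul_nonneg (by linarith : (0 : ℝ) ≤ 1 - U)
      (by linarith : (0 : ℝ) ≤ 1 - V)]

/-- the bound of the sum for a class -/
noncomputable def mj (q c : Fin 4) (ev : Bool) (s : Bool) : ℝ :=
  if c = 3 then 1 else if c = q then (if s = true then 1 else 2)
    else (if (ev && s) = true then 1 else 1 / 2)

/-- the saving -/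
noncomputable def gj (q c : Fin 4) (s : Bool) : ℝ :=
  if c = 3 then 1 / 4 else if c = q then (if s = true then 0 else 1) else 0

lemma Qj_le {q : Fin 4} (hq : q ≠ 3) (c : Fin 4) (ev : Bool) (κ : Fin 3 → ℤ) (p : ℕ) {U V : ℝ}
    (hU : |U| ≤ 1) (hV : |V| ≤ 1) :
    Qj q c ev κ p U V ≤ mj q c ev (sg0 p (κ 0)) ∧
    Qj q c ev κ p U V ≤ mj q c ev (sg0 p (κ 0)) - gj q c (sg0 p (κ 0)) * (1 - U) ∧
    Qj q c ev κ p U V ≤ mj q c ev (sg0 p (κ 0)) - gj q c (sg0 p (κ 0)) * (1 - V) := by
  obtain ⟨u1, u2⟩ := abs_le.1 hU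
  obtain ⟨v1, v2⟩ := abs_le.1 hV
  by_cases h3 : c = 3
  · subst h3
    unfold mj gj
    rw [if_pos rfl, if_pos rfl]
    exact Qj_three hq ev κ p hU hV
  unfold mj gj
  rw [if_neg h3, if_neg h3]
  by_cases hcq : c = q
  · subst hcq
    rw [if_pos rfl, if_pos rfl]
    by_cases hn : nsE c ev κ p = true
    · have hs : sg0 p (κ 0) = true := by
        unfold nsE at hn
        simp only [Bool.and_eq_true] at hn
        exact hn.2.2
      unfold Qj
      rw [bo_ns hn, bo_ns hn, bo_ns hn, bo_ns hn, hs]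
      have e1 : ¬ (oo = oo ∧ (ec c).swap = oo) := by
        clear hn hs hq
        revert c; decide
      have e2 : ¬ (ec c = oo ∧ oo = oo) := by
        clear hn hs hq
        revert c; decide
      have e3 : ¬ (ec c = oo ∧ (ec c).swap = oo) := by
        clear hn hs hq
        revert c; decide
      rw [if_pos ⟨rfl, rfl⟩, if_neg e1, if_neg e2, if_neg e3]
      simp
    · unfold Qj
      rw [bo_val h3 hn, bo_val h3 hn, bo_val h3 hn, bo_val h3 hn]
      have a1 : Al c oo (ec c).swap = true := by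
        clear hn hq
        revert c; decide
      have a2 : Al c (ec c) oo = true := by
        clear hn hq
        revert c; decide
      have a3 : Al c (ec c) (ec c).swap = true := by
        clear hn hq
        revert c; decide
      have b1 : decide (oo = ec c) = false := by
        clear hn hq
        revert c; decide
      have b2 : decide (oo = (ec c).swap) = false := by
        clear hn hq
        revert c; decide
      rw [if_pos Al_oo, if_pos a1, if_pos a2, if_pos a3, b1, b2]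
      generalize sg0 p (κ 0) = s
      cases s
      · simp only [Bool.false_and, Bool.and_false, Bool.false_eq_true, if_false]
        refine ⟨?_, ?_, ?_⟩ <;> nlinarith [mul_nonneg (by linarith : (0 : ℝ) ≤ 1 - U)
          (by linarith : (0 : ℝ) ≤ 1 + V), mul_nonneg (by linarith : (0 : ℝ) ≤ 1 + U)
          (by linarith : (0 : ℝ) ≤ 1 - V)]
      · simp only [Bool.false_and, Bool.and_false, Bool.false_eq_true, if_false, decide_true,
          Bool.and_self, if_true]
        refine ⟨?_, ?_, ?_⟩ <;> nlinarith [mul_nonneg (by linarith : (0 : ℝ) ≤ 1 - U)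
          (by linarith : (0 : ℝ) ≤ 1 - V)]
  · rw [if_neg hcq, if_neg hcq]
    unfold Qj
    have a1 : ¬ Al c oo (ec q).swap = true := by
      revert hcq h3 hq
      revert c q; decide
    have a2 : ¬ Al c (ec q) oo = true := by
      revert hcq h3 hq
      revert c q; decide
    have a3 : ¬ Al c (ec q) (ec q).swap = true := by
      revert hcq h3 hq
      revert c q; decide
    rw [bo_zero h3 ev κ p a1, bo_zero h3 ev κ p a2, bo_zero h3 ev κ p a3]
    by_cases hn : nsE c ev κ p = true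
    · have hs : (ev && sg0 p (κ 0)) = true := by
        unfold nsE at hn
        simp only [Bool.and_eq_true] at hn ⊢
        exact ⟨hn.1, hn.2.2⟩
      rw [bo_ns hn, if_pos ⟨rfl, rfl⟩, if_pos hs]
      simp
    · have hs : ¬ (ev && sg0 p (κ 0)) = true := by
        unfold nsE at hn
        simp only [Bool.and_eq_true] at hn ⊢
        intro h
        exact hn ⟨h.1, decide_eq_true h3, h.2⟩
      rw [bo_val h3 hn, if_pos Al_oo, ec_ne, if_neg hs]
      simp

end Pool.Agent.L0h5.TH
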