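import Pool.Agent.L0h5.TH.AvA
import Pool.Agent.L0h5.TF.Fin

/-!
# The factorization of a general family
-/

set_option autoImplicit false
set_option linter.unusedSectionVars false

namespace Pool.Agent.L0h5.TH

open Finset Polynomial Pool.Agent.W262.RK Pool.Agent.L0h5.TF Pool.Agent.L0h5.MR
  UniqueFactorizationMonoid

open Classical in
/-- the factor is additive -/
noncomputable def dl (D f : ℚ[X]) : Bool := decide (f ∣ D)

open Classical in
/-- the class of a factor -/
noncomputable def ql (G : Fin 3 → ℚ[X]) (f : ℚ[X]) : Fin 3 :=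
  if f ∣ G 0 then 0 else if f ∣ G 1 then 1 else 2

open Classical in
/-- the multiplicity of a factor -/
noncomputable def ml (G : Fin 3 → ℚ[X]) (f : ℚ[X]) : ℕ :=
  (normalizedFactors (G (ql G f))).count f

section

variable {D : ℚ[X]} {G : Fin 3 → ℚ[X]}

lemma ql_of_dvd (hcop : ∀ k l, k ≠ l → IsCoprime (G k) (G l)) {f : ℚ[X]} (hf : Irreducible f)
    {k : Fin 3} (hk : f ∣ G k) : ql G f = k := by
  have h1 : ∀ l, l ≠ k → ¬ f ∣ G l := fun l hl hd =>
    hf.not_isUnit ((hcop k l hl.symm).isUnit_of_dvd' hk hd)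
  have h3 : k = 0 ∨ k = 1 ∨ k = 2 := by
    clear h1 hk
    revert k
    decide
  unfold ql
  rcases h3 with rfl | rfl | rfl
  · rw [if_pos hk]
  · rw [if_neg (h1 0 (by decide)), if_pos hk]
  · rw [if_neg (h1 0 (by decide)), if_neg (h1 1 (by decide))]

open Classical in
lemma count_G (hcop : ∀ k l, k ≠ l → IsCoprime (G k) (G l)) {f : ℚ[X]} (hf : Irreducible f)
    (k : Fin 3) : (normalizedFactors (G k)).count f = if ql G f = k then ml G f else 0 := by
  by_cases h : ql G f = k
  · rw [if_pos h]
    unfold ml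
    rw [h]
  · rw [if_neg h, Multiset.count_eq_zero]
    intro hm
    exact h (ql_of_dvd hcop hf (dvd_of_mem_normalizedFactors hm))

open Classical in
lemma count_D (hD : Squarefree D) {f : ℚ[X]} (hf : Irreducible f) (hn : normalize f = f) :
    (normalizedFactors D).count f = if dl D f = true then 1 else 0 := by
  unfold dl
  simp only [decide_eq_true_iff]
  have hD0 := hD.ne_zero
  split_ifs with h
  · apply le_antisymm
    · exact Multiset.nodup_iff_count_le_one.1
        ((squarefree_iff_nodup_normalizedFactors hD0).1 hD) f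
    · rw [Multiset.one_le_count_iff_mem]
      obtain ⟨g, hg, hfg⟩ := exists_mem_normalizedFactors_of_dvd hD0 hf h
      have h1 : f = g := by
        rw [← hn, ← normalize_normalized_factor g hg]
        exact normalize_eq_normalize_iff_associated.2 hfg
      rwa [h1]
  · rw [Multiset.count_eq_zero]
    intro hm
    exact h (dvd_of_mem_normalizedFactors hm)

open Classical in
/-- the factorization -/
theorem fac2 (hD : Squarefree D) (hG : ∀ k, G k ≠ 0)
    (hcop : ∀ k l, k ≠ l → IsCoprime (G k) (G l)) (S : Finset ℚ[X])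
    (hS : ∀ f ∈ S, Irreducible f ∧ normalize f = f)
    (hDS : ∀ f, Irreducible f → normalize f = f → f ∣ D → f ∈ S)
    (hGS : ∀ k f, Irreducible f → normalize f = f → f ∣ G k → f ∈ S) :
    ∃ (P : {f // f ∈ S} → ℤ[X]) (a : Fin 3 → ℤ) (u : ℤ),
      (∀ f : {f // f ∈ S}, ∃ d : ℤ, d ≠ 0 ∧ (P f).map (Int.castRingHom ℚ) = C (d : ℚ) * f.1) ∧
      Fm P a ∧ u ≠ 0 ∧
      ∀ k, (Fk P a (fun f => dl D f.1) (fun f => ql G f.1) (fun f => ml G f.1) k).map
        (Int.castRingHom ℚ) = C ((u : ℚ) ^ 2) * (D * G k) := by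
  set ι := Int.castRingHom ℚ with hι
  choose d hd0 P hP using clear_den
  have hirr : ∀ j : {f // f ∈ S}, Irreducible ((P j.1).map ι) := by
    intro j
    rw [hP]
    have h1 : IsUnit (C ((d j.1 : ℤ) : ℚ)) :=
      Polynomial.isUnit_C.2 (isUnit_iff_ne_zero.2 (by exact_mod_cast hd0 j.1))
    exact (irreducible_isUnit_mul h1).2 (hS j.1 j.2).1
  have hcopP : ∀ i j : {f // f ∈ S}, i ≠ j → IsCoprime ((P i.1).map ι) ((P j.1).map ι) := by
    intro i j hij
    have hdvd : ¬ (P i.1).map ι ∣ (P j.1).map ι := by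
      intro h
      have h1 := (hirr i).associated_of_dvd (hirr j) h
      rw [hP, hP] at h1
      have h2 : Associated i.1 j.1 := by
        have e1 : Associated (C ((d i.1 : ℤ) : ℚ) * i.1) i.1 :=
          associated_unit_mul_left _ _
            (Polynomial.isUnit_C.2 (isUnit_iff_ne_zero.2 (by exact_mod_cast hd0 i.1)))
        have e2 : Associated (C ((d j.1 : ℤ) : ℚ) * j.1) j.1 :=
          associated_unit_mul_left _ _
            (Polynomial.isUnit_C.2 (isUnit_iff_ne_zero.2 (by exact_mod_cast hd0 j.1)))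
        exact e1.symm.trans (h1.trans e2)
      apply hij
      apply Subtype.ext
      rw [← (hS i.1 i.2).2, ← (hS j.1 j.2).2]
      exact normalize_eq_normalize_iff_associated.2 h2
    exact (EuclideanDomain.dvd_or_coprime _ _ (hirr i)).resolve_left hdvd
  have hD0 : D ≠ 0 := hD.ne_zero
  -- the product
  have hprod : ∀ k, ∃ M : ℚ, M ≠ 0 ∧ ∏ f : {f // f ∈ S},
      f.1 ^ mu (fun f : {f // f ∈ S} => dl D f.1) (fun f => ql G f.1) (fun f => ml G f.1) k f =
      C M * (D * G k) := by
    intro k
    apply assoc_eq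
    have hne : D * G k ≠ 0 := mul_ne_zero hD0 (hG k)
    have h1 : (normalizedFactors (D * G k)).prod = ∏ f ∈ S,
        f ^ (normalizedFactors (D * G k)).count f := by
      apply Finset.prod_multiset_count_of_subset
      intro f hf
      rw [Multiset.mem_toFinset] at hf
      have h2 := irreducible_of_normalized_factor f hf
      have h3 := normalize_normalized_factor f hf
      rcases h2.prime.dvd_or_dvd (dvd_of_mem_normalizedFactors hf) with h4 | h4
      · exact hDS f h2 h3 h4
      · exact hGS k f h2 h3 h4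
    have h2 : ∏ f : {f // f ∈ S},
        f.1 ^ mu (fun f : {f // f ∈ S} => dl D f.1) (fun f => ql G f.1) (fun f => ml G f.1) k f =
        ∏ f ∈ S, f ^ (normalizedFactors (D * G k)).count f := by
      rw [← prod_coe_sort S (fun f => f ^ (normalizedFactors (D * G k)).count f)]
      refine prod_congr rfl fun f _ => ?_
      congr 1
      obtain ⟨h3, h4⟩ := hS f.1 f.2
      rw [normalizedFactors_mul hD0 (hG k), Multiset.count_add, count_D hD h3 h4,
        count_G hcop h3 k]
      unfold mu
      rfl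
    rw [h2, ← h1]
    exact prod_normalizedFactors hne
  choose M hM0 hM using hprod
  set dd : Fin 3 → ℚ := fun k => (∏ f : {f // f ∈ S}, ((d f.1 : ℤ) : ℚ) ^
    mu (fun f : {f // f ∈ S} => dl D f.1) (fun f => ql G f.1) (fun f => ml G f.1) k f) * M k
    with hdd
  obtain ⟨u, hu, ha⟩ := exists_u dd (fun k => mul_ne_zero (prod_ne_zero_iff.2 fun f _ =>
    pow_ne_zero _ (by exact_mod_cast hd0 f.1)) (hM0 k))
  choose a ha0 ha using ha
  refine ⟨fun f => P f.1, a, u, fun f => ⟨d f.1, hd0 f.1, hP f.1⟩, ⟨hirr, hcopP, ha0⟩, hu,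
    fun k => ?_⟩
  unfold Fk
  rw [Polynomial.map_mul, Polynomial.map_prod, map_C]
  have h1 : ∏ f : {f // f ∈ S}, ((P f.1) ^ mu (fun f : {f // f ∈ S} => dl D f.1)
      (fun f => ql G f.1) (fun f => ml G f.1) k f).map ι =
      C (dd k) * (D * G k) := by
    have h2 : ∀ f : {f // f ∈ S}, ((P f.1) ^ mu (fun f : {f // f ∈ S} => dl D f.1)
      (fun f => ql G f.1) (fun f => ml G f.1) k f).map ι =
      C (((d f.1 : ℤ) : ℚ) ^ mu (fun f : {f // f ∈ S} => dl D f.1)
        (fun f => ql G f.1) (fun f => ml G f.1) k f) *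
      f.1 ^ mu (fun f : {f // f ∈ S} => dl D f.1)
        (fun f => ql G f.1) (fun f => ml G f.1) k f := by
      intro f
      rw [Polynomial.map_pow, hP, mul_pow, C_pow]
    rw [prod_congr rfl fun f _ => h2 f, prod_mul_distrib, hM, ← map_prod, hdd, C_mul, mul_assoc]
  rw [h1, ← mul_assoc, ← C_mul]
  congr 2
  have := ha k
  rw [hι, eq_intCast, this]

end

end Pool.Agent.L0h5.TH
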