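import Pool.Agent.L0h5.TH.Dat

/-!
# The criterion and the splitting condition
-/

set_option autoImplicit false
set_option linter.unusedSectionVars false

namespace Pool.Agent.L0h5.TH

open Finset Polynomial Pool.Agent.W262.RK Pool.Agent.L0h5.TF Pool.Agent.L0h5.MR
  UniqueFactorizationMonoid

/-- a square modulo `f` -/
def SplitQ (f κ : ℚ[X]) : Prop := ∃ R : ℚ[X], f ∣ κ - R ^ 2

/-- the polynomial that decides the splitting -/
noncomputable def kp (D : ℚ[X]) (G : Fin 3 → ℚ[X]) (k : Fin 3) : ℚ[X] :=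
  if k = 0 then -(D * G 1) else if k = 1 then -(D * G 0) else D * G 0

open Classical in
/-- the distinct irreducible factors of `G k` that do not divide `D` and are not in `T0` -/
noncomputable def mfT (T0 : Finset ℚ[X]) (D : ℚ[X]) (H : ℚ[X]) : Finset ℚ[X] :=
  (normalizedFactors H).toFinset.filter (fun f => ¬ f ∣ D ∧ f ∉ T0)

lemma isSquare_mk_iff {p κ : ℚ[X]} : IsSquare (AdjoinRoot.mk p κ) ↔ SplitQ p κ := by
  constructor
  · rintro ⟨w, hw⟩
    obtain ⟨g, rfl⟩ := AdjoinRoot.mk_surjective w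
    rw [← map_mul, AdjoinRoot.mk_eq_mk, ← pow_two] at hw
    exact ⟨g, hw⟩
  · rintro ⟨R, hR⟩
    refine ⟨AdjoinRoot.mk p R, ?_⟩
    rw [← map_mul, AdjoinRoot.mk_eq_mk, ← pow_two]
    exact hR

lemma splitQ_scale {f κ : ℚ[X]} {d u : ℚ} (hd : d ≠ 0) (hu : u ≠ 0) :
    SplitQ (C d * f) (C (u ^ 2) * κ) ↔ SplitQ f κ := by
  have hdu : IsUnit (C d : ℚ[X]) := Polynomial.isUnit_C.2 (isUnit_iff_ne_zero.2 hd)
  constructor
  · rintro ⟨R, hR⟩
    refine ⟨C u⁻¹ * R, ?_⟩
    have h1 : f ∣ C (u ^ 2) * κ - R ^ 2 := (Dvd.intro_left _ rfl).trans hR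
    have h2 : κ - (C u⁻¹ * R) ^ 2 = C (u⁻¹ ^ 2) * (C (u ^ 2) * κ - R ^ 2) := by
      have h3 : (C (u⁻¹ ^ 2) : ℚ[X]) * C (u ^ 2) = 1 := by
        rw [← C_mul, ← mul_pow, inv_mul_cancel₀ hu, one_pow, C_1]
      have h4 : (C u⁻¹ : ℚ[X]) ^ 2 = C (u⁻¹ ^ 2) := (C_pow).symm
      rw [mul_pow, h4]
      linear_combination (-κ) * h3
    rw [h2]
    exact h1.mul_left _
  · rintro ⟨R, hR⟩
    refine ⟨C u * R, ?_⟩
    rw [hdu.mul_left_dvd]
    have h2 : C (u ^ 2) * κ - (C u * R) ^ 2 = C (u ^ 2) * (κ - R ^ 2) := by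
      rw [C_pow]
      ring
    rw [h2]
    exact hR.mul_left _

open Classical in
lemma split_iff {D : ℚ[X]} {G : Fin 3 → ℚ[X]} {S : Finset ℚ[X]} {P : {f // f ∈ S} → ℤ[X]}
    {a : Fin 3 → ℤ} {u : ℤ} (hu : u ≠ 0)
    (hFk : ∀ k, (Fk P a (fun f => dl D f.1) (fun f => ql G f.1) (fun f => ml G f.1) k).map
        (Int.castRingHom ℚ) = C ((u : ℚ) ^ 2) * (D * G k)) (f : {f // f ∈ S})
    (hP : ∃ d : ℤ, d ≠ 0 ∧ (P f).map (Int.castRingHom ℚ) = C (d : ℚ) * f.1)
    (hδ : dl D f.1 = false) :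
    IsSquare (AdjoinRoot.mk ((P f).map (Int.castRingHom ℚ))
      ((kapQ P a (fun f => dl D f.1) (fun f => ql G f.1) (fun f => ml G f.1) f 0).map
        (Int.castRingHom ℚ))) ↔ SplitQ f.1 (kp D G (ql G f.1)) := by
  obtain ⟨d, hd, hPd⟩ := hP
  have hu' : (u : ℚ) ≠ 0 := by exact_mod_cast hu
  have hd' : (d : ℚ) ≠ 0 := by exact_mod_cast hd
  have h1 : (kapQ P a (fun f => dl D f.1) (fun f => ql G f.1) (fun f => ml G f.1) f 0).map
        (Int.castRingHom ℚ) = C ((u : ℚ) ^ 2) * kp D G (ql G f.1) := by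
    unfold kapQ kp
    rw [if_neg (by
      show ¬ dl D f.1 = true
      rw [hδ]
      simp)]
    split_ifs with h0 h1
    · rw [Polynomial.map_neg, hFk]
      ring
    · rw [Polynomial.map_neg, hFk]
      ring
    · rw [hFk]
  rw [h1, hPd, isSquare_mk_iff]
  exact splitQ_scale hd' hu'

open Classical in
/-- the criterion in terms of the irreducible factors -/
theorem crit_bridge {D : ℚ[X]} {G : Fin 3 → ℚ[X]} (hG : ∀ k, G k ≠ 0)
    (hcop : ∀ k l, k ≠ l → IsCoprime (G k) (G l)) {S : Finset ℚ[X]}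
    (hS : ∀ f ∈ S, Irreducible f ∧ normalize f = f)
    (hGS : ∀ k f, Irreducible f → normalize f = f → f ∣ G k → f ∈ S) (T0 : Finset ℚ[X])
    (hcov : ∀ f ∈ S, f ∉ T0 → f ∣ D ∨ ∃ k, f ∣ G k) (sp : ℚ[X] → Bool)
    (hcr : ∀ k : Fin 3, ∑ f ∈ mfT T0 D (G k), (if sp f = true then (2 : ℝ) else 1) ≤
      ∑ l ∈ univ.erase k, ∑ f ∈ mfT T0 D (G l),
        (if sp f = true ∨ Odd (ml G f) then (1 : ℝ) else 1 / 2)) (q' : Fin 4) (hq' : q' ≠ 3) :
    ∑ j ∈ univ.filter (fun j : {f // f ∈ S} => decide (j.1 ∉ T0) = true),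
      kc q' (clsG (fun f : {f // f ∈ S} => dl D f.1) (fun f => ql G f.1) j)
        (evG (fun f : {f // f ∈ S} => ml G f.1) j) (sp j.1) ≤
      (univ.filter (fun j : {f // f ∈ S} => decide (j.1 ∉ T0) = true)).card := by
  obtain ⟨k, rfl⟩ : ∃ k : Fin 3, k.castSucc = q' := by
    revert q'
    decide
  set Φ : ℚ[X] → ℝ := fun f => kc k.castSucc (if dl D f = true then 3 else (ql G f).castSucc)
    (decide (Even (ml G f))) (sp f) - 1 with hΦ
  have h1 : ∑ j ∈ univ.filter (fun j : {f // f ∈ S} => decide (j.1 ∉ T0) = true),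
      kc k.castSucc (clsG (fun f : {f // f ∈ S} => dl D f.1) (fun f => ql G f.1) j)
        (evG (fun f : {f // f ∈ S} => ml G f.1) j) (sp j.1) =
      ∑ j ∈ univ.filter (fun j : {f // f ∈ S} => decide (j.1 ∉ T0) = true), Φ j.1 +
      (univ.filter (fun j : {f // f ∈ S} => decide (j.1 ∉ T0) = true)).card := by
    rw [← nsmul_one (card _), ← sum_const, ← sum_add_distrib]
    refine sum_congr rfl fun j _ => ?_
    rw [hΦ]
    unfold clsG evG
    ring
  rw [h1]
  have h2 : ∑ j ∈ univ.filter (fun j : {f // f ∈ S} => decide (j.1 ∉ T0) = true), Φ j.1 =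
      ∑ f ∈ S.filter (fun f => f ∉ T0), Φ f := by
    rw [sum_filter, sum_filter, ← sum_coe_sort S]
    refine sum_congr rfl fun j _ => ?_
    simp only [decide_eq_true_iff]
  have h3 : ∑ f ∈ S.filter (fun f => f ∉ T0), Φ f =
      ∑ f ∈ S.filter (fun f => ¬ f ∣ D ∧ f ∉ T0), Φ f := by
    symm
    apply sum_subset
    · intro f hf
      rw [mem_filter] at hf ⊢
      exact ⟨hf.1, hf.2.2⟩
    · intro f hf hf'
      rw [mem_filter] at hf hf'
      have h4 : f ∣ D := by
        by_contra hcon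
        exact hf' ⟨hf.1, hcon, hf.2⟩
      have h5 : dl D f = true := by
        unfold dl
        exact decide_eq_true h4
      rw [hΦ]
      simp only [h5, if_true]
      unfold kc
      rw [if_pos rfl, sub_self]
  have h4 : ∀ l, (S.filter (fun f => ¬ f ∣ D ∧ f ∉ T0)).filter (fun f => ql G f = l) =
      mfT T0 D (G l) := by
    intro l
    ext f
    unfold mfT
    rw [mem_filter, mem_filter, mem_filter, Multiset.mem_toFinset]
    constructor
    · rintro ⟨⟨h5, h6, h7⟩, h8⟩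
      refine ⟨?_, h6, h7⟩
      obtain ⟨h9, h10⟩ := hS f h5
      obtain ⟨l', hl'⟩ := (hcov f h5 h7).resolve_left h6
      have h11 := ql_of_dvd hcop h9 hl'
      have h12 : l' = l := h11.symm.trans h8
      subst h12
      obtain ⟨g, hg, hfg⟩ := exists_mem_normalizedFactors_of_dvd (hG l') h9 hl'
      have h13 : f = g := by
        rw [← h10, ← normalize_normalized_factor g hg]
        exact normalize_eq_normalize_iff_associated.2 hfg
      rwa [h13]
    · rintro ⟨h5, h6, h7⟩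
      have h8 := irreducible_of_normalized_factor f h5
      have h9 := normalize_normalized_factor f h5
      have h10 := dvd_of_mem_normalizedFactors h5
      exact ⟨⟨hGS l f h8 h9 h10, h6, h7⟩, ql_of_dvd hcop h8 h10⟩
  have hdl : ∀ l, ∀ f ∈ mfT T0 D (G l), dl D f = false ∧ ql G f = l := by
    intro l f hf
    rw [← h4 l, mem_filter, mem_filter] at hf
    refine ⟨?_, hf.2⟩
    unfold dl
    exact decide_eq_false hf.1.2.1
  have h5 : ∑ f ∈ S.filter (fun f => ¬ f ∣ D ∧ f ∉ T0), Φ f =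
      ∑ l, ∑ f ∈ mfT T0 D (G l), Φ f := by
    rw [← sum_fiberwise (S.filter (fun f => ¬ f ∣ D ∧ f ∉ T0)) (ql G) Φ]
    exact sum_congr rfl fun l _ => by rw [h4 l]
  have h6 : ∑ f ∈ mfT T0 D (G k), Φ f =
      (1 / 2) * ∑ f ∈ mfT T0 D (G k), (if sp f = true then (2 : ℝ) else 1) := by
    rw [mul_sum]
    refine sum_congr rfl fun f hf => ?_
    obtain ⟨e1, e2⟩ := hdl k f hf
    rw [hΦ]
    simp only [e1, e2, Bool.false_eq_true, if_false]
    have h3 : k.castSucc ≠ 3 := cs_ne k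
    unfold kc th
    rw [if_neg h3, if_pos rfl]
    split_ifs <;> norm_num
  have h7 : ∀ l ∈ univ.erase k, ∑ f ∈ mfT T0 D (G l), Φ f =
      -(1 / 2) * ∑ f ∈ mfT T0 D (G l),
        (if sp f = true ∨ Odd (ml G f) then (1 : ℝ) else 1 / 2) := by
    intro l hl
    rw [mul_sum]
    refine sum_congr rfl fun f hf => ?_
    obtain ⟨e1, e2⟩ := hdl l f hf
    rw [hΦ]
    simp only [e1, e2, Bool.false_eq_true, if_false]
    have h3 : l.castSucc ≠ 3 := cs_ne l
    have h8 : l.castSucc ≠ k.castSucc := fun h => (mem_erase.1 hl).1 (Fin.castSucc_injective 3 h)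
    unfold kc th
    rw [if_neg h3, if_neg h8]
    by_cases ho : Even (ml G f)
    · have ho' : ¬ Odd (ml G f) := Nat.not_odd_iff_even.2 ho
      by_cases hs : sp f = true
      · simp only [ho, hs, ho', decide_true, if_true, true_or]
        norm_num
      · simp only [ho, hs, ho', decide_true, if_true, or_self, if_false, Bool.false_eq_true]
        norm_num
    · have ho' : Odd (ml G f) := Nat.not_even_iff_odd.1 ho
      simp only [ho, ho', decide_false, or_true, if_true, Bool.false_eq_true, if_false]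
      norm_num
  rw [h2, h3, h5, ← add_sum_erase univ (fun l => ∑ f ∈ mfT T0 D (G l), Φ f) (mem_univ k), h6,
    sum_congr rfl h7, ← mul_sum]
  have h8 := hcr k
  linarith

end Pool.Agent.L0h5.TH
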