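import Pool.Agent.L0h5.TH.FinZ2

/-!
# Prime arguments
-/

set_option autoImplicit false
set_option linter.unusedSectionVars false

namespace Pool.Agent.L0h5.TH

open Finset Polynomial Pool.Agent.W262.RK Pool.Agent.L0h5.TF Pool.Agent.L0h5.MR
  UniqueFactorizationMonoid

lemma log2_pos {X : ℕ} (hX : 1 ≤ X) : 0 < Real.log (2 * X) := by
  apply Real.log_pos
  have : (1 : ℝ) ≤ X := by exact_mod_cast hX
  linarith

lemma S_ge {X : ℕ} (hX : 1 ≤ X) : 1 ≤ (X : ℝ) / Real.log (2 * X) := by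
  have h1 : (1 : ℝ) ≤ X := by exact_mod_cast hX
  rw [one_le_div (log2_pos hX), Real.log_mul two_ne_zero (by linarith)]
  have h2 := Real.log_le_sub_one_of_pos (by linarith : (0 : ℝ) < X)
  have h3 := Real.log_two_lt_d9
  linarith

lemma k4 : ∀ k : ℕ, 1 ≤ k → 2 * k + 1 ≤ 4 ^ k := by
  intro k hk
  induction k, hk using Nat.le_induction with
  | base => norm_num
  | succ n hn ih =>
    rw [pow_succ]
    omega

lemma S_cond {X y k' : ℕ} (hy : 3 ≤ y) (hyX : y ≤ X) (hX : X < (y + 1) ^ k') :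
    (X : ℝ) / (Real.log y) ^ 1 ≤ 4 ^ k' * ((X : ℝ) / Real.log (2 * X)) := by
  have hyr : (3 : ℝ) ≤ y := by exact_mod_cast hy
  have hly : 0 < Real.log y := Real.log_pos (by linarith)
  have hXr : (3 : ℝ) ≤ X := by exact_mod_cast hy.trans hyX
  have h2X := log2_pos (by omega : 1 ≤ X)
  have hk : 1 ≤ k' := by
    by_contra hcon
    have : k' = 0 := by omega
    subst this
    rw [pow_zero] at hX
    omega
  have h1 : Real.log (2 * X) ≤ 4 ^ k' * Real.log y := by
    rw [Real.log_mul two_ne_zero (by linarith)]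
    have h2 : Real.log 2 ≤ Real.log y := Real.log_le_log (by norm_num) (by linarith)
    have h3 : Real.log X ≤ k' * (2 * Real.log y) := by
      have h4 : (X : ℝ) ≤ ((y : ℝ) ^ 2) ^ k' := by
        have h5 : X ≤ (y ^ 2) ^ k' := hX.le.trans (Nat.pow_le_pow_left (by nlinarith) _)
        exact_mod_cast h5
      calc Real.log X ≤ Real.log (((y : ℝ) ^ 2) ^ k') := Real.log_le_log (by linarith) h4
        _ = _ := by
          rw [Real.log_pow, Real.log_pow]
          norm_num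
    have h5 : ((2 * k' + 1 : ℕ) : ℝ) ≤ ((4 ^ k' : ℕ) : ℝ) := by exact_mod_cast k4 k' hk
    push_cast at h5
    nlinarith
  rw [pow_one, div_le_iff₀ hly]
  have h6 : (X : ℝ) = (X : ℝ) / Real.log (2 * X) * Real.log (2 * X) :=
    (div_mul_cancel₀ _ h2X.ne').symm
  calc (X : ℝ) = (X : ℝ) / Real.log (2 * X) * Real.log (2 * X) := h6
    _ ≤ (X : ℝ) / Real.log (2 * X) * (4 ^ k' * Real.log y) :=
        mul_le_mul_of_nonneg_left h1 (by positivity)
    _ = _ := by ring

section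

variable {D : ℚ[X]} {G : Fin 3 → ℚ[X]}

lemma irrX : Irreducible (X : ℚ[X]) ∧ normalize (X : ℚ[X]) = X :=
  ⟨irreducible_X, monic_X.normalize_eq_self⟩

/-- **Primes in short intervals to the right of the length** -/
theorem gP0 (hrel : G 0 - G 1 = G 2) (hD : Squarefree D) (hG : ∀ k, G k ≠ 0)
    (h01 : IsCoprime (G 0) (G 1)) (k : ℕ)
    (hyp : (k = 1 ∧ CritT {X} D G) ∨ (∀ l, IsUnit (G l))) (M : ℕ) :
    ∃ C : ℝ, ∀ Y : ℕ, 1 ≤ Y → ∀ x : ℕ, Y ≤ x → x ≤ Y ^ M →
      ∑ p ∈ (Ioc x (x + Y)).filter (fun p : ℕ => p.Prime ∧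
        (D * G 0 * G 1 * G 2).eval (p : ℚ) ≠ 0), ((2 : ℝ) ^ rkE D G p) ^ k ≤
          C * ((Y : ℝ) / Real.log (2 * Y)) := by
  classical
  set S : Finset ℚ[X] := insert X (fcs D G) with hS
  have hSs : ∀ f ∈ S, Irreducible f ∧ normalize f = f := by
    intro f hf
    rcases mem_insert.1 hf with rfl | h
    · exact irrX
    · exact ⟨(fcs_spec h).1, (fcs_spec h).2.1⟩
  obtain ⟨P, z, C, hP, hC⟩ := gcore hrel hD hG h01 S ⟨X, mem_insert_self _ _⟩ hSs
      (fun f h1 h2 h3 => mem_insert_of_mem (mem_fcs hD.ne_zero hG h1 h2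
        (((h3.mul_right _).mul_right _).mul_right _)))
      (fun l f h1 h2 h3 => mem_insert_of_mem (mem_fcs hD.ne_zero hG h1 h2
        (h3.trans (dvd_all l))))
      {X} (fun f hf hX => by
        rcases mem_insert.1 hf with rfl | h
        · exact absurd (mem_singleton_self _) hX
        · exact fcs_cases h) k (by
        rcases hyp with h1 | h1
        · exact Or.inl h1
        · refine Or.inr fun f hf hX => ?_
          rcases mem_insert.1 hf with rfl | hf
          · exact absurd (mem_singleton_self _) hX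
          rcases fcs_cases hf with h2 | ⟨l, h2⟩
          · exact h2
          · exact absurd (isUnit_of_dvd_unit h2 (h1 l)) (fcs_spec hf).1.not_isUnit) M 1
      (by
        have h1 : S.filter (fun f => f ∈ ({X} : Finset ℚ[X])) = {X} := by
          ext f
          rw [mem_filter, mem_singleton]
          constructor
          · exact fun h => h.2
          · rintro rfl
            exact ⟨mem_insert_self _ _, rfl⟩
        rw [h1, card_singleton])
      (fun Y => (Y : ℝ) / Real.log (2 * Y)) (fun Y hY => S_ge hY) 4 (by norm_num)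
      (fun Y y k' hy hyY hY => S_cond hy hyY hY)
  refine ⟨C, fun Y hY x hYx hxM => ?_⟩
  set TX : Finset ℤ := ((Ioc x (x + Y)).filter (fun p : ℕ => p.Prime ∧
        (D * G 0 * G 1 * G 2).eval (p : ℚ) ≠ 0)).image (fun p : ℕ => (p : ℤ)) with hTX
  have h1 := hC Y hY TX ⟨(x : ℤ), by simpa using hxM, fun t ht => by
    rw [hTX, mem_image] at ht
    obtain ⟨p, hp, rfl⟩ := ht
    rw [mem_filter, mem_Ioc] at hp
    obtain ⟨⟨h2, h3⟩, h4, h5⟩ := hp
    refine ⟨by exact_mod_cast h2, by exact_mod_cast h3, FF_ne (fun f => by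
      obtain ⟨d, hd, hPd, -⟩ := hP f
      exact ⟨d, hd, hPd⟩) (fun f hf => ?_), fun j hj r hr hzr hrY hrd => ?_⟩
    · rcases mem_insert.1 hf with rfl | h
      · rw [eval_X]
        have := h4.pos
        push_cast
        positivity
      · have := factor_ne (fcs_spec h).2.2 h5
        push_cast
        exact this
    · have hjX : j.1 = X := by
        rw [decide_eq_false_iff_not, not_not, mem_singleton] at hj
        exact hj
      obtain ⟨d, hd, hPd, hdz⟩ := hP j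
      have h6 : ((P j).eval (p : ℤ)) = d * p := by
        have h7 := congrArg (fun f : ℚ[X] => f.eval ((p : ℤ) : ℚ)) hPd
        simp only [eval_mul, eval_C, hjX, eval_X] at h7
        rw [eval_intCast_map, Int.cast_id, eq_intCast] at h7
        exact_mod_cast h7
      rw [h6] at hrd
      rcases (Nat.prime_iff_prime_int.1 hr).dvd_or_dvd hrd with h7 | h7
      · have := Nat.le_of_dvd (Int.natAbs_pos.2 hd) (Int.natCast_dvd.1 h7)
        omega
      · have h8 : r ∣ p := by exact_mod_cast h7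
        have h9 := (Nat.prime_dvd_prime_iff_eq hr h4).1 h8
        omega⟩
  rw [hTX, sum_image (fun i _ j _ hij => by exact_mod_cast hij)] at h1
  refine le_trans (le_of_eq (sum_congr rfl fun p _ => ?_)) h1
  rw [Int.cast_natCast]

lemma dyad_sum : ∀ n : ℕ, ∑ i ∈ range n, (2 : ℝ) ^ i / (i + 1) ≤ 3 * (2 ^ n / (n + 1)) := by
  intro n
  induction n with
  | zero => simp
  | succ n ih =>
    rw [sum_range_succ]
    have hn : (0 : ℝ) ≤ n := Nat.cast_nonneg n
    have h2 : (0 : ℝ) < 2 ^ n := by positivity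
    rcases Nat.eq_zero_or_pos n with h0 | h0
    · subst h0
      norm_num
    have h1 : (1 : ℝ) ≤ n := by exact_mod_cast h0
    have h3 : 3 * ((2 : ℝ) ^ n / (n + 1)) + 2 ^ n / (n + 1) ≤
        3 * (2 ^ (n + 1) / (((n + 1 : ℕ) : ℝ) + 1)) := by
      push_cast
      rw [pow_succ, ← mul_div_assoc, ← add_div, ← mul_div_assoc, div_le_div_iff₀ (by positivity)
        (by positivity)]
      nlinarith [mul_nonneg h2.le (by linarith : (0 : ℝ) ≤ n - 1)]
    linarith

/-- from the dyadic intervals to all the intervals -/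
lemma dyadic (R : ℕ → ℝ) (hR : ∀ p, 0 ≤ R p) (Q : ℕ → Prop) [DecidablePred Q]
    (hQ : ∀ p, Q p → p.Prime) (C : ℝ) (M : ℕ) (hM : 1 ≤ M)
    (h : ∀ Y : ℕ, 1 ≤ Y → ∀ x : ℕ, Y ≤ x → x ≤ Y ^ M →
      ∑ p ∈ (Ioc x (x + Y)).filter Q, R p ≤ C * ((Y : ℝ) / Real.log (2 * Y))) :
    ∃ C' : ℝ, ∀ Y : ℕ, 2 ≤ Y → ∀ x : ℕ, x ≤ Y ^ M →
      ∑ p ∈ (Ioc x (x + Y)).filter Q, R p ≤ C' * ((Y : ℝ) / Real.log Y) := by
  classical
  have hC : 0 ≤ C := by
    have h1 := h 1 le_rfl 1 le_rfl (by rw [one_pow])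
    have h2 : 0 ≤ ∑ p ∈ (Ioc 1 (1 + 1)).filter Q, R p := sum_nonneg fun p _ => hR p
    have h3 : (0 : ℝ) < ((1 : ℕ) : ℝ) / Real.log (2 * ((1 : ℕ) : ℝ)) :=
      div_pos (by norm_num) (log2_pos le_rfl)
    by_contra hcon
    push Not at hcon
    have h4 : C * (((1 : ℕ) : ℝ) / Real.log (2 * ((1 : ℕ) : ℝ))) < 0 :=
      mul_neg_of_neg_of_pos hcon h3
    linarith
  have hl2 : 0 < Real.log 2 := Real.log_pos (by norm_num)
  -- all the primes up to a power of two
  have hall : ∀ n : ℕ, ∑ p ∈ (Ioc 1 (2 ^ n)).filter Q, R p ≤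
      C / Real.log 2 * (3 * (2 ^ n / (n + 1))) := by
    intro n
    have h1 : ∑ p ∈ (Ioc 1 (2 ^ n)).filter Q, R p ≤
        ∑ i ∈ range n, ∑ p ∈ (Ioc (2 ^ i) (2 ^ i + 2 ^ i)).filter Q, R p := by
      induction n with
      | zero => simp
      | succ n ih =>
        rw [sum_range_succ]
        have h2 : (Ioc 1 (2 ^ (n + 1))).filter Q ⊆
            (Ioc 1 (2 ^ n)).filter Q ∪ (Ioc (2 ^ n) (2 ^ n + 2 ^ n)).filter Q := by
          intro p hp
          rw [mem_filter, mem_Ioc, pow_succ] at hp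
          rw [mem_union, mem_filter, mem_filter, mem_Ioc, mem_Ioc]
          by_cases h3 : p ≤ 2 ^ n
          · exact Or.inl ⟨⟨hp.1.1, h3⟩, hp.2⟩
          · exact Or.inr ⟨⟨by omega, by omega⟩, hp.2⟩
        refine (sum_le_sum_of_subset_of_nonneg h2 fun p _ _ => hR p).trans ?_
        have h3 : ∑ p ∈ (Ioc 1 (2 ^ n)).filter Q ∪ (Ioc (2 ^ n) (2 ^ n + 2 ^ n)).filter Q, R p ≤
            ∑ p ∈ (Ioc 1 (2 ^ n)).filter Q, R p +
              ∑ p ∈ (Ioc (2 ^ n) (2 ^ n + 2 ^ n)).filter Q, R p := by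
          rw [← sum_union_inter]
          exact le_add_of_nonneg_right (sum_nonneg fun p _ => hR p)
        linarith
    refine h1.trans ?_
    have h2 : ∀ i ∈ range n, ∑ p ∈ (Ioc (2 ^ i) (2 ^ i + 2 ^ i)).filter Q, R p ≤
        C / Real.log 2 * ((2 : ℝ) ^ i / (i + 1)) := by
      intro i _
      have h3 := h (2 ^ i) Nat.one_le_two_pow (2 ^ i) le_rfl (Nat.le_self_pow (by omega) _)
      refine h3.trans (le_of_eq ?_)
      have h4 : Real.log (2 * ((2 ^ i : ℕ) : ℝ)) = (i + 1) * Real.log 2 := by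
        have e : (2 : ℝ) * ((2 ^ i : ℕ) : ℝ) = 2 ^ (i + 1) := by
          push_cast
          ring
        rw [e, Real.log_pow]
        push_cast
        ring
      rw [h4]
      push_cast
      field_simp
    refine (sum_le_sum h2).trans ?_
    rw [← mul_sum]
    exact mul_le_mul_of_nonneg_left (dyad_sum n) (by positivity)
  refine ⟨C + C * 24, fun Y hY x hx => ?_⟩
  have hYr : (2 : ℝ) ≤ Y := by exact_mod_cast hY
  have hlY : 0 < Real.log Y := Real.log_pos (by linarith)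
  have hS : 0 ≤ (Y : ℝ) / Real.log Y := by positivity
  rcases le_total Y x with h1 | h1
  · refine (h Y (by omega) x h1 hx).trans ?_
    have h2 : (Y : ℝ) / Real.log (2 * Y) ≤ (Y : ℝ) / Real.log Y := by
      apply div_le_div_of_nonneg_left (by linarith) hlY
      exact Real.log_le_log (by linarith) (by linarith)
    calc C * ((Y : ℝ) / Real.log (2 * Y)) ≤ C * ((Y : ℝ) / Real.log Y) :=
          mul_le_mul_of_nonneg_left h2 hC
      _ ≤ (C + C * 24) * ((Y : ℝ) / Real.log Y) := by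
          apply mul_le_mul_of_nonneg_right _ hS
          linarith
  · -- the primes up to `2 Y`
    set n := Nat.log 2 Y with hn
    have hYn : Y < 2 ^ (n + 1) := Nat.lt_pow_succ_log_self (by norm_num) Y
    have hnY : 2 ^ n ≤ Y := Nat.pow_log_le_self 2 (by omega)
    have h2 : ∑ p ∈ (Ioc x (x + Y)).filter Q, R p ≤
        ∑ p ∈ (Ioc 1 (2 ^ (n + 2))).filter Q, R p := by
      refine sum_le_sum_of_subset_of_nonneg ?_ fun p _ _ => hR p
      intro p hp
      rw [mem_filter, mem_Ioc] at hp ⊢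
      have h3 := (hQ p hp.2).one_lt
      have h4 : 2 ^ (n + 2) = 2 * 2 ^ (n + 1) := by ring
      exact ⟨⟨h3, by omega⟩, hp.2⟩
    refine h2.trans ((hall (n + 2)).trans ?_)
    have h3 : (2 : ℝ) ^ (n + 2) ≤ 4 * Y := by
      have h4 : ((2 ^ n : ℕ) : ℝ) ≤ Y := by exact_mod_cast hnY
      push_cast at h4
      calc (2 : ℝ) ^ (n + 2) = 4 * 2 ^ n := by ring
        _ ≤ _ := by linarith
    have h4 : Real.log Y ≤ (n + 1) * Real.log 2 := by
      have h5 : (Y : ℝ) ≤ 2 ^ (n + 1) := by exact_mod_cast hYn.le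
      calc Real.log Y ≤ Real.log (2 ^ (n + 1)) := Real.log_le_log (by linarith) h5
        _ = _ := by
          rw [Real.log_pow]
          push_cast
          ring
    have h5 : (2 : ℝ) ^ (n + 2) / (((n + 2 : ℕ) : ℝ) + 1) / Real.log 2 ≤
        4 * ((Y : ℝ) / Real.log Y) := by
      rw [div_div, ← mul_div_assoc]
      apply div_le_div₀ (by positivity) h3 hlY
      push_cast
      nlinarith
    calc C / Real.log 2 * (3 * ((2 : ℝ) ^ (n + 2) / (((n + 2 : ℕ) : ℝ) + 1))) =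
          C * 3 * ((2 : ℝ) ^ (n + 2) / (((n + 2 : ℕ) : ℝ) + 1) / Real.log 2) := by
          field_simp
      _ ≤ C * 3 * (4 * ((Y : ℝ) / Real.log Y)) :=
          mul_le_mul_of_nonneg_left h5 (by positivity)
      _ ≤ (C + C * 24) * ((Y : ℝ) / Real.log Y) := by
          have h6 : 0 ≤ C * ((Y : ℝ) / Real.log Y) := mul_nonneg hC hS
          nlinarith

open Classical in
/-- **Primes in short intervals** -/
theorem gP (hrel : G 0 - G 1 = G 2) (hD : Squarefree D) (hG : ∀ k, G k ≠ 0)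
    (h01 : IsCoprime (G 0) (G 1)) (k : ℕ)
    (hyp : (k = 1 ∧ CritT {X} D G) ∨ (∀ l, IsUnit (G l))) (M : ℕ) :
    ∃ C : ℝ, ∀ Y : ℕ, 2 ≤ Y → ∀ x : ℕ, x ≤ Y ^ M →
      ∑ p ∈ (Ioc x (x + Y)).filter (fun p : ℕ => p.Prime ∧
        (D * G 0 * G 1 * G 2).eval (p : ℚ) ≠ 0), ((2 : ℝ) ^ rkE D G p) ^ k ≤
          C * ((Y : ℝ) / Real.log Y) := by
  obtain ⟨C, hC⟩ := gP0 hrel hD hG h01 k hyp (M + 1)
  obtain ⟨C', hC'⟩ := dyadic (fun p => ((2 : ℝ) ^ rkE D G p) ^ k) (fun p => by positivity)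
    (fun p : ℕ => p.Prime ∧ (D * G 0 * G 1 * G 2).eval (p : ℚ) ≠ 0) (fun p hp => hp.1) C (M + 1)
    (by omega) (fun Y hY x h1 h2 => by
      refine le_trans (le_of_eq (sum_congr ?_ fun _ _ => rfl)) (hC Y hY x h1 h2)
      ext p
      simp only [mem_filter])
  refine ⟨C', fun Y hY x hx => ?_⟩
  refine le_trans (le_of_eq (sum_congr ?_ fun _ _ => rfl))
    (hC' Y hY x (hx.trans (Nat.pow_le_pow_right (by omega) (by omega))))
  ext p
  simp only [mem_filter]

open Classical in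
/-- **Twists, primes in short intervals** -/
theorem twistP (A B : ℚ) (hA : A ≠ 0) (hB : B ≠ 0) (hAB : A ≠ B) (D : ℚ[X]) (hD : D ≠ 0)
    (k M : ℕ) : ∃ C : ℝ, ∀ Y : ℕ, 2 ≤ Y → ∀ x : ℕ, x ≤ Y ^ M →
      ∑ p ∈ (Ioc x (x + Y)).filter (fun p : ℕ => p.Prime ∧ D.eval (p : ℚ) ≠ 0),
        ((2 : ℝ) ^ Module.finrank ℤ (EQ (A * D.eval (p : ℚ))
          (B * D.eval (p : ℚ))).toAffine.Point) ^ k ≤ C * ((Y : ℝ) / Real.log Y) := by
  obtain ⟨s, q, hs, hDs⟩ := exists_sqfree _ D hD le_rfl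
  obtain ⟨h1, h2⟩ := twist_data hA hB hAB
  obtain ⟨K, hK⟩ := gP (D := s) (G := ![C A, C B, C (A - B)]) h2 hs (fun l => (h1 l).ne_zero)
    (unit_cop (h1 0)) k (Or.inr h1) M
  refine ⟨K, fun X hX x hx => le_trans ?_ (hK X hX x hx)⟩
  have h3 : ∀ p ∈ (Ioc x (x + X)).filter (fun p : ℕ => p.Prime ∧ D.eval (p : ℚ) ≠ 0),
      ((2 : ℝ) ^ Module.finrank ℤ (EQ (A * D.eval (p : ℚ))
          (B * D.eval (p : ℚ))).toAffine.Point) ^ k =
      ((2 : ℝ) ^ rkE s ![C A, C B, C (A - B)] p) ^ k := by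
    intro t ht
    rw [rk_twist hDs (mem_filter.1 ht).2.2]
  rw [sum_congr rfl h3]
  refine sum_le_sum_of_subset_of_nonneg ?_ (fun t _ _ => by positivity)
  intro t ht
  rw [mem_filter] at ht ⊢
  exact ⟨ht.1, ht.2.1, s_ne hA hB hAB hDs ht.2.2⟩

end

end Pool.Agent.L0h5.TH
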