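import Pool.Agent.L0h5.TH.Dat2

/-!
# Families over the rational polynomials, integer parameters
-/

set_option autoImplicit false
set_option linter.unusedSectionVars false

namespace Pool.Agent.L0h5.TH

open Finset Polynomial Pool.Agent.W262.RK Pool.Agent.L0h5.TF Pool.Agent.L0h5.MR
  UniqueFactorizationMonoid

/-- the curve `y² = x (x - A) (x - B)` -/
def EQ (A B : ℚ) : WeierstrassCurve ℚ := ⟨0, -(A + B), 0, A * B, 0⟩

/-- scaling by a square -/
lemma rank_scaleQ (A B : ℚ) {u : ℚ} (hu : u ≠ 0) :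
    Module.finrank ℤ (EQ (u ^ 2 * A) (u ^ 2 * B)).toAffine.Point =
      Module.finrank ℤ (EQ A B).toAffine.Point := by
  obtain ⟨e⟩ := Pool.Agent.W261.RT.iso (-(A + B)) (A * B) 0 0 (u⁻¹) (inv_ne_zero hu)
  have h1 : (⟨0, (-(A + B) + 3 * 0) / (u⁻¹) ^ 2, 0,
      (A * B + 2 * 0 * (-(A + B)) + 3 * 0 ^ 2) / (u⁻¹) ^ 4,
      (0 + 0 * (A * B) + 0 ^ 2 * (-(A + B)) + 0 ^ 3) / (u⁻¹) ^ 6⟩ :
        WeierstrassCurve ℚ) = EQ (u ^ 2 * A) (u ^ 2 * B) := by
    unfold EQ
    congr 1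
    · field_simp
      ring
    · field_simp
      ring
    · ring
  rw [h1] at e
  exact (e.toIntLinearEquiv.finrank_eq).symm

/-- the rank of a member of the family -/
noncomputable def rkE (D : ℚ[X]) (G : Fin 3 → ℚ[X]) (t : ℚ) : ℕ :=
  Module.finrank ℤ (EQ ((D * G 0).eval t) ((D * G 1).eval t)).toAffine.Point

lemma rk_eq {D : ℚ[X]} {G : Fin 3 → ℚ[X]} {F : Fin 3 → ℤ[X]} {u : ℤ} (hu : u ≠ 0)
    (hF : ∀ k, (F k).map (Int.castRingHom ℚ) = C ((u : ℚ) ^ 2) * (D * G k)) (t : ℤ) :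
    Module.finrank ℤ (EAB ((F 0).eval t) ((F 1).eval t)).toAffine.Point = rkE D G t := by
  have h1 : ∀ k, (((F k).eval t : ℤ) : ℚ) = (u : ℚ) ^ 2 * (D * G k).eval (t : ℚ) := by
    intro k
    have h2 := congrArg (fun f : ℚ[X] => f.eval (t : ℚ)) (hF k)
    simp only [eval_mul, eval_C] at h2
    rw [eval_intCast_map] at h2
    simp only [eq_intCast, Int.cast_id] at h2
    rw [h2, eval_mul]
  have h2 : EAB ((F 0).eval t) ((F 1).eval t) =
      EQ ((u : ℚ) ^ 2 * (D * G 0).eval (t : ℚ)) ((u : ℚ) ^ 2 * (D * G 1).eval (t : ℚ)) := by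
    unfold EAB EQ
    rw [h1, h1]
  rw [h2, rank_scaleQ _ _ (by exact_mod_cast hu)]
  rfl

lemma cop3 {G : Fin 3 → ℚ[X]} (hrel : G 0 - G 1 = G 2) (h01 : IsCoprime (G 0) (G 1)) :
    ∀ k l, k ≠ l → IsCoprime (G k) (G l) := by
  have h02 : IsCoprime (G 0) (G 2) := by
    rw [← hrel]
    have := (IsCoprime.add_mul_left_right h01.neg_right 1)
    have e : -G 1 + G 0 * 1 = G 0 - G 1 := by ring
    rwa [e] at this
  have h12 : IsCoprime (G 1) (G 2) := by
    rw [← hrel]
    have := (IsCoprime.add_mul_left_right h01.symm (-1))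
    have e : G 0 + G 1 * -1 = G 0 - G 1 := by ring
    rwa [e] at this
  have h3 : ∀ k : Fin 3, k = 0 ∨ k = 1 ∨ k = 2 := by decide
  intro k l hkl
  rcases h3 k with rfl | rfl | rfl <;> rcases h3 l with rfl | rfl | rfl
  · exact absurd rfl hkl
  · exact h01
  · exact h02
  · exact h01.symm
  · exact absurd rfl hkl
  · exact h12
  · exact h02.symm
  · exact h12.symm
  · exact absurd rfl hkl

open Classical in
/-- the criterion -/
def CritT (T0 : Finset ℚ[X]) (D : ℚ[X]) (G : Fin 3 → ℚ[X]) : Prop :=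
  ∀ k : Fin 3, ∑ f ∈ mfT T0 D (G k), (if SplitQ f (kp D G k) then (2 : ℝ) else 1) ≤
      ∑ l ∈ univ.erase k, ∑ f ∈ mfT T0 D (G l),
        (if SplitQ f (kp D G l) ∨ Odd ((normalizedFactors (G l)).count f) then (1 : ℝ)
          else 1 / 2)

open Classical in
/-- **The main estimate** -/
theorem gcore {D : ℚ[X]} {G : Fin 3 → ℚ[X]} (hrel : G 0 - G 1 = G 2)
    (hD : Squarefree D) (hG : ∀ k, G k ≠ 0) (h01 : IsCoprime (G 0) (G 1)) (S : Finset ℚ[X])
    (hne : S.Nonempty) (hS : ∀ f ∈ S, Irreducible f ∧ normalize f = f)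
    (hDS : ∀ f, Irreducible f → normalize f = f → f ∣ D → f ∈ S)
    (hGS : ∀ k f, Irreducible f → normalize f = f → f ∣ G k → f ∈ S) (T0 : Finset ℚ[X])
    (hcov : ∀ f ∈ S, f ∉ T0 → f ∣ D ∨ ∃ k, f ∣ G k) (k : ℕ)
    (hyp : (k = 1 ∧ CritT T0 D G) ∨ (∀ f ∈ S, f ∉ T0 → f ∣ D)) (M nE : ℕ)
    (hnE : nE = (S.filter (fun f => f ∈ T0)).card)
    (Sx : ℕ → ℝ) (hS1 : ∀ X, 1 ≤ X → 1 ≤ Sx X) (Dc : ℝ) (hDc : 1 ≤ Dc)
    (hSx : ∀ X y k' : ℕ, 3 ≤ y → y ≤ X → X < (y + 1) ^ k' →
      (X : ℝ) / (Real.log y) ^ nE ≤ Dc ^ k' * Sx X) :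
    ∃ (P : {f // f ∈ S} → ℤ[X]) (z : ℕ) (C2 : ℝ),
      (∀ f : {f // f ∈ S}, ∃ d : ℤ, d ≠ 0 ∧
        (P f).map (Int.castRingHom ℚ) = C (d : ℚ) * f.1 ∧ d.natAbs ≤ z) ∧
      ∀ X : ℕ, 1 ≤ X → ∀ TX, Ad1 P (fun f => decide (f.1 ∉ T0)) z M X TX →
        ∑ t ∈ TX, ((2 : ℝ) ^ rkE D G t) ^ k ≤ C2 * Sx X := by
  have hcop := cop3 hrel h01
  obtain ⟨P, a, u, hPd, hFm, hu, hFk⟩ := fac2 hD hG hcop S hS hDS hGS
  have : Nonempty {f // f ∈ S} := ⟨⟨hne.choose, hne.choose_spec⟩⟩
  set δ : {f // f ∈ S} → Bool := fun f => dl D f.1 with hδ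
  set q : {f // f ∈ S} → Fin 3 := fun f => ql G f.1 with hq
  set m : {f // f ∈ S} → ℕ := fun f => ml G f.1 with hm
  set ac : {f // f ∈ S} → Bool := fun f => decide (f.1 ∉ T0) with hac
  have hrel' : Fk P a δ q m 0 - Fk P a δ q m 1 = Fk P a δ q m 2 := by
    apply Polynomial.map_injective (Int.castRingHom ℚ) (RingHom.injective_int _)
    rw [Polynomial.map_sub, hFk, hFk, hFk, ← hrel]
    ring
  have hact : ∀ j, ac j = true → δ j = true ∨ 1 ≤ m j := by
    intro j hj
    have h1 : j.1 ∉ T0 := decide_eq_true_iff.1 hj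
    rcases hcov j.1 j.2 h1 with h2 | ⟨l, h2⟩
    · left
      exact decide_eq_true h2
    · right
      obtain ⟨h3, h4⟩ := hS j.1 j.2
      have h5 := ql_of_dvd hcop h3 h2
      show 1 ≤ ml G j.1
      unfold ml
      rw [h5, Multiset.one_le_count_iff_mem]
      obtain ⟨g, hg, hfg⟩ := exists_mem_normalizedFactors_of_dvd (hG l) h3 h2
      have h13 : j.1 = g := by
        rw [← h4, ← normalize_normalized_factor g hg]
        exact normalize_eq_normalize_iff_associated.2 hfg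
      rwa [h13]
  set c : ℕ := ∑ j, (P j).natDegree with hc
  have havg : ∃ z0 : ℕ, ∀ z, z0 ≤ z → ∃ C' : ℝ, ∀ y, z < y →
      ∑ s ∈ (PP z y).divisors, Gs (lamA k P a δ q m ac) s * gw 1 c s ≤
        C' * (Real.log y) ^ (univ.filter (fun j => ac j = true)).card := by
    rcases hyp with ⟨rfl, hcr⟩ | hadd
    · set sp : ℚ[X] → Bool := fun f => decide (SplitQ f (kp D G (ql G f))) with hsp
      refine avA_ref (h := hFm) c (fun j => sp j.1) ?_ ?_
      · intro q' hq'
        refine crit_bridge hG hcop hS hGS T0 hcov sp ?_ q' hq'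
        intro k
        have e1 : ∀ l, ∀ f ∈ mfT T0 D (G l), ql G f = l := by
          intro l f hf
          unfold mfT at hf
          rw [mem_filter, Multiset.mem_toFinset] at hf
          exact ql_of_dvd hcop (irreducible_of_normalized_factor f hf.1)
            (dvd_of_mem_normalizedFactors hf.1)
        refine le_trans (le_of_eq ?_) ((hcr k).trans (le_of_eq ?_))
        · refine sum_congr rfl fun f hf => ?_
          rw [hsp]
          simp only [decide_eq_true_iff, e1 k f hf]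
        · refine sum_congr rfl fun l _ => sum_congr rfl fun f hf => ?_
          rw [hsp]
          unfold ml
          simp only [decide_eq_true_iff, e1 l f hf]
      · intro j _ hj3
        have hδj : δ j = false := by
          by_contra hcon
          rw [Bool.not_eq_false] at hcon
          apply hj3
          unfold clsG
          rw [if_pos hcon]
        rw [split_iff hu hFk j (hPd j) hδj, hsp]
        simp only [decide_eq_true_iff]
    · refine avA_add hFm k c ?_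
      intro j hj
      exact decide_eq_true (hadd j.1 j.2 (decide_eq_true_iff.1 hj))
  obtain ⟨z1, hz1⟩ := hFm.good
  obtain ⟨z2, hz2⟩ := havg
  choose d hd0 hPd' using hPd
  set z : ℕ := z1 + z2 + 2 * c + 2 + ∑ f, (d f).natAbs with hz
  obtain ⟨C', hC'⟩ := hz2 z (by omega)
  have hcard : (univ.filter (fun j => ac j = true)).card + nE = Fintype.card {f // f ∈ S} := by
    rw [hnE, Fintype.card_coe]
    have h1 : (univ.filter (fun j : {f // f ∈ S} => ac j = true)).card =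
        (S.filter (fun f => f ∉ T0)).card := by
      have h2 : (univ.filter (fun j : {f // f ∈ S} => ac j = true)).map
          (Function.Embedding.subtype _) = S.filter (fun f => f ∉ T0) := by
        ext f
        rw [mem_map, mem_filter]
        constructor
        · rintro ⟨j, hj, rfl⟩
          rw [mem_filter] at hj
          exact ⟨j.2, decide_eq_true_iff.1 hj.2⟩
        · rintro ⟨h3, h4⟩
          exact ⟨⟨f, h3⟩, mem_filter.2 ⟨mem_univ _, decide_eq_true h4⟩, rfl⟩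
      rw [← h2, card_map]
    rw [h1, add_comm]
    exact card_filter_add_card_filter_not _
  obtain ⟨C2, hC2⟩ := main1 (k := k) hFm (hz1 z (by omega)) hrel' hact hc (by omega) hcard M C' hC' Sx hS1
    Dc hDc hSx
  refine ⟨P, z, C2, fun f => ⟨d f, hd0 f, hPd' f, ?_⟩, fun X hX TX hTX => ?_⟩
  · have := single_le_sum (f := fun f => (d f).natAbs) (fun _ _ => Nat.zero_le _) (mem_univ f)
    omega
  · refine le_trans (le_of_eq (sum_congr rfl fun t _ => ?_)) (hC2 X hX TX hTX)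
    rw [rk_eq hu hFk t]

end Pool.Agent.L0h5.TH
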