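import Pool.Agent.L0h5.TH.Lab

/-!
# The joint sum over the labels of a class
-/

set_option autoImplicit false

namespace Pool.Agent.L0h5.TH

open Finset Pool.Agent.W262.RK Pool.Agent.L0h5.TF Pool.Agent.L0h5.AG

section

variable {J : Type} [Fintype J] {B : ℕ}

/-- the symbols with the others -/
noncomputable def XLf (β : (Bool × Bool) × (Bool × Bool)) (e : Ix 1 B → ℕ) (m : ℕ) : ℝ :=
  ∏ b : Ix 1 B, (if lk β (bits b.1) = true then Jr m (e b) else 1) *
    (if lk (bits b.1) β = true then Jr (e b) m else 1)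

lemma Lk_bits (i i' : Ix 1 B) : Lk (k := 1) (B := B) i i' = lk (bits i.1) (bits i'.1) :=
  Ll_bits _ _

lemma XX_eq (i : Ix 1 B) (e : Ix 1 B → ℕ) (m : ℕ) :
    XX (Lk (k := 1) (B := B)) i e m = XLf (bits i.1) e m := by
  unfold XX XLf
  rw [← mul_prod_erase univ _ (mem_univ i), lk_self]
  simp only [Bool.false_eq_true, if_false, mul_one, one_mul, Lk_bits]

lemma XLf_oo (e : Ix 1 B → ℕ) (m : ℕ) : XLf (oo, oo) e m = 1 := by
  unfold XLf
  refine prod_eq_one fun b _ => ?_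
  have h1 : lk (oo, oo) (bits b.1) = false := by simp [lk]
  have h2 : lk (bits b.1) (oo, oo) = false := by simp [lk]
  rw [h1, h2]
  simp

lemma XLf_mul (v x : Bool × Bool) (e : Ix 1 B → ℕ) (m : ℕ) :
    XLf (v, x) e m = XLf (oo, x) e m * XLf (v, oo) e m := by
  unfold XLf
  rw [← prod_mul_distrib]
  refine prod_congr rfl fun b _ => ?_
  have h1 : lk (v, x) (bits b.1) = lk (v, oo) (bits b.1) := rfl
  have h2 : lk (bits b.1) (v, x) = lk (bits b.1) (oo, x) := rfl
  have h3 : lk (oo, x) (bits b.1) = false := by simp [lk]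
  have h4 : lk (bits b.1) (v, oo) = false := by simp [lk]
  rw [h1, h2, h3, h4]
  simp only [Bool.false_eq_true, if_false, one_mul, mul_one]
  ring

lemma abs_XLf (β : (Bool × Bool) × (Bool × Bool)) (e : Ix 1 B → ℕ) (m : ℕ) :
    |XLf β e m| ≤ 1 := by
  unfold XLf
  rw [abs_prod]
  refine prod_le_one (fun b _ => abs_nonneg _) fun b _ => ?_
  rw [abs_mul]
  exact mul_le_one₀ (abs_ite_Jr _ _ _) (abs_nonneg _) (abs_ite_Jr _ _ _)

/-- the indices of a class -/
def SqJ (B : ℕ) (q : Fin 4) : Finset (Ix 1 B) :=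
  (univ.filter fun l : Lb 1 => Al q (bits l).1 (bits l).2 = true) ×ˢ univ

lemma mem_Sq {q : Fin 4} {i : Ix 1 B} :
    i ∈ SqJ B q ↔ Al q (bits i.1).1 (bits i.1).2 = true := by
  unfold SqJ
  rw [mem_product, mem_filter]
  simp

lemma lk_Al : ∀ q : Fin 4, q ≠ 3 → ∀ b b' : (Bool × Bool) × (Bool × Bool),
    Al q b.1 b.2 = true → Al q b'.1 b'.2 = true → lk b b' = false := by
  decide

lemma sum_lab {q : Fin 4} (hq : q ≠ 3) (F : (Bool × Bool) × (Bool × Bool) → ℝ) :
    ∑ l ∈ univ.filter (fun l : Lb 1 => Al q (bits l).1 (bits l).2 = true), F (bits l) =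
      F (oo, oo) + F (oo, (ec q).swap) + F (ec q, oo) + F (ec q, (ec q).swap) := by
  classical
  have h1 := sum_Al hq (fun b => if Al q b.1 b.2 = true then F b else 0) (fun b hb => if_neg hb)
  have a1 : Al q oo (ec q).swap = true := by
    clear h1
    revert q; decide
  have a2 : Al q (ec q) oo = true := by
    clear h1 a1
    revert q; decide
  have a3 : Al q (ec q) (ec q).swap = true := by
    clear h1 a1 a2
    revert q; decide
  simp only [Al_oo, a1, a2, a3, if_true] at h1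
  rw [← h1, ← sum_filter]
  refine sum_nbij bits ?_ ?_ ?_ ?_
  · intro l hl
    rw [mem_filter] at hl ⊢
    exact ⟨mem_univ _, hl.2⟩
  · intro l _ l' _ h
    exact bits_inj h
  · intro b hb
    rw [mem_coe, mem_filter] at hb
    obtain ⟨l, hl⟩ := exists_bits (lk_Al q hq b b hb.2 hb.2)
    refine ⟨l, ?_, hl⟩
    rw [mem_coe, mem_filter]
    refine ⟨mem_univ _, ?_⟩
    rw [hl]
    exact hb.2
  · intro l _
    rfl

lemma bE_bits (cls : J → Fin 4) (ev : J → Bool) (kap : J → ℕ → Fin 3 → ℤ)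
    (R : J → ℕ → Finset ℕ) (p : ℕ) (l : Lb 1) :
    bE (k := 1) cls ev kap R p l.1.1 l.1.2 =
      ∑ j, ∑ r ∈ R j p, bo (cls j) (ev j) (kap j r) p (bits l).1 (bits l).2 := by
  unfold bE bo
  rw [← bits_fst, ← bits_snd]

/-- the joint sum -/
lemma joint_sum {q : Fin 4} (hq : q ≠ 3) (hB : 0 < B) (cls : J → Fin 4) (ev : J → Bool)
    (kap : J → ℕ → Fin 3 → ℤ) (R : J → ℕ → Finset ℕ) (c p : ℕ) (e : Ix 1 B → ℕ) :
    ∑ i ∈ SqJ B q, wt (B := B) (bE (k := 1) cls ev kap R) c i p *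
      XX (Lk (k := 1) (B := B)) i e p =
      (∑ j, ∑ r ∈ R j p, Qj q (cls j) (ev j) (kap j r) p (XLf (oo, (ec q).swap) e p)
        (XLf (ec q, oo) e p)) / ((p : ℝ) - c) := by
  have hBr : (B : ℝ) ≠ 0 := by exact_mod_cast hB.ne'
  unfold SqJ
  rw [sum_product]
  have h1 : ∀ l : Lb 1, ∑ b : Fin B, wt (B := B) (bE (k := 1) cls ev kap R) c (l, b) p *
      XX (Lk (k := 1) (B := B)) (l, b) e p =
      (∑ j, ∑ r ∈ R j p, bo (cls j) (ev j) (kap j r) p (bits l).1 (bits l).2) *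
        XLf (bits l) e p / ((p : ℝ) - c) := by
    intro l
    simp only [XX_eq]
    unfold wt
    simp only [bE_bits]
    rw [sum_const, card_univ, Fintype.card_fin, nsmul_eq_mul]
    field_simp
  rw [sum_congr rfl fun l _ => h1 l, sum_lab hq (fun b =>
    (∑ j, ∑ r ∈ R j p, bo (cls j) (ev j) (kap j r) p b.1 b.2) *
        XLf b e p / ((p : ℝ) - c)), ← add_div, ← add_div, ← add_div]
  congr 1
  rw [XLf_oo, XLf_mul (ec q) (ec q).swap]
  unfold Qj
  simp only [sum_add_distrib, ← sum_mul]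
  ring

end

end Pool.Agent.L0h5.TH
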