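import Pool.Agent.L0h5.TH.Bits
import Pool.Agent.L0h5.AH.B5

/-!
# The labels of one pair of bits
-/

set_option autoImplicit false

namespace Pool.Agent.L0h5.TH

open Finset Pool.Agent.W262.RK Pool.Agent.L0h5.TF Pool.Agent.L0h5.AG

/-- the bits of a label -/
def bits (l : Lb 1) : (Bool × Bool) × (Bool × Bool) := (l.1.1 0, l.1.2 0)

lemma bits_fst (l : Lb 1) : l.1.1 = fun _ => (bits l).1 := by
  funext i
  rw [Subsingleton.elim i 0]
  rfl

lemma bits_snd (l : Lb 1) : l.1.2 = fun _ => (bits l).2 := by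
  funext i
  rw [Subsingleton.elim i 0]
  rfl

lemma bits_inj : Function.Injective bits := by
  intro l l' h
  apply Subtype.ext
  apply Prod.ext
  · rw [bits_fst, bits_fst l', h]
  · rw [bits_snd, bits_snd l', h]

/-- the link -/
def lk (b b' : (Bool × Bool) × (Bool × Bool)) : Bool :=
  xor (b'.2.1 && b.1.1) (b'.2.2 && b.1.2)

lemma Ll_bits (l l' : Lb 1) : Ll l l' = lk (bits l) (bits l') := by
  unfold Ll lk
  rw [nd_one, odd_bit]
  rfl

lemma lk_self (l : Lb 1) : lk (bits l) (bits l) = false := by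
  rw [← Ll_bits]
  unfold Ll
  rw [decide_eq_false_iff_not, Nat.not_odd_iff_even]
  exact l.2

lemma exists_bits {b : (Bool × Bool) × (Bool × Bool)} (h : lk b b = false) :
    ∃ l : Lb 1, bits l = b := by
  refine ⟨⟨(fun _ => b.1, fun _ => b.2), ?_⟩, rfl⟩
  show Even (nd (fun _ : Fin 1 => b.2) (fun _ => b.1))
  rw [nd_one, ← Nat.not_odd_iff_even]
  intro h1
  have h2 := odd_bit b.1 b.2
  unfold lk at h
  rw [h] at h2
  exact (of_decide_eq_false h2) h1

/-- the weights -/
noncomputable def wE (c : Fin 4) (ev sp : Bool) (b : (Bool × Bool) × (Bool × Bool)) : ℝ :=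
  if c = 3 then 1 / 4 else if Al c b.1 b.2 = true then
    (if (ev && !sp) = true then (if b = (oo, oo) then 3 / 4 else 1 / 4) else 1 / 2) else 0

lemma wE_nonneg (c : Fin 4) (ev sp : Bool) (b : (Bool × Bool) × (Bool × Bool)) :
    0 ≤ wE c ev sp b := by
  unfold wE
  split_ifs <;> norm_num

lemma comb_bool : ∀ c : Fin 4, c ≠ 3 → ∀ v1 v2 x1 x2 : Bool, Al c (v1, v2) (x1, x2) = false →
    ∀ t1 t2 t3 : Bool,
    (t1 = true → lk (oo, (ec c).swap) ((v1, v2), (x1, x2)) =
      lk ((v1, v2), (x1, x2)) (oo, (ec c).swap)) →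
    (t2 = true → lk (ec c, oo) ((v1, v2), (x1, x2)) = lk ((v1, v2), (x1, x2)) (ec c, oo)) →
    (t3 = true → lk (ec c, (ec c).swap) ((v1, v2), (x1, x2)) =
      lk ((v1, v2), (x1, x2)) (ec c, (ec c).swap)) →
    (t1 && t2) = false ∧ (t1 && t3) = false ∧ (t2 && t3) = false := by
  decide

/-- the four labels of a class -/
lemma sum_Al {q : Fin 4} (hq : q ≠ 3) (F : (Bool × Bool) × (Bool × Bool) → ℝ)
    (hF : ∀ b, Al q b.1 b.2 ≠ true → F b = 0) :
    ∑ b, F b = F (oo, oo) + F (oo, (ec q).swap) + F (ec q, oo) + F (ec q, (ec q).swap) := by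
  classical
  have h1 : ∑ b, F b = ∑ b ∈ (univ : Finset ((Bool × Bool) × (Bool × Bool))).filter
      (fun b => Al q b.1 b.2 = true), F b := by
    symm
    apply sum_filter_of_ne
    intro b _ hb
    by_contra hcon
    exact hb (hF b hcon)
  have h2 : (univ : Finset ((Bool × Bool) × (Bool × Bool))).filter
      (fun b => Al q b.1 b.2 = true) =
      {(oo, oo), (oo, (ec q).swap), (ec q, oo), (ec q, (ec q).swap)} := by
    clear h1 hF
    revert q
    decide
  rw [h1, h2, sum_insert, sum_insert, sum_insert, sum_singleton]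
  · ring
  all_goals
    clear h1 h2 hF
    revert q
    decide

/-- the largest unlinked sets -/
lemma comb_E (U : Finset (Lb 1)) (hU : ∀ i ∈ U, ∀ i' ∈ U, Ll i i' = Ll i' i)
    (hS : ∀ q : Fin 4, q ≠ 3 → ∃ l ∈ U, Al q (bits l).1 (bits l).2 ≠ true) (c : Fin 4)
    (ev sp : Bool) : ∑ l ∈ U, wE c ev sp (bits l) ≤ 1 := by
  classical
  by_cases hc : c = 3
  · subst hc
    have h1 := comb_three (J := Unit) (cls := fun _ => 3) (fun _ => rfl) U hU
    simp only [univ_unique, sum_singleton, Fintype.card_unit, Nat.cast_one] at h1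
    refine le_trans (le_of_eq (sum_congr rfl fun l _ => ?_)) h1
    unfold wE wst
    simp
  set W := U.image bits with hW
  have h1 : ∑ l ∈ U, wE c ev sp (bits l) = ∑ b, if b ∈ W then wE c ev sp b else 0 := by
    rw [← sum_filter, filter_mem_eq_inter, univ_inter, hW, sum_image fun i _ j _ h => bits_inj h]
  rw [h1, sum_Al hc]
  · obtain ⟨l0, hl0, h0⟩ := hS c hc
    have hb0 : bits l0 ∈ W := mem_image_of_mem _ hl0
    have hun : ∀ b ∈ W, lk b (bits l0) = lk (bits l0) b := by
      intro b hb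
      obtain ⟨l, hl, rfl⟩ := mem_image.1 hb
      rw [← Ll_bits, ← Ll_bits]
      exact hU l hl l0 hl0
    generalize bits l0 = b0 at *
    obtain ⟨⟨v1, v2⟩, ⟨x1, x2⟩⟩ := b0
    have h2 := comb_bool c hc v1 v2 x1 x2 (by simpa using h0)
      (decide ((oo, (ec c).swap) ∈ W)) (decide ((ec c, oo) ∈ W)) (decide ((ec c, (ec c).swap) ∈ W))
      (fun h => hun _ (of_decide_eq_true h)) (fun h => hun _ (of_decide_eq_true h))
      (fun h => hun _ (of_decide_eq_true h))
    obtain ⟨h3, h4, h5⟩ := h2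
    have w0 : wE c ev sp (oo, oo) = if (ev && !sp) = true then 3 / 4 else 1 / 2 := by
      unfold wE
      rw [if_neg hc, if_pos Al_oo]
      simp
    have w1 : ∀ b : (Bool × Bool) × (Bool × Bool), b ≠ (oo, oo) → wE c ev sp b ≤
        if (ev && !sp) = true then 1 / 4 else 1 / 2 := by
      intro b hb
      unfold wE
      rw [if_neg hc, if_neg hb]
      split_ifs <;> norm_num
    have n1 : (oo, (ec c).swap) ≠ (oo, oo) := by
      clear h3 h4 h5 w0 w1 hun hb0 h0 h1
      revert c; decide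
    have n2 : (ec c, oo) ≠ (oo, oo) := by
      clear h3 h4 h5 w0 w1 hun hb0 h0 h1 n1
      revert c; decide
    have n3 : (ec c, (ec c).swap) ≠ (oo, oo) := by
      clear h3 h4 h5 w0 w1 hun hb0 h0 h1 n1 n2
      revert c; decide
    have e1 := w1 _ n1
    have e2 := w1 _ n2
    have e3 := w1 _ n3
    have p1 := wE_nonneg c ev sp (oo, (ec c).swap)
    have p2 := wE_nonneg c ev sp (ec c, oo)
    have p3 := wE_nonneg c ev sp (ec c, (ec c).swap)
    have p0 := wE_nonneg c ev sp (oo, oo)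
    rw [w0] at p0 ⊢
    clear w0 w1 hun hb0 h0 h1 n1 n2 n3
    generalize wE c ev sp (oo, (ec c).swap) = x1 at *
    generalize wE c ev sp (ec c, oo) = x2 at *
    generalize wE c ev sp (ec c, (ec c).swap) = x3 at *
    by_cases m1 : (oo, (ec c).swap) ∈ W <;> by_cases m2 : (ec c, oo) ∈ W <;>
      by_cases m3 : (ec c, (ec c).swap) ∈ W <;> by_cases m0 : ((oo, oo) : (Bool × Bool) × (Bool × Bool)) ∈ W <;>
      simp only [m0, m1, m2, m3, decide_true, decide_false, Bool.and_self, Bool.and_true,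
        Bool.true_and, Bool.false_and, Bool.and_false, reduceCtorEq, if_true, if_false] at * <;>
      split_ifs at * <;> linarith
  · intro b hb
    have h2 : wE c ev sp b = 0 := by
      unfold wE
      rw [if_neg hc, if_neg hb]
    rw [h2]
    simp

end Pool.Agent.L0h5.TH
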