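import Pool.Agent.L0h5.TF.Four
import Pool.Agent.L0h5.TF.Sub
import Pool.Agent.W342.RK2.LocL

/-!
# Local conditions with multiplicities
-/

set_option autoImplicit false

namespace Pool.Agent.L0h5.TH

open Finset Pool.Agent.W262.RK Pool.Agent.L0h5.TF

/-- nonsplit multiplicative reduction with even multiplicity -/
def nsE (c : Fin 4) (ev : Bool) (κ : Fin 3 → ℤ) (p : ℕ) : Bool :=
  ev && (decide (c ≠ 3) && sg0 p (κ 0))

/-- the local condition; `ev`: the multiplicity is even -/
def LE (c : Fin 4) (ev : Bool) (κ : Fin 3 → ℤ) (neg : Bool) (p : ℕ) (v w h g : Bool) : Prop :=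
  if nsE c ev κ p = true then v = false ∧ w = false else LL c κ neg p v w h g

lemma LE_ns {c : Fin 4} {ev : Bool} {κ : Fin 3 → ℤ} {neg : Bool} {p : ℕ}
    (hn : nsE c ev κ p = true) (v w h g : Bool) :
    LE c ev κ neg p v w h g ↔ (v = false ∧ w = false) := by
  unfold LE
  rw [if_pos hn]

lemma LE_or {c : Fin 4} {ev : Bool} {κ : Fin 3 → ℤ} {neg : Bool} {p : ℕ}
    (hn : ¬ nsE c ev κ p = true) (v w h g : Bool) :
    LE c ev κ neg p v w h g ↔ LL c κ neg p v w h g := by
  unfold LE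
  rw [if_neg hn]

lemma LE_three (ev : Bool) (κ : Fin 3 → ℤ) (neg : Bool) (p : ℕ) (v w h g : Bool) :
    LE 3 ev κ neg p v w h g ↔ LL 3 κ neg p v w h g := by
  apply LE_or
  simp [nsE]

lemma xce (c : Fin 4) (ev : Bool) (κ : Fin 3 → ℤ) (neg : Bool) (p : ℕ) (hp : p.Prime) (hp2 : p ≠ 2)
    (hκ : ∀ k, ¬ (p : ℤ) ∣ κ k) : XC (LE c ev κ neg p) := by
  by_cases hn : nsE c ev κ p = true
  · refine ⟨(LE_ns hn _ _ _ _).2 ⟨rfl, rfl⟩, fun a b c d a' b' c' d' h1 h2 => ?_⟩
    rw [LE_ns hn] at h1 h2 ⊢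
    obtain ⟨rfl, rfl⟩ := h1
    obtain ⟨rfl, rfl⟩ := h2
    simp
  · have h1 := Pool.Agent.W342.RK2.xcl c κ neg p hp hp2 hκ
    refine ⟨(LE_or hn _ _ _ _).2 h1.1, fun a b c d a' b' c' d' h2 h3 => ?_⟩
    rw [LE_or hn] at h2 h3 ⊢
    exact h1.2 a b c d a' b' c' d' h2 h3

section

variable {k : ℕ}

open Classical in
/-- the contribution of a state -/
noncomputable def lstE (c : Fin 4) (ev : Bool) (κ : Fin 3 → ℤ) (p : ℕ) (v h : Vk k) : ℝ :=
  ∑ neg : Bool, (1 / 2) * ∏ i, iL (LE c ev κ neg p) (v i) (h i)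

/-- the coefficients of a state -/
noncomputable def bstE (c : Fin 4) (ev : Bool) (κ : Fin 3 → ℤ) (p : ℕ) (v x : Vk k) : ℝ :=
  if nsE c ev κ p = true then
    (if v = (fun _ => (false, false)) ∧ x = (fun _ => (false, false)) then 1 else 0)
  else bst c κ p v x

lemma lstE_or {c : Fin 4} {ev : Bool} {κ : Fin 3 → ℤ} {p : ℕ}
    (hn : ¬ nsE c ev κ p = true) (v h : Vk k) : lstE c ev κ p v h = lst c κ p v h := by
  classical
  unfold lstE lst
  refine sum_congr rfl fun neg _ => ?_
  congr 1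
  refine prod_congr rfl fun i _ => ?_
  unfold iL lq
  by_cases h1 : LL c κ neg p (v i).1 (v i).2 (h i).1 (h i).2
  · rw [if_pos h1, if_pos ((LE_or hn _ _ _ _).2 h1)]
  · rw [if_neg h1, if_neg (fun h2 => h1 ((LE_or hn _ _ _ _).1 h2))]

lemma lstE_eq (c : Fin 4) (ev : Bool) (κ : Fin 3 → ℤ) (p : ℕ) (v h : Vk k) :
    lstE c ev κ p v h = ∑ x, bstE c ev κ p v x * chi x h := by
  classical
  by_cases hn : nsE c ev κ p = true
  · have h1 : ∀ neg : Bool, ∏ i, iL (LE c ev κ neg p) (v i) (h i) =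
        if v = (fun _ => (false, false)) then (1 : ℝ) else 0 := by
      intro neg
      unfold iL
      rw [prod_boole]
      have h2 : (∀ i ∈ (univ : Finset (Fin k)), LE c ev κ neg p (v i).1 (v i).2 (h i).1 (h i).2) ↔
          v = (fun _ => (false, false)) := by
        constructor
        · intro h3
          funext i
          have h4 := (LE_ns hn _ _ _ _).1 (h3 i (mem_univ i))
          exact Prod.ext h4.1 h4.2
        · intro h3 i _
          rw [LE_ns hn, h3]
          exact ⟨rfl, rfl⟩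
      simp only [h2]
    unfold lstE bstE
    simp only [h1, if_pos hn]
    rw [Fintype.sum_bool]
    by_cases h3 : v = (fun _ => (false, false))
    · rw [if_pos h3, sum_eq_single (fun _ => (false, false))]
      · rw [if_pos ⟨h3, rfl⟩]
        unfold chi
        simp only [Bool.false_eq_true, if_false, mul_one, prod_const_one]
        norm_num
      · intro x _ hx
        rw [if_neg (fun h4 => hx h4.2), zero_mul]
      · intro h4
        exact absurd (mem_univ _) h4
    · rw [if_neg h3]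
      rw [sum_eq_zero fun x _ => by rw [if_neg (fun h4 => h3 h4.1), zero_mul]]
      norm_num
  · rw [lstE_or hn, lst_eq]
    unfold bstE
    simp only [if_neg hn]

lemma bstE_odd (c : Fin 4) (ev : Bool) (κ : Fin 3 → ℤ) (p : ℕ) (v x : Vk k)
    (h : ¬ Even (nd x v)) : bstE c ev κ p v x = 0 := by
  unfold bstE
  split_ifs with h1 h2
  · exfalso
    apply h
    rw [h2.1, h2.2]
    unfold nd
    simp
  · rfl
  · exact bst_odd c κ p v x h

end

end Pool.Agent.L0h5.TH
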