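import Pool.Agent.L0h5.TH.Loc
import Pool.Agent.W571.RT.LocM

/-!
# The local conditions with multiplicities hold for the points of the curve
-/

set_option autoImplicit false

namespace Pool.Agent.L0h5.TH

open Pool.Agent.W262.RK Pool.Agent.W22.RK Pool.Agent.W342.RK2 Pool.Agent.W571.RT

section loc

variable {p : ℕ} [hp : Fact p.Prime]

/-- a rational number is a square in the `p`-adic numbers -/
def Sq (p : ℕ) [Fact p.Prime] (r : ℚ) : Prop := IsSquare ((r : ℚ) : ℚ_[p])

lemma Sq.mul {r s : ℚ} (h1 : Sq p r) (h2 : Sq p s) : Sq p (r * s) := sq_mul h1 h2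

lemma sq_self (w : ℚ) : Sq p (w * w) := ⟨(w : ℚ_[p]), by push_cast; rfl⟩

lemma sqd {r s w : ℚ} (hs : s ≠ 0) (h : r * s = w * w) (h2 : Sq p s) : Sq p r :=
  sq_div hs (by rw [h]; exact sq_self w) h2

/-- two of the valuations are odd: the local image consists of the images of the points of
order two -/
lemma T0 (hp2 : p ≠ 2) {A B : ℚ} (hA0 : A ≠ 0) (hB0 : B ≠ 0) {a : ℤ}
    (vA : padicValRat p A = a) (vB : padicValRat p B = 1) (ha : 1 < a) {x y : ℚ} (hy : y ≠ 0)
    (hxy : y ^ 2 = x * (x - A) * (x - B)) :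
    (Sq p x ∧ Sq p (x - A)) ∨ (Sq p (x * (A * B)) ∧ Sq p ((x - A) * -A)) ∨
    (Sq p (x * A) ∧ Sq p ((x - A) * (A * (A - B)))) ∨ (Sq p (x * B) ∧ Sq p ((x - A) * (B - A))) := by
  have hy2 : y ^ 2 ≠ 0 := pow_ne_zero 2 hy
  rw [hxy] at hy2
  have hx : x ≠ 0 := left_ne_zero_of_mul (left_ne_zero_of_mul hy2)
  have hxA : x - A ≠ 0 := right_ne_zero_of_mul (left_ne_zero_of_mul hy2)
  have hxB : x - B ≠ 0 := right_ne_zero_of_mul hy2
  have hyy : y * y = x * (x - A) * (x - B) := by rw [← pow_two, hxy]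
  have hAB : Sq p ((A - B) * -B) := by
    apply near hp2 (neg_ne_zero.2 hB0)
    right
    have e : A - B - -B = A := by ring
    rw [e, v_neg, vA, vB]
    exact ha
  have hBA : Sq p ((B - A) * B) := by
    apply near hp2 hB0
    right
    have e : B - A - B = -A := by ring
    rw [e, v_neg, vA, vB]
    exact ha
  have hABn : A - B ≠ 0 := by
    intro h
    have : A = B := by linarith
    rw [this, vB] at vA
    omega
  have key1 : padicValRat p x < a → Sq p ((x - A) * x) := by
    intro h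
    apply near hp2 hx
    right
    have e : x - A - x = -A := by ring
    rw [e, v_neg, vA]
    exact h
  have key2 : 1 < padicValRat p x → Sq p ((x - B) * -B) := by
    intro h
    apply near hp2 (neg_ne_zero.2 hB0)
    right
    have e : x - B - -B = x := by ring
    rw [e, v_neg, vB]
    exact h
  have vxB : 1 < padicValRat p x → padicValRat p (x - B) = 1 := by
    intro h
    have := v_add (p := p) (a := -B) (b := x) (neg_ne_zero.2 hB0) hx
      (by rw [neg_add_eq_sub]; exact hxB) (by rw [v_neg, vB]; exact h)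
    rw [neg_add_eq_sub, v_neg, vB] at this
    exact this
  have hsum := v_mul3 (p := p) hx hxA hxB hxy
  rcases lt_trichotomy (padicValRat p x) 1 with h | h | h
  · left
    have h1 := key1 (by omega)
    have h2 : Sq p ((x - B) * x) := by
      apply near hp2 hx
      right
      have e : x - B - x = -B := by ring
      rw [e, v_neg, vB]
      exact h
    have h3 : Sq p x := sqd (w := y * x) (mul_ne_zero (mul_ne_zero hxA hx) (mul_ne_zero hxB hx))
      (by linear_combination (-(x * x)) * hyy) (h1.mul h2)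
    exact ⟨h3, sqd (w := x * (x - A)) (mul_ne_zero (mul_ne_zero hxA hx) hx) (by ring) (h1.mul h3)⟩
  · -- the valuation is one
    right; right; right
    have h1 := key1 (by omega)
    have h2 : Sq p (x - B) := sqd (w := y) (mul_ne_zero hxA hx)
      (by linear_combination (-1 : ℚ) * hyy) h1
    have h3 : Even (padicValRat p (x - B)) := val_sq hxB h2
    have h4 : 1 ≤ padicValRat p (x - B) := by
      have := padicValRat.min_le_padicValRat_add (p := p) (q := x) (r := -B)
        (by rw [← sub_eq_add_neg]; exact hxB)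
      rw [h, v_neg, vB, min_self, ← sub_eq_add_neg] at this
      exact this
    have h5 : 1 < padicValRat p (x - B) := by
      obtain ⟨k, hk⟩ := h3
      omega
    have h6 : Sq p (x * B) := by
      apply near hp2 hB0
      right
      rw [vB]
      exact h5
    refine ⟨h6, ?_⟩
    exact sqd (w := x * (x - A) * B * (B - A)) (mul_ne_zero (mul_ne_zero (mul_ne_zero hxA hx)
      (mul_ne_zero hx hB0)) (mul_ne_zero (by
        intro h
        exact hABn (by linarith)) hB0)) (by ring) ((h1.mul h6).mul hBA)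
  · have h1 := key2 h
    have h2 := vxB h
    rcases lt_trichotomy (padicValRat p x) a with h3 | h3 | h3
    · exfalso
      have h4 : Sq p (x - B) := sqd (w := y) (mul_ne_zero hxA hx)
        (by linear_combination (-1 : ℚ) * hyy) (key1 h3)
      have h5 := val_sq hxB h4
      rw [h2] at h5
      revert h5
      decide
    · right; right; left
      have h4 : a ≤ padicValRat p (x - A) := by
        have := padicValRat.min_le_padicValRat_add (p := p) (q := x) (r := -A)
          (by rw [← sub_eq_add_neg]; exact hxA)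
        rw [h3, v_neg, vA, min_self, ← sub_eq_add_neg] at this
        exact this
      have h5 : a < padicValRat p (x - A) := by
        rcases lt_or_eq_of_le h4 with h5 | h5
        · exact h5
        · exfalso
          rw [h3, h2, ← h5] at hsum
          omega
      have h6 : Sq p (x * A) := by
        apply near hp2 hA0
        right
        rw [vA]
        exact h5
      refine ⟨h6, ?_⟩
      refine sqd (w := y * A * B * (A - B)) (mul_ne_zero (mul_ne_zero (mul_ne_zero hx hA0)
        (mul_ne_zero hxB (neg_ne_zero.2 hB0))) (mul_ne_zero hABn (neg_ne_zero.2 hB0))) ?_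
        ((h6.mul h1).mul hAB)
      linear_combination (-(A ^ 2 * B ^ 2 * (A - B) ^ 2)) * hyy
    · right; left
      have h4 : Sq p ((x - A) * -A) := by
        apply near hp2 (neg_ne_zero.2 hA0)
        right
        have e : x - A - -A = x := by ring
        rw [e, v_neg, vA]
        exact h3
      refine ⟨?_, h4⟩
      exact sqd (w := y * A * B) (mul_ne_zero (mul_ne_zero hxA (neg_ne_zero.2 hA0))
        (mul_ne_zero hxB (neg_ne_zero.2 hB0)))
        (by linear_combination (-(A ^ 2 * B ^ 2)) * hyy) (h4.mul h1)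

/-- the four classes -/
def Tor (p : ℕ) [Fact p.Prime] (A B x : ℚ) : Prop :=
  (Sq p x ∧ Sq p (x - A)) ∨ (Sq p (x * (A * B)) ∧ Sq p ((x - A) * -A)) ∨
    (Sq p (x * A) ∧ Sq p ((x - A) * (A * (A - B)))) ∨ (Sq p (x * B) ∧ Sq p ((x - A) * (B - A)))

lemma T1 (hp2 : p ≠ 2) {A B : ℚ} (hA0 : A ≠ 0) (hB0 : B ≠ 0) {b : ℤ}
    (vA : padicValRat p A = 1) (vB : padicValRat p B = b) (hb : 1 < b) {x y : ℚ} (hy : y ≠ 0)
    (hxy : y ^ 2 = x * (x - A) * (x - B)) : Tor p A B x := by
  have hy2 : y ^ 2 ≠ 0 := pow_ne_zero 2 hy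
  rw [hxy] at hy2
  have hx : x ≠ 0 := left_ne_zero_of_mul (left_ne_zero_of_mul hy2)
  have hxA : x - A ≠ 0 := right_ne_zero_of_mul (left_ne_zero_of_mul hy2)
  have hxB : x - B ≠ 0 := right_ne_zero_of_mul hy2
  have hyy : y * y = x * (x - A) * (x - B) := by rw [← pow_two, hxy]
  have hABn : A - B ≠ 0 := by
    intro h
    have : A = B := by linarith
    rw [← this, vA] at vB
    omega
  have hBAn : B - A ≠ 0 := by
    intro h
    exact hABn (by linarith)
  rcases T0 hp2 hB0 hA0 vB vA hb (x := x) (y := y) hy (by rw [hxy]; ring) with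
    ⟨h1, h2⟩ | ⟨h1, h2⟩ | ⟨h1, h2⟩ | ⟨h1, h2⟩
  · left
    exact ⟨h1, sqd (w := y) (mul_ne_zero hx hxB) (by linear_combination (-1 : ℚ) * hyy) (h1.mul h2)⟩
  · right; left
    refine ⟨by rw [mul_comm A B]; exact h1, ?_⟩
    exact sqd (w := y * A * B) (mul_ne_zero (mul_ne_zero hx (mul_ne_zero hB0 hA0))
      (mul_ne_zero hxB (neg_ne_zero.2 hB0))) (by linear_combination (-(A ^ 2 * B ^ 2)) * hyy)
      (h1.mul h2)
  · right; right; right
    refine ⟨h1, ?_⟩
    exact sqd (w := y * B * (B - A)) (mul_ne_zero (mul_ne_zero hx hB0)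
      (mul_ne_zero hxB (mul_ne_zero hB0 hBAn)))
      (by linear_combination (-(B ^ 2 * (B - A) ^ 2)) * hyy) (h1.mul h2)
  · right; right; left
    refine ⟨h1, ?_⟩
    exact sqd (w := y * A * (A - B)) (mul_ne_zero (mul_ne_zero hx hA0) (mul_ne_zero hxB hABn))
      (by linear_combination (-(A ^ 2 * (A - B) ^ 2)) * hyy) (h1.mul h2)

lemma T2 (hp2 : p ≠ 2) {A B : ℚ} (hA0 : A ≠ 0) {g : ℤ}
    (vA : padicValRat p A = 1) (vC : padicValRat p (A - B) = g)
    (hg : 1 < g) {x y : ℚ} (hy : y ≠ 0)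
    (hxy : y ^ 2 = x * (x - A) * (x - B)) : Tor p A B x := by
  have hABn : B - A ≠ 0 := by
    intro h
    have : A - B = 0 := by linarith
    rw [this, padicValRat.zero] at vC
    omega
  rcases T1 (A := -A) (B := B - A) hp2 (neg_ne_zero.2 hA0) hABn (by rw [v_neg]; exact vA)
    (by rw [← vC, ← v_neg (p := p) (A - B), neg_sub]) hg (x := x - A) (y := y) hy
    (by rw [hxy]; ring) with ⟨h1, h2⟩ | ⟨h1, h2⟩ | ⟨h1, h2⟩ | ⟨h1, h2⟩
  · left
    refine ⟨?_, h1⟩
    have e : x - A - -A = x := by ring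
    rwa [e] at h2
  · right; right; left
    have e1 : (x - A - -A) * -(-A) = x * A := by ring
    have e2 : (x - A) * (-A * (B - A)) = (x - A) * (A * (A - B)) := by ring
    rw [e1] at h2
    rw [e2] at h1
    exact ⟨h2, h1⟩
  · right; left
    have e1 : (x - A - -A) * (-A * (-A - (B - A))) = x * (A * B) := by ring
    rw [e1] at h2
    exact ⟨h2, h1⟩
  · right; right; right
    have e1 : (x - A - -A) * (B - A - -A) = x * B := by ring
    rw [e1] at h2
    exact ⟨h2, h1⟩

lemma cls_of {x : ℚ} {e1 : ℤ} (hx : x ≠ 0) (he : ¬ (p : ℤ) ^ 2 ∣ e1)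
    (h : IsSquare ((x * e1 : ℚ) : ℚ_[p])) {r : ℚ} {e : ℕ} {u : ℤ} (hr : r = (p : ℚ) ^ e * u)
    (hu : ¬ (p : ℤ) ∣ u) (h2 : Sq p (x * r)) :
    dv p e1 = decide (Odd e) ∧ sgn p e1 = sg0 p u := by
  have hpq : (p : ℚ) ≠ 0 := by exact_mod_cast hp.out.ne_zero
  have hr0 : r ≠ 0 := by
    rw [hr]
    refine mul_ne_zero (pow_ne_zero _ hpq) ?_
    intro h
    apply hu
    have : u = 0 := by exact_mod_cast h
    rw [this]
    exact dvd_zero _
  by_cases ho : Odd e
  · obtain ⟨k, hk⟩ := ho
    have h3 : Sq p (x * ((p * u : ℤ) : ℚ)) := by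
      refine sqd (w := x * u * p ^ (k + 1)) (mul_ne_zero hx hr0) ?_ h2
      rw [hr, hk]
      push_cast
      ring
    have hn : ¬ (p : ℤ) ^ 2 ∣ p * u := by
      rw [pow_two]
      intro h4
      exact hu ((mul_dvd_mul_iff_left (by exact_mod_cast hp.out.ne_zero)).1 h4)
    obtain ⟨k1, k2⟩ := cmpx hx he hn h h3
    rw [dv_mul] at k1
    rw [sgn_mul] at k2
    exact ⟨by rw [k1, eq_comm, decide_eq_true_iff]; exact ⟨k, hk⟩, k2⟩
  · have ho' := Nat.not_odd_iff_even.1 ho
    obtain ⟨k, hk⟩ := ho'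
    have h3 : Sq p (x * ((u : ℤ) : ℚ)) := by
      refine sqd (w := x * u * p ^ k) (mul_ne_zero hx hr0) ?_ h2
      rw [hr, hk]
      ring
    obtain ⟨k1, k2⟩ := cmpx hx he (not_sq_of_unit hu) h h3
    rw [dv_unit hu] at k1
    rw [sgn_unit hu] at k2
    exact ⟨by rw [k1, eq_comm, decide_eq_false_iff_not]; exact ho, k2⟩

lemma vpow {e : ℕ} {u : ℤ} (hu : ¬ (p : ℤ) ∣ u) : padicValRat p ((p : ℚ) ^ e * u) = e := by
  have hpq : (p : ℚ) ≠ 0 := by exact_mod_cast hp.out.ne_zero
  have hu0 : (u : ℚ) ≠ 0 := by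
    intro h
    apply hu
    have : u = 0 := by exact_mod_cast h
    rw [this]
    exact dvd_zero _
  rw [padicValRat.mul (pow_ne_zero _ hpq) hu0, v_int hu, padicValRat.pow,
    padicValRat.self hp.out.one_lt]
  simp

lemma sg0_congr' {a b : ℤ} (h : (p : ℤ) ∣ a - b) : sg0 p a = sg0 p b := by
  unfold sg0
  have h1 : a % p = b % p := ((Int.modEq_iff_dvd).2 (by rw [← neg_sub]; exact h.neg_right))
  rw [jacobiSym.mod_left a, jacobiSym.mod_left b, h1]

end loc

end Pool.Agent.L0h5.TH
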