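import Pool.Agent.L0h5.TH.LocG

/-!
# The local conditions with multiplicities hold for the points of the curve, second part
-/

set_option autoImplicit false
set_option linter.unusedSectionVars false

namespace Pool.Agent.L0h5.TH

open Pool.Agent.W262.RK Pool.Agent.W22.RK Pool.Agent.W342.RK2 Pool.Agent.W571.RT

lemma dodd (a b : ℕ) : decide (Odd (a + b)) = xor (decide (Odd a)) (decide (Odd b)) := by
  by_cases ha : Odd a <;> by_cases hb : Odd b <;> simp [ha, hb, Nat.odd_add, Nat.not_odd_iff_even.1,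
    ← Nat.not_odd_iff_even]

section loc

variable {p : ℕ} [hp : Fact p.Prime]

lemma tor_bits {A B : ℤ} {x : ℚ} (hx : x ≠ 0) (hxA : x - A ≠ 0) (hT : Tor p A B x)
    {e1 e2 : ℤ} (hq1 : ¬ (p : ℤ) ^ 2 ∣ e1) (hq2 : ¬ (p : ℤ) ^ 2 ∣ e2)
    (hs1 : IsSquare ((x * e1 : ℚ) : ℚ_[p])) (hs2 : IsSquare (((x - A) * e2 : ℚ) : ℚ_[p]))
    {ea eb ec : ℕ} {α β γ : ℤ} (hα : ¬ (p : ℤ) ∣ α) (hβ : ¬ (p : ℤ) ∣ β) (hγ : ¬ (p : ℤ) ∣ γ)
    (hA : A = p ^ ea * α) (hB : B = p ^ eb * β) (hC : A - B = p ^ ec * γ) :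
    (dv p e1 = false ∧ dv p e2 = false ∧ sgn p e1 = false ∧ sgn p e2 = false) ∨
    (dv p e1 = xor (decide (Odd ea)) (decide (Odd eb)) ∧ dv p e2 = decide (Odd ea) ∧
      sgn p e1 = xor (sg0 p α) (sg0 p β) ∧ sgn p e2 = xor (sg0 p (-1)) (sg0 p α)) ∨
    (dv p e1 = decide (Odd ea) ∧ dv p e2 = xor (decide (Odd ea)) (decide (Odd ec)) ∧
      sgn p e1 = sg0 p α ∧ sgn p e2 = xor (sg0 p α) (sg0 p γ)) ∨
    (dv p e1 = decide (Odd eb) ∧ dv p e2 = decide (Odd ec) ∧
      sgn p e1 = sg0 p β ∧ sgn p e2 = xor (sg0 p (-1)) (sg0 p γ)) := by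
  have hAq : (A : ℚ) = (p : ℚ) ^ ea * α := by rw [hA]; push_cast; ring
  have hBq : (B : ℚ) = (p : ℚ) ^ eb * β := by rw [hB]; push_cast; ring
  have hCq : (A : ℚ) - B = (p : ℚ) ^ ec * γ := by
    have : ((A - B : ℤ) : ℚ) = ((p ^ ec * γ : ℤ) : ℚ) := by rw [hC]
    push_cast at this
    linarith
  rcases hT with ⟨h1, h2⟩ | ⟨h1, h2⟩ | ⟨h1, h2⟩ | ⟨h1, h2⟩
  · left
    obtain ⟨k1, k2⟩ := cls_of hx hq1 hs1 (r := 1) (e := 0) (u := 1) (by norm_num) not_dvd_one
      (by rw [mul_one]; exact h1)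
    obtain ⟨k3, k4⟩ := cls_of hxA hq2 hs2 (r := 1) (e := 0) (u := 1) (by norm_num) not_dvd_one
      (by rw [mul_one]; exact h2)
    rw [sg0_one] at k2 k4
    exact ⟨by rw [k1]; decide, by rw [k3]; decide, k2, k4⟩
  · right; left
    obtain ⟨k1, k2⟩ := cls_of hx hq1 hs1 (r := A * B) (e := ea + eb) (u := α * β)
      (by rw [hAq, hBq]; push_cast; ring) (not_dvd_mul hα hβ) h1
    obtain ⟨k3, k4⟩ := cls_of hxA hq2 hs2 (r := -A) (e := ea) (u := -α)
      (by rw [hAq]; push_cast; ring) (not_dvd_neg hα) h2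
    rw [dodd] at k1
    rw [sg0_mul hα hβ] at k2
    rw [sg0_neg hα] at k4
    exact ⟨k1, k3, k2, k4⟩
  · right; right; left
    obtain ⟨k1, k2⟩ := cls_of hx hq1 hs1 (r := A) (e := ea) (u := α) hAq hα h1
    obtain ⟨k3, k4⟩ := cls_of hxA hq2 hs2 (r := A * (A - B)) (e := ea + ec) (u := α * γ)
      (by rw [hCq, hAq]; push_cast; ring) (not_dvd_mul hα hγ) h2
    rw [dodd] at k3
    rw [sg0_mul hα hγ] at k4
    exact ⟨k1, k3, k2, k4⟩
  · right; right; right
    obtain ⟨k1, k2⟩ := cls_of hx hq1 hs1 (r := B) (e := eb) (u := β) hBq hβ h1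
    obtain ⟨k3, k4⟩ := cls_of hxA hq2 hs2 (r := B - A) (e := ec) (u := -γ)
      (by
        have e : (B : ℚ) - A = -(A - B) := by ring
        rw [e, hCq]
        push_cast
        ring) (not_dvd_neg hγ) h2
    rw [sg0_neg hγ] at k4
    exact ⟨k1, k3, k2, k4⟩

/-- the local condition for additive reduction -/
lemma loc3 (hp2 : p ≠ 2) (q : Fin 3) {m : ℕ} {A B : ℤ} (κ : Fin 3 → ℤ) (neg : Bool)
    (hκ : ∀ k, ¬ (p : ℤ) ∣ κ k) {α β γ : ℤ} (hα : ¬ (p : ℤ) ∣ α) (hβ : ¬ (p : ℤ) ∣ β)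
    (hγ : ¬ (p : ℤ) ∣ γ) (hA : A = p ^ (1 + if q = 0 then m else 0) * α)
    (hB : B = p ^ (1 + if q = 1 then m else 0) * β)
    (hC : A - B = p ^ (1 + if q = 2 then m else 0) * γ)
    (h0 : sg0 p (κ 0) = xor neg (xor (sg0 p α)
      (decide (q = 0) && (decide (Odd m) && sg0 p β))))
    (h1 : sg0 p (κ 1) = xor neg (xor (sg0 p β)
      (decide (q = 1) && (decide (Odd m) && sg0 p α))))
    (h2 : sg0 p (κ 2) = xor neg (xor (sg0 p γ)
      (decide (q = 2) && (decide (Odd m) && xor (sg0 p (-1)) (sg0 p α)))))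
    (x y : ℚ) (hy : y ≠ 0) (hxy : y ^ 2 = x * (x - A) * (x - B)) (e1 e2 : ℤ)
    (he1 : Squarefree e1) (he2 : Squarefree e2) (hs1 : IsSquare ((x * e1 : ℚ) : ℚ_[p]))
    (hs2 : IsSquare (((x - A) * e2 : ℚ) : ℚ_[p])) :
    LL 3 κ neg p (dv p e1) (dv p e2) (sgn p e1) (sgn p e2) := by
  have hp0 : (p : ℤ) ≠ 0 := by exact_mod_cast hp.out.ne_zero
  rcases Nat.eq_zero_or_pos m with hm | hm
  · -- no multiplicity
    subst hm
    simp only [ite_self, add_zero, pow_one] at hA hB hC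
    have ho : decide (Odd 0) = false := by decide
    rw [ho] at h0 h1 h2
    simp only [Bool.false_and, Bool.and_false, Bool.xor_false] at h0 h1 h2
    have hj : ∀ u w : ℤ, ¬ (p : ℤ) ∣ u → ¬ (p : ℤ) ∣ w → sg0 p u = xor neg (sg0 p w) →
        jacobiSym (u * w) p = if neg = true then -1 else 1 := by
      intro u w hu hw h
      rw [jacobiSym.mul_left]
      unfold sg0 at h
      rcases jac_ne hu with k1 | k1 <;> rcases jac_ne hw with k2 | k2 <;> rw [k1, k2] at h ⊢ <;>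
        revert h <;> cases neg <;> decide
    have hns : ∀ w : ℤ, ¬ (p : ℤ) ∣ w → ¬ (p : ℤ) ^ 2 ∣ p * w := by
      intro w hw h
      rw [pow_two] at h
      exact hw ((mul_dvd_mul_iff_left hp0).1 h)
    refine locl 3 κ neg p A B hp2 hκ ?_ x y hy hxy e1 e2 he1 he2 hs1 hs2
    unfold LocH
    rw [if_neg (by decide), if_neg (by decide), if_neg (by decide), hC, hA, hB,
      Int.mul_ediv_cancel_left _ hp0, Int.mul_ediv_cancel_left _ hp0,
      Int.mul_ediv_cancel_left _ hp0]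
    exact ⟨Dvd.intro _ rfl, Dvd.intro _ rfl, hns α hα, hns β hβ, hns γ hγ, hj _ _ (hκ 0) hα h0,
      hj _ _ (hκ 1) hβ h1, hj _ _ (hκ 2) hγ h2⟩
  have hq1 := not_sq_of_squarefree (p := p) he1
  have hq2 := not_sq_of_squarefree (p := p) he2
  have hy2 : y ^ 2 ≠ 0 := pow_ne_zero 2 hy
  rw [hxy] at hy2
  have hx : x ≠ 0 := left_ne_zero_of_mul (left_ne_zero_of_mul hy2)
  have hxA : x - A ≠ 0 := right_ne_zero_of_mul (left_ne_zero_of_mul hy2)
  have hpz : ∀ (e : ℕ) (w : ℤ), ¬ (p : ℤ) ∣ w → (p : ℤ) ^ e * w ≠ 0 := by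
    intro e w hw
    refine mul_ne_zero (pow_ne_zero _ hp0) ?_
    rintro rfl
    exact hw (dvd_zero _)
  have hA0 : (A : ℚ) ≠ 0 := by
    rw [hA]
    exact_mod_cast hpz _ α hα
  have hB0 : (B : ℚ) ≠ 0 := by
    rw [hB]
    exact_mod_cast hpz _ β hβ
  have hval : ∀ (n u : ℤ) (e : ℕ), ¬ (p : ℤ) ∣ u → n = p ^ e * u →
      padicValRat p (n : ℚ) = ((e : ℕ) : ℤ) := by
    intro n u e hu hn
    have e1 : (n : ℚ) = (p : ℚ) ^ e * u := by rw [hn]; push_cast; ring
    rw [e1]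
    exact vpow hu
  have vA := hval A α _ hα hA
  have vB := hval B β _ hβ hB
  have vC : padicValRat p ((A : ℚ) - B) = ((1 + if q = 2 then m else 0 : ℕ) : ℤ) := by
    have e : (A : ℚ) - B = ((A - B : ℤ) : ℚ) := by push_cast; ring
    rw [e]
    exact hval (A - B) γ _ hγ hC
  have hbits := fun hT => tor_bits (A := A) (B := B) hx hxA hT hq1 hq2 hs1 hs2 hα hβ hγ hA hB hC
  have e01 := sg0_mul (hκ 0) (hκ 1)
  have e02 := sg0_mul (hκ 0) (hκ 2)
  have n0 := sg0_neg (hκ 0)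
  have n2 := sg0_neg (hκ 2)
  have m1 : decide (Odd (1 + m)) = !decide (Odd m) := by
    rw [dodd]
    simp
  have m0 : decide (Odd 1) = true := by decide
  have h3 : q = 0 ∨ q = 1 ∨ q = 2 := by
    clear hA hB hC h0 h1 h2 vA vB vC hbits
    revert q
    decide
  unfold LL
  rw [if_neg (by decide), if_neg (by decide), if_neg (by decide), e01, e02, n0, n2]
  rcases h3 with rfl | rfl | rfl
  · have hT : Tor p A B x := T0 hp2 hA0 hB0 vA (by rw [vB]; simp) (by simp; omega) hy hxy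
    have hgb : sg0 p γ = xor (sg0 p (-1)) (sg0 p β) := by
      rw [← sg0_neg hβ]
      apply sg0_congr'
      have e : (p : ℤ) * (p ^ m * α - β - γ) = 0 := by
        simp only [if_true, zero_ne_one, if_false, add_zero, pow_one] at hA hB hC
        have h3 : ¬ ((0 : Fin 3) = 1) := by decide
        have h4 : ¬ ((0 : Fin 3) = 2) := by decide
        simp only [h4, if_false, add_zero, pow_one] at hB hC
        rw [hA, hB] at hC
        rw [pow_add, pow_one] at hC
        linear_combination hC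
      have e2 : (p : ℤ) ^ m * α - β - γ = 0 := (mul_eq_zero.1 e).resolve_left hp0
      have e3 : γ - -β = p ^ m * α := by linear_combination (-1 : ℤ) * e2
      rw [e3]
      exact (dvd_pow_self _ hm.ne').mul_right _
    have h4 := hbits hT
    have k3 : ¬ ((0 : Fin 3) = 1) := by decide
    have k4 : ¬ ((0 : Fin 3) = 2) := by decide
    simp only [k3, k4, if_true, if_false, add_zero, m1, m0, decide_true, decide_false,
      Bool.true_and, Bool.false_and, Bool.xor_false] at h4 h0 h1 h2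
    rw [h0, h1, h2]
    rw [hgb] at h4 ⊢
    generalize sg0 p (-1) = s at *
    generalize sg0 p α = a at *
    generalize sg0 p β = b at *
    generalize decide (Odd m) = o at *
    rcases h4 with ⟨u1, u2, u3, u4⟩ | ⟨u1, u2, u3, u4⟩ | ⟨u1, u2, u3, u4⟩ | ⟨u1, u2, u3, u4⟩ <;>
      rw [u1, u2, u3, u4] <;> clear u1 u2 u3 u4 h0 h1 h2 hgb m1 n0 n2 hbits <;> revert neg s a b o <;> decide
  · have hT : Tor p A B x := T1 hp2 hA0 hB0 (by rw [vA]; simp) vB (by simp; omega) hy hxy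
    have hgb : sg0 p γ = sg0 p α := by
      apply sg0_congr'
      have k3 : ¬ ((1 : Fin 3) = 0) := by decide
      have k4 : ¬ ((1 : Fin 3) = 2) := by decide
      simp only [k3, k4, if_true, if_false, add_zero, pow_one] at hA hB hC
      rw [hA, hB, pow_add, pow_one] at hC
      have e2 : α - (p : ℤ) ^ m * β - γ = 0 := by
        have e : (p : ℤ) * (α - p ^ m * β - γ) = 0 := by linear_combination hC
        exact (mul_eq_zero.1 e).resolve_left hp0
      have e3 : γ - α = -(p ^ m * β) := by linear_combination (-1 : ℤ) * e2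
      rw [e3]
      exact ((dvd_pow_self _ hm.ne').mul_right _).neg_right
    have h4 := hbits hT
    have k3 : ¬ ((1 : Fin 3) = 0) := by decide
    have k4 : ¬ ((1 : Fin 3) = 2) := by decide
    simp only [k3, k4, if_true, if_false, add_zero, m1, m0, decide_true, decide_false,
      Bool.true_and, Bool.false_and, Bool.xor_false] at h4 h0 h1 h2
    rw [h0, h1, h2]
    rw [hgb] at h4 ⊢
    generalize sg0 p (-1) = s at *
    generalize sg0 p α = a at *
    generalize sg0 p β = b at *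
    generalize decide (Odd m) = o at *
    rcases h4 with ⟨u1, u2, u3, u4⟩ | ⟨u1, u2, u3, u4⟩ | ⟨u1, u2, u3, u4⟩ | ⟨u1, u2, u3, u4⟩ <;>
      rw [u1, u2, u3, u4] <;> clear u1 u2 u3 u4 h0 h1 h2 hgb m1 n0 n2 hbits <;> revert neg s a b o <;> decide
  · have hT : Tor p A B x := T2 hp2 hA0 (by rw [vA]; simp) vC (by simp; omega) hy hxy
    have hgb : sg0 p β = sg0 p α := by
      apply sg0_congr'
      have k3 : ¬ ((2 : Fin 3) = 0) := by decide
      have k4 : ¬ ((2 : Fin 3) = 1) := by decide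
      simp only [k3, k4, if_true, if_false, add_zero, pow_one] at hA hB hC
      rw [hA, hB, pow_add, pow_one] at hC
      have e2 : α - β - (p : ℤ) ^ m * γ = 0 := by
        have e : (p : ℤ) * (α - β - p ^ m * γ) = 0 := by linear_combination hC
        exact (mul_eq_zero.1 e).resolve_left hp0
      have e3 : β - α = -(p ^ m * γ) := by linear_combination (-1 : ℤ) * e2
      rw [e3]
      exact ((dvd_pow_self _ hm.ne').mul_right _).neg_right
    have h4 := hbits hT
    have k3 : ¬ ((2 : Fin 3) = 0) := by decide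
    have k4 : ¬ ((2 : Fin 3) = 1) := by decide
    simp only [k3, k4, if_true, if_false, add_zero, m1, m0, decide_true, decide_false,
      Bool.true_and, Bool.false_and, Bool.xor_false] at h4 h0 h1 h2
    rw [h0, h1, h2]
    rw [hgb] at h4 ⊢
    generalize sg0 p (-1) = s at *
    generalize sg0 p α = a at *
    generalize sg0 p γ = b at *
    generalize decide (Odd m) = o at *
    rcases h4 with ⟨u1, u2, u3, u4⟩ | ⟨u1, u2, u3, u4⟩ | ⟨u1, u2, u3, u4⟩ | ⟨u1, u2, u3, u4⟩ <;>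
      rw [u1, u2, u3, u4] <;> clear u1 u2 u3 u4 h0 h1 h2 hgb m1 n0 n2 hbits <;> revert neg s a b o <;> decide

end loc

end Pool.Agent.L0h5.TH
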