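import Pool.Agent.L0h5.TF.Sieve

/-!
# Upper bound sieve, uniform in the conditions
-/

set_option autoImplicit false

namespace Pool.Agent.L0h5.TH

open Finset Pool.Agent.W262.RK Pool.Agent.L0h5.TF

/-- the forbidden classes -/
def QU (Q : ℕ → ℤ → Prop) (z y : ℕ) (t0 : ℤ) (m p n : ℕ) : Prop :=
  p ∈ PS z y ∧ ¬ p ∣ m ∧ Q p (t0 + (m : ℤ) * ((n : ℤ) - 1))

section

variable {Q : ℕ → ℤ → Prop} {z y : ℕ}

lemma QU_per (hper : ∀ p ∈ PS z y, ∀ n n' : ℤ, (p : ℤ) ∣ n - n' → (Q p n ↔ Q p n')) (t0 : ℤ)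
    (m p n : ℕ) : QU Q z y t0 m p n ↔ QU Q z y t0 m p (n % p) := by
  unfold QU
  refine and_congr_right fun hp => and_congr_right fun _ => ?_
  apply hper p hp
  have h1 : (p : ℤ) ∣ (n : ℤ) - ((n % p : ℕ) : ℤ) := by
    push_cast
    exact Int.dvd_self_sub_emod
  have e : t0 + (m : ℤ) * ((n : ℤ) - 1) - (t0 + (m : ℤ) * (((n % p : ℕ) : ℤ) - 1)) =
      m * ((n : ℤ) - ((n % p : ℕ) : ℤ)) := by ring
  rw [e]
  exact h1.mul_left _

open Classical in
lemma nuB_QU (hper : ∀ p ∈ PS z y, ∀ n n' : ℤ, (p : ℤ) ∣ n - n' → (Q p n ↔ Q p n')) (t0 : ℤ)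
    (m : ℕ) {p : ℕ} (hp : p ∈ PS z y) (hpm : ¬ p ∣ m) :
    Pool.Agent.H373R2.T7.nuB (QU Q z y t0 m) p =
      ((range p).filter (fun n : ℕ => Q p (n : ℤ))).card := by
  have hpp := (mem_PS.1 hp).2
  have : Fact p.Prime := ⟨hpp⟩
  have : NeZero p := ⟨hpp.ne_zero⟩
  have hm : (m : ZMod p) ≠ 0 := by
    intro h
    exact hpm ((ZMod.natCast_eq_zero_iff _ _).1 h)
  have hQ : ∀ a b : ℤ, (a : ZMod p) = (b : ZMod p) → (Q p a ↔ Q p b) := by
    intro a b hab
    apply hper p hp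
    rw [← ZMod.intCast_zmod_eq_zero_iff_dvd]
    push_cast
    rw [hab, sub_self]
  have hval : ∀ x : ZMod p, (((x.val : ℕ) : ℤ) : ZMod p) = x := by
    intro x
    rw [Int.cast_natCast, ZMod.natCast_zmod_val]
  have h1 : Pool.Agent.H373R2.T7.nuB (QU Q z y t0 m) p =
      (univ.filter (fun x : ZMod p => Q p (t0 + m * ((x.val : ℤ) - 1)))).card := by
    rw [← cnt_zmod p fun x => Q p (t0 + m * ((x.val : ℤ) - 1))]
    unfold Pool.Agent.H373R2.T7.nuB
    congr 1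
    refine filter_congr fun n _ => ?_
    unfold QU
    have e : Q p (t0 + m * ((n : ℤ) - 1)) ↔ Q p (t0 + m * ((((n : ZMod p)).val : ℤ) - 1)) := by
      apply hQ
      push_cast
      have := hval (n : ZMod p)
      push_cast at this
      rw [this]
    rw [← e]
    constructor
    · rintro ⟨-, -, h⟩
      exact h
    · intro h
      exact ⟨hp, hpm, h⟩
  have h2 : ((range p).filter (fun n : ℕ => Q p (n : ℤ))).card =
      (univ.filter (fun x : ZMod p => Q p (x.val : ℤ))).card := by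
    rw [← cnt_zmod p fun x => Q p (x.val : ℤ)]
    congr 1
    refine filter_congr fun n _ => ?_
    apply hQ
    rw [hval, Int.cast_natCast]
  rw [h1, h2]
  set φ : ZMod p ≃ ZMod p := (Equiv.subRight (1 : ZMod p)).trans
    ((Equiv.mulLeft₀ (m : ZMod p) hm).trans (Equiv.addLeft (t0 : ZMod p))) with hφ
  have hφv : ∀ x : ZMod p, Q p (t0 + m * ((x.val : ℤ) - 1)) ↔ Q p (((φ x).val : ℕ) : ℤ) := by
    intro x
    apply hQ
    rw [hval]
    push_cast
    have := hval x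
    push_cast at this
    rw [this]
    rfl
  refine card_bij (fun x _ => φ x) ?_ ?_ ?_
  · intro x hx
    rw [mem_filter] at hx ⊢
    exact ⟨mem_univ _, (hφv x).1 hx.2⟩
  · intro a _ b _ hab
    exact φ.injective hab
  · intro b hb
    refine ⟨φ.symm b, ?_, by simp⟩
    rw [mem_filter] at hb ⊢
    refine ⟨mem_univ _, (hφv _).2 ?_⟩
    rw [Equiv.apply_symm_apply]
    exact hb.2

open Classical in
lemma count_leU {x r : ℤ} {X m : ℕ} (hm : 0 < m) (T' : Finset ℤ)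
    (hT : ∀ t ∈ T', x < t ∧ t ≤ x + X ∧ (m : ℤ) ∣ t - r ∧ ∀ p ∈ PS z y, ¬ p ∣ m → ¬ Q p t)
    {t0 : ℤ} (ht0 : t0 = x + 1 + (r - x - 1) % m) :
    T'.card ≤
      ((Icc 1 (X / m + 1)).filter (fun n : ℕ => ∀ p ∈ Pool.Agent.H373R2.T7.pz y,
          ¬ QU Q z y t0 m p n)).card := by
  have hmz : (0 : ℤ) < m := by exact_mod_cast hm
  have hd0 : (m : ℤ) ∣ t0 - r := by
    rw [ht0]
    have h1 := Int.dvd_self_sub_emod (x := r - x - 1) (m := (m : ℤ))
    have e : x + 1 + (r - x - 1) % m - r = -((r - x - 1) - (r - x - 1) % m) := by ring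
    rw [e]
    exact h1.neg_right
  have h0 := Int.emod_nonneg (r - x - 1) hmz.ne'
  have h0' := Int.emod_lt_of_pos (r - x - 1) hmz
  have key : ∀ t ∈ T', ∃ k : ℕ, t = t0 + m * k ∧ k ≤ X / m := by
    intro t ht
    obtain ⟨h1, h2, h3, -⟩ := hT t ht
    have h4 : (m : ℤ) ∣ t - t0 := by
      have e : t - t0 = (t - r) - (t0 - r) := by ring
      rw [e]
      exact dvd_sub h3 hd0
    obtain ⟨k, hk⟩ := h4
    have hk0 : 0 ≤ k := by
      by_contra hcon
      have h5 : k ≤ -1 := by omega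
      have h6 : (m : ℤ) * k ≤ m * (-1) := mul_le_mul_of_nonneg_left h5 hmz.le
      omega
    obtain ⟨k', rfl⟩ := Int.eq_ofNat_of_zero_le hk0
    refine ⟨k', by linarith, ?_⟩
    rw [Nat.le_div_iff_mul_le hm]
    have h7 : ((m * k' : ℕ) : ℤ) ≤ X := by
      push_cast
      rw [← hk]
      omega
    have h8 : m * k' ≤ X := by exact_mod_cast h7
    rwa [mul_comm]
  refine card_le_card_of_injOn (fun t => ((t - t0) / m).toNat + 1) ?_ ?_
  · intro t ht
    have ht' := Finset.mem_coe.1 ht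
    obtain ⟨k, hk, hkX⟩ := key t ht'
    have e1 : (t - t0) / m = k := by
      rw [hk, add_sub_cancel_left, Int.mul_ediv_cancel_left _ hmz.ne']
    simp only
    rw [e1, Int.toNat_natCast, Finset.mem_coe, mem_filter, mem_Icc]
    refine ⟨⟨by omega, by omega⟩, fun p _ hQ => ?_⟩
    obtain ⟨hpPS, hpm, hj⟩ := hQ
    have e : t0 + (m : ℤ) * (((k + 1 : ℕ) : ℤ) - 1) = t := by
      rw [hk]
      push_cast
      ring
    rw [e] at hj
    exact (hT t ht').2.2.2 p hpPS hpm hj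
  · intro a ha b hb hab
    obtain ⟨k, hk, -⟩ := key a (Finset.mem_coe.1 ha)
    obtain ⟨l, hl, -⟩ := key b (Finset.mem_coe.1 hb)
    have e1 : (a - t0) / m = k := by
      rw [hk, add_sub_cancel_left, Int.mul_ediv_cancel_left _ hmz.ne']
    have e2 : (b - t0) / m = l := by
      rw [hl, add_sub_cancel_left, Int.mul_ediv_cancel_left _ hmz.ne']
    simp only [e1, e2, Int.toNat_natCast] at hab
    have : k = l := by omega
    rw [hk, hl, this]

end

set_option maxHeartbeats 1000000 in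
open Classical in
/-- the sieve, uniform in the conditions -/
theorem svU (c N z : ℕ) (hz : 2 * c + 2 ≤ z) (C0 : ℝ) :
    ∃ (C : ℝ) (K y0 : ℕ), 0 ≤ C ∧ 1 ≤ K ∧ ∀ X y : ℕ, y0 ≤ y → z < y → y ^ K ≤ X →
    ∀ (x r : ℤ) (m : ℕ), 1 ≤ m → m ^ 4 ≤ X → ∀ (Q : ℕ → ℤ → Prop) (ν : ℕ → ℕ),
    (∀ p ∈ PS z y, ∀ n n' : ℤ, (p : ℤ) ∣ n - n' → (Q p n ↔ Q p n')) →
    (∀ p ∈ PS z y, ¬ p ∣ m → ((range p).filter (fun n : ℕ => Q p (n : ℤ))).card = ν p) →
    (∀ p ∈ PS z y, ν p ≤ c) →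
    (N * Real.log (Real.log y) - C0 ≤ ∑ p ∈ PS z y, (ν p : ℝ) / p) →
    ∀ T' : Finset ℤ, (∀ t ∈ T', x < t ∧ t ≤ x + X ∧ (m : ℤ) ∣ t - r ∧
      ∀ p ∈ PS z y, ¬ p ∣ m → ¬ Q p t) →
    (T'.card : ℝ) ≤
      C * (X / m) * (∏ p ∈ m.primeFactors.filter (fun p => p ∈ PS z y),
        (p : ℝ) / ((p : ℝ) - c)) / (Real.log y) ^ N := by
  obtain ⟨K', x0', hK', hF⟩ := Pool.Agent.H373R2.T7.sys_fund (c + 1) (by omega) 1 one_pos
  set C1 : ℝ := Real.exp C0 with hC1d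
  have hC1 : 0 < C1 := Real.exp_pos _
  refine ⟨4 * C1 + 1, 2 * (K' + N), max x0' 3, by positivity, by omega,
    fun X y hy hzy hyX x r m hm1 hmX4 Q ν hper hνe hνc hC0 T' hT => ?_⟩
  have hy0 : x0' ≤ y := (le_max_left _ _).trans hy
  have hy3 : 3 ≤ y := (le_max_right _ _).trans hy
  have hmpos : 0 < m := hm1
  have hm0 : m ≠ 0 := hmpos.ne'
  obtain ⟨t0, ht0⟩ : ∃ t0 : ℤ, t0 = x + 1 + (r - x - 1) % m := ⟨_, rfl⟩
  have hr := count_leU (Q := Q) (z := z) (y := y) hmpos T' hT ht0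
  have hnu : ∀ p ∈ PS z y, ¬ p ∣ m →
      Pool.Agent.H373R2.T7.nuB (QU Q z y t0 m) p = ν p :=
    fun p hp hpm => (nuB_QU hper t0 m hp hpm).trans (hνe p hp hpm)
  have hnu0 : ∀ p, ¬ (p ∈ PS z y ∧ ¬ p ∣ m) →
      Pool.Agent.H373R2.T7.nuB (QU Q z y t0 m) p = 0 := by
    intro p hp
    unfold Pool.Agent.H373R2.T7.nuB
    rw [card_eq_zero, filter_eq_empty_iff]
    intro n _ hn
    exact hp ⟨hn.1, hn.2.1⟩
  have hPer : Pool.Agent.H373R2.T7.PerB (QU Q z y t0 m) (c + 1) := by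
    refine ⟨fun p n => QU_per hper t0 m p n, fun p _ => ?_⟩
    by_cases h : p ∈ PS z y ∧ ¬ p ∣ m
    · rw [hnu p h.1 h.2]
      exact (hνc p h.1).trans (Nat.le_succ c)
    · rw [hnu0 p h]
      exact Nat.zero_le _
  have hfund := hF (y ^ K') y hy0 le_rfl (QU Q z y t0 m) hPer (X / m + 1)
  have hprod : ∏ p ∈ Pool.Agent.H373R2.T7.pz y,
      (1 - ((Pool.Agent.H373R2.T7.nuB (QU Q z y t0 m) p : ℕ) : ℝ) / p) =
      ∏ p ∈ (PS z y).filter (fun p => ¬ p ∣ m), (1 - (ν p : ℝ) / p) := by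
    have h1 : ∏ p ∈ (PS z y).filter (fun p => ¬ p ∣ m),
        (1 - ((Pool.Agent.H373R2.T7.nuB (QU Q z y t0 m) p : ℕ) : ℝ) / p) =
        ∏ p ∈ Pool.Agent.H373R2.T7.pz y,
      (1 - ((Pool.Agent.H373R2.T7.nuB (QU Q z y t0 m) p : ℕ) : ℝ) / p) := by
      apply prod_subset
      · intro p hp
        rw [mem_filter, mem_PS] at hp
        exact Pool.Agent.H373R2.T7.mem_pz.2 ⟨hp.1.1.2, hp.1.2⟩
      · intro p _ hp
        rw [mem_filter] at hp
        rw [hnu0 p hp]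
        simp
    rw [← h1]
    refine prod_congr rfl fun p hp => ?_
    rw [mem_filter] at hp
    rw [hnu p hp.1 hp.2]
  rw [hprod] at hfund
  obtain ⟨A, hA⟩ : ∃ A : ℝ, A = ∏ p ∈ (PS z y).filter (fun p => ¬ p ∣ m),
    (1 - (ν p : ℝ) / p) := ⟨_, rfl⟩
  obtain ⟨B, hB⟩ : ∃ B : ℝ, B = ∏ p ∈ m.primeFactors.filter (fun p => p ∈ PS z y),
    (1 - (ν p : ℝ) / p) := ⟨_, rfl⟩
  obtain ⟨D, hD⟩ : ∃ D : ℝ, D = ∏ p ∈ m.primeFactors.filter (fun p => p ∈ PS z y),
    ((p : ℝ) / ((p : ℝ) - c)) := ⟨_, rfl⟩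
  have hzc : ∀ p ∈ PS z y, (c : ℝ) + 1 ≤ p := by
    intro p hp
    have h1 := (mem_PS.1 hp).1.1
    exact_mod_cast (by omega : c + 1 ≤ p)
  have hrc : ∀ p ∈ PS z y, (ν p : ℝ) ≤ c := by
    intro p hp
    exact_mod_cast hνc p hp
  have hfpos : ∀ p ∈ PS z y, 0 < 1 - (ν p : ℝ) / p := by
    intro p hp
    have h1 := hzc p hp
    have h2 := hrc p hp
    have hp0 : (0 : ℝ) < p := by exact_mod_cast (mem_PS.1 hp).2.pos
    rw [sub_pos, div_lt_one hp0]
    linarith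
  have hApos : 0 < A := by
    rw [hA]; exact prod_pos fun p hp => hfpos p (mem_filter.1 hp).1
  have hBpos : 0 < B := by
    rw [hB]; exact prod_pos fun p hp => hfpos p (mem_filter.1 hp).2
  have hAB : A * B = ∏ p ∈ PS z y, (1 - (ν p : ℝ) / p) := by
    have h1 : m.primeFactors.filter (fun p => p ∈ PS z y) = (PS z y).filter (fun p => ¬ ¬ p ∣ m) := by
      ext p
      rw [mem_filter, mem_filter, not_not]
      constructor
      · rintro ⟨hp, hp2⟩
        exact ⟨hp2, Nat.dvd_of_mem_primeFactors hp⟩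
      · rintro ⟨h2, h3⟩
        exact ⟨Nat.mem_primeFactors.2 ⟨(mem_PS.1 h2).2, h3, hm0⟩, h2⟩
    rw [hA, hB, h1]
    exact prod_filter_mul_prod_filter_not _ _ _
  have hDB : 1 ≤ D * B := by
    rw [hD, hB, ← prod_mul_distrib]
    have h1 : ∀ p ∈ m.primeFactors.filter (fun p => p ∈ PS z y),
        (1 : ℝ) ≤ (p : ℝ) / ((p : ℝ) - c) * (1 - (ν p : ℝ) / p) := by
      intro p hp
      have h1 := hzc p (mem_filter.1 hp).2
      have h1' := hrc p (mem_filter.1 hp).2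
      have hp0 : (0 : ℝ) < p := by exact_mod_cast (mem_PS.1 (mem_filter.1 hp).2).2.pos
      have h2 : 0 < (p : ℝ) - c := by linarith
      have h3 : (p : ℝ) / ((p : ℝ) - c) * (1 - (ν p : ℝ) / p) =
          ((p : ℝ) - ν p) / ((p : ℝ) - c) := by
        field_simp
      rw [h3, le_div_iff₀ h2]
      linarith
    calc (1 : ℝ) = ∏ p ∈ m.primeFactors.filter (fun p => p ∈ PS z y), (1 : ℝ) := by
          rw [prod_const_one]
      _ ≤ _ := prod_le_prod (fun _ _ => zero_le_one) h1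
  have hD1 : 1 ≤ D := by
    rw [hD]
    have h1 : ∀ p ∈ m.primeFactors.filter (fun p => p ∈ PS z y),
        (1 : ℝ) ≤ (p : ℝ) / ((p : ℝ) - c) := by
      intro p hp
      have h1 := hzc p (mem_filter.1 hp).2
      have h2 : 0 < (p : ℝ) - c := by linarith
      rw [le_div_iff₀ h2]
      have : (0 : ℝ) ≤ c := Nat.cast_nonneg c
      linarith
    calc (1 : ℝ) = ∏ p ∈ m.primeFactors.filter (fun p => p ∈ PS z y), (1 : ℝ) := by
          rw [prod_const_one]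
      _ ≤ _ := prod_le_prod (fun _ _ => zero_le_one) h1
  have hDpos : 0 < D := by linarith
  have hyr : (3 : ℝ) ≤ y := by exact_mod_cast hy3
  have hl1 : 1 < Real.log y := by
    rw [Real.lt_log_iff_exp_lt (by linarith)]
    have := Real.exp_one_lt_d9
    linarith
  have hP : ∏ p ∈ PS z y, (1 - (ν p : ℝ) / p) ≤ C1 / (Real.log y) ^ N := by
    have h1 : ∏ p ∈ PS z y, (1 - (ν p : ℝ) / p) ≤
        ∏ p ∈ PS z y, Real.exp (-((ν p : ℝ) / p)) := by
      apply prod_le_prod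
      · intro p hp
        exact (hfpos p hp).le
      · intro p _
        have := Real.add_one_le_exp (-((ν p : ℝ) / p))
        linarith
    refine h1.trans ?_
    rw [← Real.exp_sum, sum_neg_distrib]
    have h4 : Real.log y ^ N = Real.exp (N * Real.log (Real.log y)) := by
      rw [← Real.log_pow, Real.exp_log (by positivity)]
    rw [h4, hC1d, ← Real.exp_sub]
    apply Real.exp_le_exp.2
    linarith
  have hAle : A ≤ (C1 / (Real.log y) ^ N) * D := by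
    have h1 : A ≤ (A * B) * D := by
      calc A = A * 1 := (mul_one _).symm
        _ ≤ A * (D * B) := mul_le_mul_of_nonneg_left hDB hApos.le
        _ = _ := by ring
    refine h1.trans ?_
    rw [hAB]
    exact mul_le_mul_of_nonneg_right hP hDpos.le
  have hly : Real.log y ≤ y := by
    have := Real.log_le_sub_one_of_pos (by linarith : (0 : ℝ) < y)
    linarith
  have hLpos : 0 < (Real.log y) ^ N := by positivity
  have hmX : m * y ^ (K' + N) ≤ X := by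
    have h1 : (m * y ^ (K' + N)) ^ 4 ≤ X ^ 4 := by
      calc (m * y ^ (K' + N)) ^ 4 = m ^ 4 * (y ^ (K' + N)) ^ 4 := by rw [mul_pow]
        _ ≤ m ^ 4 * (y ^ (K' + N)) ^ 6 := by
          apply Nat.mul_le_mul_left
          exact Nat.pow_le_pow_right (pow_pos (by omega) _) (by norm_num)
        _ = m ^ 4 * (y ^ (2 * (K' + N))) ^ 3 := by ring
        _ ≤ X * X ^ 3 := Nat.mul_le_mul hmX4 (Nat.pow_le_pow_left hyX 3)
        _ = X ^ 4 := by ring
    exact (Nat.pow_le_pow_iff_left (by norm_num)).1 h1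
  have hmX' : m ≤ X := by
    refine le_trans ?_ hmX
    exact Nat.le_mul_of_pos_right _ (pow_pos (by omega) _)
  have hmr : (0 : ℝ) < m := by exact_mod_cast hmpos
  have hcnt : (T'.card : ℝ) ≤
      2 * (((X / m + 1 : ℕ) : ℝ) * A) + √((y ^ K' : ℕ) : ℝ) := by
    have h1 : (T'.card : ℝ) ≤
      (((Icc 1 (X / m + 1)).filter (fun n : ℕ => ∀ p ∈ Pool.Agent.H373R2.T7.pz y,
          ¬ QU Q z y t0 m p n)).card : ℝ) := by
      exact_mod_cast hr
    have h2 := (abs_le.1 hfund).2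
    rw [one_mul, ← hA] at h2
    linarith
  have hX' : ((X / m + 1 : ℕ) : ℝ) ≤ 2 * (X / m) := by
    have h1 : (X / m + 1) * m ≤ 2 * X := by
      have := Nat.div_mul_le_self X m
      rw [add_mul, one_mul]
      omega
    have h2 : ((X / m + 1 : ℕ) : ℝ) * m ≤ 2 * X := by exact_mod_cast h1
    rw [← mul_div_assoc, le_div_iff₀ hmr]
    exact h2
  have hsq : √((y ^ K' : ℕ) : ℝ) ≤ (X / m) * D / (Real.log y) ^ N := by
    have h1 : (1 : ℝ) ≤ ((y ^ K' : ℕ) : ℝ) := by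
      exact_mod_cast Nat.one_le_iff_ne_zero.2 (pow_ne_zero _ (by omega))
    have h2 : √((y ^ K' : ℕ) : ℝ) ≤ ((y ^ K' : ℕ) : ℝ) := by
      rw [Real.sqrt_le_left (by linarith)]
      nlinarith
    refine h2.trans ?_
    rw [le_div_iff₀ hLpos]
    have h3 : (Real.log y) ^ N ≤ (y : ℝ) ^ N := pow_le_pow_left₀ (by linarith) hly _
    have h4 : (m : ℝ) * (y : ℝ) ^ (K' + N) ≤ X := by exact_mod_cast hmX
    have h5 : (y : ℝ) ^ (K' + N) ≤ X / m := by
      rw [le_div_iff₀ hmr, mul_comm]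
      exact h4
    push_cast
    calc (y : ℝ) ^ K' * (Real.log y) ^ N ≤ (y : ℝ) ^ K' * (y : ℝ) ^ N :=
          mul_le_mul_of_nonneg_left h3 (by positivity)
      _ = (y : ℝ) ^ (K' + N) := by rw [pow_add]
      _ ≤ X / m := h5
      _ = (X / m) * 1 := (mul_one _).symm
      _ ≤ (X / m) * D := mul_le_mul_of_nonneg_left hD1 (by positivity)
  have hmain : 2 * (((X / m + 1 : ℕ) : ℝ) * A) ≤ 4 * C1 * (X / m) * D / (Real.log y) ^ N := by
    calc 2 * (((X / m + 1 : ℕ) : ℝ) * A) ≤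
        2 * ((2 * (X / m)) * ((C1 / (Real.log y) ^ N) * D)) := by gcongr
      _ = _ := by ring
  rw [← hD]
  calc (T'.card : ℝ)
      ≤ 2 * (((X / m + 1 : ℕ) : ℝ) * A) + √((y ^ K' : ℕ) : ℝ) := hcnt
    _ ≤ 4 * C1 * (X / m) * D / (Real.log y) ^ N + (X / m) * D / (Real.log y) ^ N :=
        add_le_add hmain hsq
    _ = (4 * C1 + 1) * (X / m) * D / (Real.log y) ^ N := by ring

end Pool.Agent.L0h5.TH
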